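import Pool.Agent.W2helper22.AL.Up

/-!
# Project AL, piece REAL: a straight-line program gives a circuit
-/

set_option autoImplicit false

namespace Pool.Agent.W2helper85.AL

open Finset Pool.Agent.W2helper76.RW Pool.Agent.W2helper22.AL

/-- gates with arguments in `ℕ` -/
inductive NG (I : Type) : Type
  | inp (p : I) : NG I
  | const (c : Bool) : NG I
  | not (a : ℕ) : NG I
  | and (a b : ℕ) : NG I
  | or (a b : ℕ) : NG I

variable {I : Type}

/-- the gate `g` with number `i` computes `V i`, and the levels are right -/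
def ok (V : ℕ → (I → Bool) → Bool) (lev : ℕ → ℕ) (i : ℕ) : NG I → Prop
  | .inp p => V i = fun x => x p
  | .const b => V i = fun _ => b
  | .not a => a < i ∧ V i = (fun x => !(V a x)) ∧ lev a < lev i
  | .and a b => (a < i ∧ b < i) ∧ V i = (fun x => V a x && V b x) ∧ lev a ≤ lev i ∧ lev b ≤ lev i
  | .or a b => (a < i ∧ b < i) ∧ V i = (fun x => V a x || V b x) ∧ lev a ≤ lev i ∧ lev b ≤ lev i

/-- is it a NOT gate -/
def NG.isNot : NG I → Bool
  | .not _ => true
  | _ => false

lemma ok_congr {V V' : ℕ → (I → Bool) → Bool} {lev lev' : ℕ → ℕ} {i : ℕ} {g : NG I}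
    (hV : ∀ j ≤ i, V' j = V j) (hl : ∀ j ≤ i, lev' j = lev j) (h : ok V lev i g) :
    ok V' lev' i g := by
  cases g with
  | inp p => exact (hV i le_rfl).trans h
  | const b => exact (hV i le_rfl).trans h
  | not a =>
    obtain ⟨h1, h2, h3⟩ := h
    refine ⟨h1, ?_, ?_⟩
    · rw [hV i le_rfl, hV a h1.le]; exact h2
    · rw [hl i le_rfl, hl a h1.le]; exact h3
  | and a b =>
    obtain ⟨⟨h1, h1'⟩, h2, h3, h4⟩ := h
    refine ⟨⟨h1, h1'⟩, ?_, ?_, ?_⟩
    · rw [hV i le_rfl, hV a h1.le, hV b h1'.le]; exact h2
    · rw [hl i le_rfl, hl a h1.le]; exact h3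
    · rw [hl i le_rfl, hl b h1'.le]; exact h4
  | or a b =>
    obtain ⟨⟨h1, h1'⟩, h2, h3, h4⟩ := h
    refine ⟨⟨h1, h1'⟩, ?_, ?_, ?_⟩
    · rw [hV i le_rfl, hV a h1.le, hV b h1'.le]; exact h2
    · rw [hl i le_rfl, hl a h1.le]; exact h3
    · rw [hl i le_rfl, hl b h1'.le]; exact h4

/-- the invariant of the construction -/
structure Inv (L : List (((I → Bool) → Bool) × ℕ)) (c : ℕ → ℕ) (G : ℕ → NG I)
    (V : ℕ → (I → Bool) → Bool) (lev : ℕ → ℕ) : Prop where
  ok : ∀ i < L.length, ok V lev i (G i)
  mem : ∀ q ∈ L, ∃ i < L.length, V i = q.1 ∧ lev i = q.2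
  all : ∀ i < L.length, (V i, lev i) ∈ L
  cnt : ∀ l, ((range L.length).filter fun i => (G i).isNot = true ∧ lev i = l).card ≤ c l

lemma Inv.cons {L : List (((I → Bool) → Bool) × ℕ)} {c : ℕ → ℕ} {G : ℕ → NG I}
    {V : ℕ → (I → Bool) → Bool} {lev : ℕ → ℕ} (h : Inv L c G V lev) (f0 : (I → Bool) → Bool)
    (l0 : ℕ) (g0 : NG I) (c' : ℕ → ℕ)
    (h0 : AL.ok (Function.update V L.length f0) (Function.update lev L.length l0) L.length g0)
    (hc : ∀ l, c l + (if g0.isNot = true ∧ l0 = l then 1 else 0) ≤ c' l) :
    Inv ((f0, l0) :: L) c' (Function.update G L.length g0) (Function.update V L.length f0)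
      (Function.update lev L.length l0) := by
  constructor
  · intro i hi
    rw [List.length_cons] at hi
    rcases Nat.lt_succ_iff_lt_or_eq.1 hi with h1 | h1
    · rw [Function.update_of_ne h1.ne]
      refine ok_congr (fun j hj => ?_) (fun j hj => ?_) (h.ok i h1)
      · rw [Function.update_of_ne (by omega)]
      · rw [Function.update_of_ne (by omega)]
    · rw [h1, Function.update_self]
      exact h0
  · intro q hq
    rcases List.mem_cons.1 hq with rfl | hq
    · exact ⟨L.length, by simp, by simp, by simp⟩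
    · obtain ⟨i, hi, h1, h2⟩ := h.mem q hq
      refine ⟨i, by rw [List.length_cons]; omega, ?_, ?_⟩
      · rw [Function.update_of_ne hi.ne, h1]
      · rw [Function.update_of_ne hi.ne, h2]
  · intro i hi
    rw [List.length_cons] at hi
    rcases Nat.lt_succ_iff_lt_or_eq.1 hi with h1 | h1
    · rw [Function.update_of_ne h1.ne, Function.update_of_ne h1.ne]
      exact List.mem_cons_of_mem _ (h.all i h1)
    · rw [h1, Function.update_self, Function.update_self]
      exact List.mem_cons_self
  · intro l
    refine le_trans ?_ (hc l)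
    rw [List.length_cons, Finset.range_add_one, Finset.filter_insert]
    have e1 : ((range L.length).filter fun i => (Function.update G L.length g0 i).isNot = true ∧
        Function.update lev L.length l0 i = l) =
        (range L.length).filter fun i => (G i).isNot = true ∧ lev i = l := by
      apply Finset.filter_congr
      intro i hi
      have hi' := Finset.mem_range.1 hi
      rw [Function.update_of_ne hi'.ne, Function.update_of_ne hi'.ne]
    rw [e1, Function.update_self, Function.update_self]
    split_ifs with h1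
    · exact (Finset.card_insert_le _ _).trans (Nat.add_le_add_right (h.cnt l) 1)
    · exact h.cnt l

theorem inv_of_prog {L : List (((I → Bool) → Bool) × ℕ)} {c : ℕ → ℕ} (h : Prog L c) :
    ∃ (G : ℕ → NG I) (V : ℕ → (I → Bool) → Bool) (lev : ℕ → ℕ), Inv L c G V lev := by
  induction h with
  | nil =>
    refine ⟨fun _ => NG.const true, fun _ _ => true, fun _ => 0, ?_, ?_, ?_, ?_⟩
    · intro i hi
      simp at hi
    · intro q hq
      simp at hq
    · intro i hi
      simp at hi
    · intro l
      simp
  | @inp L c p l _ ih =>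
    obtain ⟨G, V, lev, hI⟩ := ih
    refine ⟨_, _, _, hI.cons (fun x => x p) l (NG.inp p) _ ?_ ?_⟩
    · show Function.update V L.length _ L.length = _
      rw [Function.update_self]
    · intro k
      simp [NG.isNot]
  | @const L c b l _ ih =>
    obtain ⟨G, V, lev, hI⟩ := ih
    refine ⟨_, _, _, hI.cons (fun _ => b) l (NG.const b) _ ?_ ?_⟩
    · show Function.update V L.length _ L.length = _
      rw [Function.update_self]
    · intro k
      simp [NG.isNot]
  | @and L c f g i j l _ hf hg hi hj ih =>
    obtain ⟨G, V, lev, hI⟩ := ih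
    obtain ⟨a, ha, ha1, ha2⟩ := hI.mem _ hf
    obtain ⟨b, hb, hb1, hb2⟩ := hI.mem _ hg
    refine ⟨_, _, _, hI.cons (fun x => f x && g x) l (NG.and a b) _ ?_ ?_⟩
    · refine ⟨⟨ha, hb⟩, ?_, ?_, ?_⟩
      · rw [Function.update_self, Function.update_of_ne ha.ne, Function.update_of_ne hb.ne, ha1,
          hb1]
      · rw [Function.update_self, Function.update_of_ne ha.ne, ha2]
        exact hi
      · rw [Function.update_self, Function.update_of_ne hb.ne, hb2]
        exact hj
    · intro k
      simp [NG.isNot]
  | @or L c f g i j l _ hf hg hi hj ih =>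
    obtain ⟨G, V, lev, hI⟩ := ih
    obtain ⟨a, ha, ha1, ha2⟩ := hI.mem _ hf
    obtain ⟨b, hb, hb1, hb2⟩ := hI.mem _ hg
    refine ⟨_, _, _, hI.cons (fun x => f x || g x) l (NG.or a b) _ ?_ ?_⟩
    · refine ⟨⟨ha, hb⟩, ?_, ?_, ?_⟩
      · rw [Function.update_self, Function.update_of_ne ha.ne, Function.update_of_ne hb.ne, ha1,
          hb1]
      · rw [Function.update_self, Function.update_of_ne ha.ne, ha2]
        exact hi
      · rw [Function.update_self, Function.update_of_ne hb.ne, hb2]
        exact hj
    · intro k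
      simp [NG.isNot]
  | @not L c f i l _ hf hi ih =>
    obtain ⟨G, V, lev, hI⟩ := ih
    obtain ⟨a, ha, ha1, ha2⟩ := hI.mem _ hf
    refine ⟨_, _, _, hI.cons (fun x => !(f x)) l (NG.not a) _ ?_ ?_⟩
    · refine ⟨ha, ?_, ?_⟩
      · rw [Function.update_self, Function.update_of_ne ha.ne, ha1]
      · rw [Function.update_self, Function.update_of_ne ha.ne, ha2]
        exact hi
    · intro k
      by_cases hk : l = k
      · subst hk
        simp [NG.isNot]
      · simp [NG.isNot, hk, Function.update_of_ne (Ne.symm hk)]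

/-- conversion to a gate of a circuit -/
def toGate (n : ℕ) : NG I → Gate I n
  | .inp p => Gate.inp p
  | .const b => Gate.const b
  | .not a => if h : a < n then Gate.not ⟨a, h⟩ else Gate.const false
  | .and a b => if h : a < n ∧ b < n then Gate.and ⟨a, h.1⟩ ⟨b, h.2⟩ else Gate.const false
  | .or a b => if h : a < n ∧ b < n then Gate.or ⟨a, h.1⟩ ⟨b, h.2⟩ else Gate.const false

lemma toGate_not {n : ℕ} {g : NG I} {a : Fin n} (h : toGate n g = Gate.not a) :
    g = NG.not a := by
  cases g with
  | inp p => simp [toGate] at h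
  | const b => simp [toGate] at h
  | not b =>
    simp only [toGate] at h
    split_ifs at h with h1
    · have := Gate.not.inj h
      rw [← this]
  | and b c =>
    simp only [toGate] at h
    split_ifs at h
  | or b c =>
    simp only [toGate] at h
    split_ifs at h

lemma toGate_and {n : ℕ} {g : NG I} {a b : Fin n} (h : toGate n g = Gate.and a b) :
    g = NG.and a b := by
  cases g with
  | inp p => simp [toGate] at h
  | const b => simp [toGate] at h
  | not b =>
    simp only [toGate] at h
    split_ifs at h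
  | and b c =>
    simp only [toGate] at h
    split_ifs at h with h1
    · obtain ⟨e1, e2⟩ := Gate.and.inj h
      rw [← e1, ← e2]
  | or b c =>
    simp only [toGate] at h
    split_ifs at h

lemma toGate_or {n : ℕ} {g : NG I} {a b : Fin n} (h : toGate n g = Gate.or a b) :
    g = NG.or a b := by
  cases g with
  | inp p => simp [toGate] at h
  | const b => simp [toGate] at h
  | not b =>
    simp only [toGate] at h
    split_ifs at h
  | and b c =>
    simp only [toGate] at h
    split_ifs at h
  | or b c =>
    simp only [toGate] at h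
    split_ifs at h with h1
    · obtain ⟨e1, e2⟩ := Gate.or.inj h
      rw [← e1, ← e2]

/-- the circuit -/
def mkC {n : ℕ} (G : ℕ → NG I) (V : ℕ → (I → Bool) → Bool) (lev : ℕ → ℕ)
    (hok : ∀ i < n, ok V lev i (G i)) (o : Fin n) : Circuit I where
  s := n
  gate := fun i => toGate n (G i)
  out := o
  not_lt := by
    intro i a h
    have h1 := hok i i.2
    rw [toGate_not h] at h1
    exact h1.1
  and_lt := by
    intro i a b h
    have h1 := hok i i.2
    rw [toGate_and h] at h1
    exact h1.1
  or_lt := by
    intro i a b h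
    have h1 := hok i i.2
    rw [toGate_or h] at h1
    exact h1.1

lemma mkC_val {n : ℕ} (G : ℕ → NG I) (V : ℕ → (I → Bool) → Bool) (lev : ℕ → ℕ)
    (hok : ∀ i < n, ok V lev i (G i)) (o : Fin n) (x : I → Bool) :
    ∀ (k : ℕ) (hk : k < n), (mkC G V lev hok o).val x ⟨k, hk⟩ = V k x := by
  intro k
  induction k using Nat.strong_induction_on with
  | _ k ih =>
    intro hk
    have h1 := hok k hk
    have hg : (mkC G V lev hok o).gate ⟨k, hk⟩ = toGate n (G k) := rfl
    cases hG : G k with
    | inp p =>
      rw [hG] at h1 hg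
      rw [Circuit.val_inp _ hg]
      exact (congrFun h1 x).symm
    | const b =>
      rw [hG] at h1 hg
      rw [Circuit.val_const _ hg]
      exact (congrFun h1 x).symm
    | not a =>
      rw [hG] at h1 hg
      obtain ⟨h2, h3, -⟩ := h1
      have han : a < n := h2.trans hk
      have e : toGate n (NG.not a : NG I) = Gate.not ⟨a, han⟩ := by
        simp only [toGate, dif_pos han]
      rw [e] at hg
      exact (Circuit.val_not _ hg).trans ((congrArg (fun z => !z) (ih a h2 han)).trans
        (congrFun h3 x).symm)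
    | and a b =>
      rw [hG] at h1 hg
      obtain ⟨⟨h2, h2'⟩, h3, -, -⟩ := h1
      have han : a < n := h2.trans hk
      have hbn : b < n := h2'.trans hk
      have e : toGate n (NG.and a b : NG I) = Gate.and ⟨a, han⟩ ⟨b, hbn⟩ := by
        simp only [toGate]
        rw [dif_pos ⟨han, hbn⟩]
      rw [e] at hg
      exact (Circuit.val_and _ hg).trans ((congrArg₂ (fun z w => z && w) (ih a h2 han)
        (ih b h2' hbn)).trans (congrFun h3 x).symm)
    | or a b =>
      rw [hG] at h1 hg
      obtain ⟨⟨h2, h2'⟩, h3, -, -⟩ := h1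
      have han : a < n := h2.trans hk
      have hbn : b < n := h2'.trans hk
      have e : toGate n (NG.or a b : NG I) = Gate.or ⟨a, han⟩ ⟨b, hbn⟩ := by
        simp only [toGate]
        rw [dif_pos ⟨han, hbn⟩]
      rw [e] at hg
      exact (Circuit.val_or _ hg).trans ((congrArg₂ (fun z w => z || w) (ih a h2 han)
        (ih b h2' hbn)).trans (congrFun h3 x).symm)

theorem real : S_REAL := by
  classical
  intro I h L c f i hP hh hf
  obtain ⟨G, V, lev, hI⟩ := inv_of_prog hP
  obtain ⟨o, ho, ho1, -⟩ := hI.mem _ hf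
  refine ⟨mkC G V lev hI.ok ⟨o, ho⟩, fun g => lev g, ?_, rfl, ?_, ?_⟩
  · intro x
    have := mkC_val G V lev hI.ok ⟨o, ho⟩ x o ho
    rw [ho1] at this
    exact this
  · refine ⟨?_, ?_, ?_, ?_⟩
    · intro i a hg
      have h1 := hI.ok i i.2
      rw [toGate_not hg] at h1
      exact h1.2.2
    · intro i a b hg
      have h1 := hI.ok i i.2
      rw [toGate_and hg] at h1
      exact h1.2.2
    · intro i a b hg
      have h1 := hI.ok i i.2
      rw [toGate_or hg] at h1
      exact h1.2.2
    · intro i
      exact hh _ (hI.all i i.2)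
  · intro l
    refine le_trans ?_ (hI.cnt l)
    rw [← Set.ncard_image_of_injective _ (Fin.val_injective), ← Set.ncard_coe_finset]
    apply Set.ncard_le_ncard _ (Finset.finite_toSet _)
    rintro _ ⟨g, ⟨⟨a, hga⟩, hl⟩, rfl⟩
    rw [Finset.mem_coe, Finset.mem_filter, Finset.mem_range]
    refine ⟨g.2, ?_, hl⟩
    rw [toGate_not hga]
    rfl

end Pool.Agent.W2helper85.AL
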