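import Pool.Agent.W2helper85.HookT

set_option autoImplicit false

namespace Pool.Agent.W2helper85.HookT

open Finset Pool.Agent.R153.Hook2

/-- number of `t`-regular partitions without a part `1` -/
theorem H_eq (t n : ℕ) (ht : 2 ≤ t) : r t (n : ℤ) - r t ((n : ℤ) - 1) =
    (((Reg t n).filter (fun p => 1 ∉ p.parts)).card : ℤ) := by
  have h0 : ¬ t ∣ 1 := by
    intro h
    have := Nat.le_of_dvd one_pos h
    omega
  have h1 := contain t n {1} (by simpa using h0)
  have h2 := Finset.card_filter_add_card_filter_not (s := Reg t n) (fun p => 1 ∈ p.parts)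
  simp only [Multiset.sum_singleton, Multiset.singleton_le] at h1
  rw [r_nat, show ((n : ℤ) - 1) = (n : ℤ) - ((1 : ℕ) : ℤ) by simp, ← h1, ← h2]
  push_cast
  ring

theorem H_nonneg (t : ℕ) (ht : 2 ≤ t) (m : ℤ) : 0 ≤ r t m - r t (m - 1) := by
  rcases lt_or_ge m 0 with h | h
  · rw [r_neg h, r_neg (by omega)]
    simp
  · obtain ⟨n, rfl⟩ := Int.eq_ofNat_of_zero_le h
    rw [H_eq t n ht]
    positivity

/-- adding a part `c` -/
theorem H_mono (t : ℕ) (ht : 2 ≤ t) (c : ℕ) (hc : 2 ≤ c) (hct : ¬ t ∣ c) (m : ℤ) :
    r t (m - c) - r t (m - c - 1) ≤ r t m - r t (m - 1) := by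
  rcases lt_or_ge (m - c) 0 with h | h
  · rw [r_neg h, r_neg (by omega), sub_zero]
    exact H_nonneg t ht m
  · obtain ⟨k, hk⟩ := Int.eq_ofNat_of_zero_le h
    have hm : m = ((k + c : ℕ) : ℤ) := by push_cast; omega
    rw [hk]
    subst hm
    rw [H_eq t k ht, H_eq t (k + c) ht]
    norm_cast
    apply Finset.card_le_card_of_injOn (fun q : k.Partition =>
        (⟨c ::ₘ q.parts, by
          intro x hx
          rw [Multiset.mem_cons] at hx
          rcases hx with hx | hx
          · omega
          · exact q.parts_pos hx, by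
          rw [Multiset.sum_cons, q.parts_sum]; omega⟩ : (k + c).Partition))
    · intro q hq
      rw [Finset.mem_coe, Finset.mem_filter, mem_Reg] at hq
      rw [Finset.mem_coe, Finset.mem_filter, mem_Reg]
      constructor
      · intro x hx
        simp only [Multiset.mem_cons] at hx
        rcases hx with hx | hx
        · rw [hx]; exact hct
        · exact hq.1 x hx
      · simp only [Multiset.mem_cons, not_or]
        exact ⟨by omega, hq.2⟩
    · intro q _ q' _ h
      have h1 := congrArg Nat.Partition.parts h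
      simp only at h1
      exact Nat.Partition.ext ((Multiset.cons_inj_right c).1 h1)

theorem H_mono_even (t : ℕ) (ht : 3 ≤ t) (i : ℕ) (m : ℤ) :
    r t (m - 2 * i) - r t (m - 2 * i - 1) ≤ r t m - r t (m - 1) := by
  induction i with
  | zero => simp
  | succ i ih =>
    refine le_trans ?_ ih
    have h2 : ¬ t ∣ 2 := by
      intro h
      have := Nat.le_of_dvd two_pos h
      omega
    have h := H_mono t (by omega) 2 le_rfl h2 (m - 2 * i)
    have e1 : m - 2 * ((i + 1 : ℕ) : ℤ) = m - 2 * i - ((2 : ℕ) : ℤ) := by push_cast; ring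
    rw [e1]
    exact h

theorem r_mono (t : ℕ) (ht : 2 ≤ t) (i : ℕ) (m : ℤ) : r t (m - i) ≤ r t m := by
  induction i with
  | zero => simp
  | succ i ih =>
    refine le_trans ?_ ih
    have h := H_nonneg t ht (m - i)
    have e1 : m - ((i + 1 : ℕ) : ℤ) = m - i - 1 := by push_cast; ring
    rw [e1]
    linarith

/-- the first correction is nonnegative, term by term -/
theorem Phi_diff (t n : ℕ) (ht : 3 ≤ t) : Phi (t + 1) n (r t) ≤ Phi t n (r t) := by
  unfold Phi
  apply Finset.sum_le_sum
  intro j _
  obtain ⟨m, hm⟩ : ∃ m : ℤ, m = n - ((2 * j + 1 : ℕ) : ℤ) * t := ⟨_, rfl⟩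
  have e1 : (n : ℤ) - ((2 * j + 1 : ℕ) : ℤ) * ((t + 1 : ℕ) : ℤ) = m - ((2 * j + 1 : ℕ) : ℤ) := by
    rw [hm]; push_cast; ring
  have e2 : (n : ℤ) - ((2 * j + 2 : ℕ) : ℤ) * t + 1 = m - ((t - 1 : ℕ) : ℤ) := by
    rw [hm]
    push_cast [Nat.cast_sub (by omega : 1 ≤ t)]
    ring
  have e3 : (n : ℤ) - ((2 * j + 2 : ℕ) : ℤ) * ((t + 1 : ℕ) : ℤ) + 1 =
      m - ((t - 1 : ℕ) : ℤ) - 2 * ((j + 1 : ℕ) : ℤ) := by
    rw [hm]
    push_cast [Nat.cast_sub (by omega : 1 ≤ t)]
    ring
  rw [← hm, e1, e2, e3]
  obtain ⟨x, hx⟩ : ∃ x : ℤ, x = m - ((t - 1 : ℕ) : ℤ) := ⟨_, rfl⟩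
  rw [← hx]
  unfold dd
  have h1 : r t (m - ((2 * j + 1 : ℕ) : ℤ)) ≤ r t (m - 1) := by
    have := r_mono t (by omega) (2 * j) (m - 1)
    have e : m - ((2 * j + 1 : ℕ) : ℤ) = m - 1 - ((2 * j : ℕ) : ℤ) := by push_cast; ring
    rw [e]; exact this
  have h2 : r t x - r t (x - 1) ≤ r t m - r t (m - 1) := by
    have h3 : ¬ t ∣ t - 1 := by
      intro h
      have := Nat.le_of_dvd (by omega) h
      omega
    have := H_mono t (by omega) (t - 1) (by omega) h3 m
    rw [← hx] at this
    exact this
  have h4 := H_mono_even t ht (j + 1) (x - 1)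
  have h5 := H_nonneg t (by omega) (x - 2 * ((j + 1 : ℕ) : ℤ))
  have e4 : x - 1 - 2 * ((j + 1 : ℕ) : ℤ) = x - 2 * ((j + 1 : ℕ) : ℤ) - 1 := by ring
  have e5 : x - 2 * ((j + 1 : ℕ) : ℤ) - 1 - 1 = x - 2 * ((j + 1 : ℕ) : ℤ) - 2 := by ring
  have e6 : x - 1 - 1 = x - 2 := by ring
  rw [e4, e5, e6] at h4
  linarith

/-! ### the difference `a = r (t + 1) - r t` -/

open Classical in
/-- the partitions of `n` whose greatest multiplicity is `t` -/
noncomputable def A (t n : ℕ) : Finset n.Partition :=
  univ.filter (fun p => (∀ x ∈ p.parts, p.parts.count x ≤ t) ∧ ∃ x ∈ p.parts, p.parts.count x = t)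

theorem card_A (t n : ℕ) (ht : 1 ≤ t) : ((A t n).card : ℤ) = r (t + 1) n - r t n := by
  have h1 : (Reg (t + 1) n).card = (Nat.Partition.countRestricted n (t + 1)).card :=
    Nat.Partition.card_restricted_eq_card_countRestricted n (by omega)
  have h2 : (Reg t n).card = (Nat.Partition.countRestricted n t).card :=
    Nat.Partition.card_restricted_eq_card_countRestricted n (by omega)
  rw [r_nat, r_nat, h1, h2]
  have h3 : Nat.Partition.countRestricted n (t + 1) = Nat.Partition.countRestricted n t ∪ A t n := by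
    ext p
    simp only [Nat.Partition.countRestricted, A, Finset.mem_union, Finset.mem_filter,
      Finset.mem_univ, true_and]
    constructor
    · intro h
      by_cases h4 : ∃ x ∈ p.parts, p.parts.count x = t
      · exact Or.inr ⟨fun x hx => Nat.lt_succ_iff.1 (h x hx), h4⟩
      · left
        intro x hx
        push Not at h4
        have := h x hx
        have := h4 x hx
        omega
    · rintro (h | ⟨h, -⟩) x hx
      · have := h x hx; omega
      · have := h x hx; omega
  have h4 : Disjoint (Nat.Partition.countRestricted n t) (A t n) := by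
    rw [Finset.disjoint_left]
    intro p h5 h6
    simp only [Nat.Partition.countRestricted, A, Finset.mem_filter,
      Finset.mem_univ, true_and] at h5 h6
    obtain ⟨-, x, hx, hx2⟩ := h6
    have := h5 x hx
    omega
  rw [h3, Finset.card_union_of_disjoint h4]
  push_cast
  ring

/-- `a t m = r (t + 1) m - r t m` -/
def a (t : ℕ) (m : ℤ) : ℤ := r (t + 1) m - r t m

theorem a_neg {t : ℕ} {m : ℤ} (h : m < 0) : a t m = 0 := by
  unfold a
  rw [r_neg h, r_neg h, sub_zero]

theorem a_nonneg (t : ℕ) (ht : 1 ≤ t) (m : ℤ) : 0 ≤ a t m := by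
  rcases lt_or_ge m 0 with h | h
  · rw [a_neg h]
  · obtain ⟨n, rfl⟩ := Int.eq_ofNat_of_zero_le h
    unfold a
    rw [← card_A t n ht]
    positivity

theorem a_pos (t : ℕ) (ht : 1 ≤ t) (m : ℤ) (hm : (t : ℤ) + 2 ≤ m) : 1 ≤ a t m := by
  obtain ⟨n, rfl⟩ := Int.eq_ofNat_of_zero_le (by omega : 0 ≤ m)
  unfold a
  rw [← card_A t n ht]
  have hn : t + 2 ≤ n := by omega
  have : 0 < (A t n).card := by
    rw [Finset.card_pos]
    refine ⟨⟨(n - t) ::ₘ Multiset.replicate t 1, ?_, ?_⟩, ?_⟩
    · intro x hx
      rw [Multiset.mem_cons] at hx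
      rcases hx with hx | hx
      · omega
      · rw [Multiset.eq_of_mem_replicate hx]; norm_num
    · rw [Multiset.sum_cons, Multiset.sum_replicate]
      simp
      omega
    · simp only [A, Finset.mem_filter, Finset.mem_univ, true_and]
      have hcount : ∀ x, Multiset.count x ((n - t) ::ₘ Multiset.replicate t 1) =
          (if x = 1 then t else 0) + (if x = n - t then 1 else 0) := by
        intro x
        rw [Multiset.count_cons, Multiset.count_replicate]
        simp only [eq_comm]
      constructor
      · intro x _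
        rw [hcount]
        split_ifs <;> omega
      · refine ⟨1, ?_, ?_⟩
        · rw [Multiset.mem_cons, Multiset.mem_replicate]
          right; omega
        · rw [hcount, if_pos rfl, if_neg (by omega)]; rfl
  exact_mod_cast this

theorem mem_A {t n : ℕ} {p : n.Partition} : p ∈ A t n ↔
    (∀ x ∈ p.parts, p.parts.count x ≤ t) ∧ ∃ x ∈ p.parts, p.parts.count x = t := by
  simp [A]

/-- the largest part -/
theorem exists_max {n : ℕ} (p : n.Partition) (hn : 0 < n) :
    ∃ x ∈ p.parts, ∀ y ∈ p.parts, y ≤ x := by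
  have h1 : p.parts.toFinset.Nonempty := by
    rw [Multiset.toFinset_nonempty]
    intro h
    have := p.parts_sum
    rw [h] at this
    simp at this
    omega
  obtain ⟨x, hx, hx2⟩ := p.parts.toFinset.exists_max_image id h1
  exact ⟨x, Multiset.mem_toFinset.1 hx, fun y hy => hx2 y (Multiset.mem_toFinset.2 hy)⟩

open Classical in
/-- `2 a(n + 1) ≥ a(n)` unless `n = t` -/
theorem two_A (t n : ℕ) (ht : 1 ≤ t) : (A t n).card ≤ 2 * (A t (n + 1)).card + (if n = t then 1 else 0) := by
  rcases Nat.eq_zero_or_pos n with rfl | hn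
  · have : A t 0 = ∅ := by
      rw [Finset.eq_empty_iff_forall_notMem]
      intro p hp
      obtain ⟨-, x, hx, -⟩ := mem_A.1 hp
      rw [Nat.Partition.partition_zero_parts] at hx
      simp at hx
    rw [this]; simp
  choose M hM hM2 using fun p : n.Partition => exists_max p hn
  -- three classes
  set P1 := (A t n).filter (fun p => ∃ x ∈ p.parts, x ≠ M p ∧ p.parts.count x = t) with hP1
  set P2 := (A t n).filter (fun p => (¬ ∃ x ∈ p.parts, x ≠ M p ∧ p.parts.count x = t) ∧ 2 ≤ M p) with hP2
  set P3 := (A t n).filter (fun p => (¬ ∃ x ∈ p.parts, x ≠ M p ∧ p.parts.count x = t) ∧ M p < 2) with hP3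
  have hcover : (A t n).card ≤ P1.card + P2.card + P3.card := by
    have : A t n ⊆ (P1 ∪ P2) ∪ P3 := by
      intro p hp
      simp only [hP1, hP2, hP3, Finset.mem_union, Finset.mem_filter]
      by_cases h : ∃ x ∈ p.parts, x ≠ M p ∧ p.parts.count x = t
      · exact Or.inl (Or.inl ⟨hp, h⟩)
      · rcases Nat.lt_or_ge (M p) 2 with h2 | h2
        · exact Or.inr ⟨hp, h, h2⟩
        · exact Or.inl (Or.inr ⟨hp, h, h2⟩)
    refine (Finset.card_le_card this).trans ?_
    refine (Finset.card_union_le _ _).trans ?_
    have := Finset.card_union_le P1 P2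
    omega
  have c1 : P1.card ≤ (A t (n + 1)).card := by
    apply Finset.card_le_card_of_injOn (fun p : n.Partition =>
        (⟨(M p + 1) ::ₘ p.parts.erase (M p), by
          intro x hx
          rw [Multiset.mem_cons] at hx
          rcases hx with hx | hx
          · omega
          · exact p.parts_pos (Multiset.mem_of_mem_erase hx), by
          have h1 := congrArg Multiset.sum (Multiset.cons_erase (hM p))
          rw [Multiset.sum_cons, p.parts_sum] at h1
          rw [Multiset.sum_cons]; omega⟩ : (n + 1).Partition))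
    · intro p hp
      rw [Finset.mem_coe, hP1, Finset.mem_filter, mem_A] at hp
      obtain ⟨⟨hp1, -⟩, x, hx, hxM, hxt⟩ := hp
      rw [Finset.mem_coe, mem_A]
      have hnot : M p + 1 ∉ p.parts := fun h => by
        have := hM2 p _ h
        omega
      constructor
      · intro y _
        simp only
        rw [Multiset.count_cons]
        split_ifs with hy
        · rw [hy, Multiset.count_eq_zero_of_notMem (fun h => hnot (Multiset.mem_of_mem_erase h))]
          omega
        · have h1 := Multiset.count_le_of_le y (Multiset.erase_le (M p) p.parts)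
          by_cases hy2 : y ∈ p.parts
          · have := hp1 y hy2
            omega
          · rw [Multiset.count_eq_zero_of_notMem hy2] at h1
            omega
      · have hx1 : x ≠ M p + 1 := fun h => hnot (h ▸ hx)
        refine ⟨x, ?_, ?_⟩
        · simp only [Multiset.mem_cons]
          exact Or.inr ((Multiset.mem_erase_of_ne hxM).2 hx)
        · simp only
          rw [Multiset.count_cons, if_neg hx1, Multiset.count_erase_of_ne hxM, hxt, add_zero]
    · intro p _ q _ h
      have h1 := congrArg Nat.Partition.parts h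
      simp only at h1
      have hle : ∀ p q : n.Partition, (M p + 1) ::ₘ p.parts.erase (M p) =
          (M q + 1) ::ₘ q.parts.erase (M q) → M p ≤ M q := by
        intro p q h
        have h2 : M p + 1 ∈ (M q + 1) ::ₘ q.parts.erase (M q) := by
          rw [← h]; exact Multiset.mem_cons_self _ _
        rw [Multiset.mem_cons] at h2
        rcases h2 with h2 | h2
        · omega
        · have := hM2 q _ (Multiset.mem_of_mem_erase h2)
          omega
      have h3 : M p = M q := le_antisymm (hle p q h1) (hle q p h1.symm)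
      rw [h3] at h1
      have h4 := (Multiset.cons_inj_right _).1 h1
      apply Nat.Partition.ext
      rw [← Multiset.cons_erase (hM p), ← Multiset.cons_erase (hM q), h3, h4]
  have c2 : P2.card ≤ (A t (n + 1)).card := by
    apply Finset.card_le_card_of_injOn (fun p : n.Partition =>
        (⟨1 ::ₘ p.parts, by
          intro x hx
          rw [Multiset.mem_cons] at hx
          rcases hx with hx | hx
          · omega
          · exact p.parts_pos hx, by
          rw [Multiset.sum_cons, p.parts_sum]; omega⟩ : (n + 1).Partition))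
    · intro p hp
      rw [Finset.mem_coe, hP2, Finset.mem_filter, mem_A] at hp
      obtain ⟨⟨hp1, x, hx, hxt⟩, hp2, hp3⟩ := hp
      push Not at hp2
      have hxM : x = M p := by
        by_contra hne
        exact hp2 x hx hne hxt
      rw [Finset.mem_coe, mem_A]
      constructor
      · intro y _
        simp only
        rw [Multiset.count_cons]
        split_ifs with hy
        · rw [hy]
          by_cases h1 : 1 ∈ p.parts
          · have h2 := hp1 1 h1
            have h3 := hp2 1 h1 (by omega)
            omega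
          · rw [Multiset.count_eq_zero_of_notMem h1]; omega
        · by_cases hy2 : y ∈ p.parts
          · exact hp1 y hy2
          · rw [Multiset.count_eq_zero_of_notMem hy2]; omega
      · refine ⟨x, ?_, ?_⟩
        · simp only [Multiset.mem_cons]
          exact Or.inr hx
        · simp only
          rw [Multiset.count_cons, if_neg (by omega), hxt, add_zero]
    · intro p _ q _ h
      have h1 := congrArg Nat.Partition.parts h
      simp only at h1
      exact Nat.Partition.ext ((Multiset.cons_inj_right _).1 h1)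
  have c3 : P3.card ≤ if n = t then 1 else 0 := by
    have hall : ∀ p ∈ P3, p.parts = Multiset.replicate n 1 ∧ n = t := by
      intro p hp
      rw [hP3, Finset.mem_filter, mem_A] at hp
      obtain ⟨⟨hp1, x, hx, hxt⟩, hp2, hp3⟩ := hp
      have h1 : ∀ y ∈ p.parts, y = 1 := by
        intro y hy
        have := hM2 p y hy
        have := p.parts_pos hy
        omega
      have h2 : p.parts = Multiset.replicate (Multiset.card p.parts) 1 :=
        Multiset.eq_replicate_card.2 h1
      have h3 := p.parts_sum
      rw [h2, Multiset.sum_replicate] at h3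
      have h4 : Multiset.card p.parts = n := by simpa using h3
      rw [h4] at h2
      refine ⟨h2, ?_⟩
      rw [h2, h1 x hx, Multiset.count_replicate_self] at hxt
      exact hxt
    split_ifs with h
    · rw [Finset.card_le_one]
      intro p hp q hq
      exact Nat.Partition.ext ((hall p hp).1.trans (hall q hq).1.symm)
    · rw [Nat.le_zero, Finset.card_eq_zero, Finset.eq_empty_iff_forall_notMem]
      intro p hp
      exact h (hall p hp).2
  omega

theorem two_a (t : ℕ) (ht : 1 ≤ t) (m : ℤ) :
    a t (m - 1) ≤ 2 * a t m + (if m - 1 = t then 1 else 0) := by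
  rcases lt_or_ge (m - 1) 0 with h | h
  · rw [a_neg h]
    have := a_nonneg t ht m
    split_ifs <;> omega
  · obtain ⟨n, hn⟩ := Int.eq_ofNat_of_zero_le h
    have hm : m = ((n + 1 : ℕ) : ℤ) := by push_cast; omega
    rw [hn, hm]
    unfold a
    rw [← card_A t n ht, ← card_A t (n + 1) ht]
    have h2 := two_A t n ht
    have h3 : ((A t n).card : ℤ) ≤ ((2 * (A t (n + 1)).card + (if n = t then 1 else 0) : ℕ) : ℤ) := by
      exact_mod_cast h2
    refine h3.trans ?_
    push_cast
    simp only [Nat.cast_inj]
    exact le_rfl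

/-- a sum over an injective family is at most the whole sum -/
theorem sum_inj {ι : Type*} (S : Finset ι) (φ : ι → ℕ) (hφ : Set.InjOn φ S) (n : ℕ) (f : ℕ → ℤ)
    (hf : ∀ x, 0 ≤ f x) (hf2 : ∀ x, n < x → f x = 0) :
    ∑ i ∈ S, f (φ i) ≤ ∑ x ∈ range (n + 1), f x := by
  classical
  rw [← Finset.sum_image (f := f) (g := φ) (s := S) (fun x hx y hy h => hφ hx hy h)]
  have h1 : ∑ y ∈ S.image φ, f y = ∑ y ∈ (S.image φ).filter (fun y => y ≤ n), f y := by
    symm
    apply Finset.sum_filter_of_ne
    intro y _ hne
    by_contra hcon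
    exact hne (hf2 y (by omega))
  rw [h1]
  apply Finset.sum_le_sum_of_subset_of_nonneg
  · intro y hy
    rw [Finset.mem_filter] at hy
    rw [Finset.mem_range]
    omega
  · intro y _ _
    exact hf y

theorem Phi_add (t n : ℕ) (g g' : ℤ → ℤ) : Phi t n (fun m => g m - g' m) = Phi t n g - Phi t n g' := by
  unfold Phi dd
  rw [← Finset.sum_sub_distrib]
  apply Finset.sum_congr rfl
  intro j _
  ring

/-- an upper bound for the correction term of `a` -/
theorem Phi_a_le (t T n : ℕ) (ht : 1 ≤ t) : Phi T n (a t) ≤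
    ∑ j ∈ range (n + 1), (a t (n - ((2 * j + 1 : ℕ) : ℤ) * T) +
      2 * a t (n - ((2 * j + 2 : ℕ) : ℤ) * T)) := by
  unfold Phi dd
  apply Finset.sum_le_sum
  intro j _
  have h1 := a_nonneg t ht (n - ((2 * j + 2 : ℕ) : ℤ) * T + 1)
  have h2 := a_nonneg t ht (n - ((2 * j + 2 : ℕ) : ℤ) * T + 1 - 2)
  have e : (n : ℤ) - ((2 * j + 2 : ℕ) : ℤ) * T + 1 - 1 = n - ((2 * j + 2 : ℕ) : ℤ) * T := by ring
  rw [e]
  linarith

theorem main_a (t n : ℕ) (ht : 3 ≤ t) :
    Phi (t + 1) n (a t) ≤ 2 * ∑ j ∈ range (n + 1), a t (n - (2 * j + 2)) := by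
  refine (Phi_a_le t (t + 1) n (by omega)).trans ?_
  have hpos : ∀ m, 0 ≤ a t m := a_nonneg t (by omega)
  have hneg : ∀ m, m < 0 → a t m = 0 := fun m h => a_neg h
  obtain ⟨f, hf⟩ : ∃ f : ℕ → ℤ, f = fun x : ℕ => a t ((n : ℤ) - (2 * (x : ℤ) + 2)) := ⟨_, rfl⟩
  have hf0 : ∀ x, 0 ≤ f x := fun x => by rw [hf]; exact hpos _
  have hf1 : ∀ x, n < x → f x = 0 := fun x hx => by rw [hf]; exact hneg _ (by omega)
  have hfs : ∑ j ∈ range (n + 1), a t (n - (2 * j + 2)) = ∑ x ∈ range (n + 1), f x := by rw [hf]
  rw [hfs]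
  rcases Nat.even_or_odd (t + 1) with ⟨s, hs⟩ | ⟨c, hc⟩
  · -- `T = 2 s`
    have hs1 : 1 ≤ s := by omega
    have i1 : ∑ j ∈ range (n + 1), f ((2 * j + 1) * s - 1) ≤ ∑ x ∈ range (n + 1), f x := by
      apply sum_inj _ (fun j => (2 * j + 1) * s - 1) _ n f hf0 hf1
      intro j _ j' _ h
      simp only at h
      have h1 : 1 ≤ (2 * j + 1) * s := Nat.mul_pos (by omega) hs1
      have h2 : 1 ≤ (2 * j' + 1) * s := Nat.mul_pos (by omega) hs1
      have h3 : (2 * j + 1) * s = (2 * j' + 1) * s := by omega
      have := Nat.eq_of_mul_eq_mul_right hs1 h3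
      omega
    have i2 : ∑ j ∈ range (n + 1), f ((2 * j + 2) * s - 1) ≤ ∑ x ∈ range (n + 1), f x := by
      apply sum_inj _ (fun j => (2 * j + 2) * s - 1) _ n f hf0 hf1
      intro j _ j' _ h
      simp only at h
      have h1 : 1 ≤ (2 * j + 2) * s := Nat.mul_pos (by omega) hs1
      have h2 : 1 ≤ (2 * j' + 2) * s := Nat.mul_pos (by omega) hs1
      have h3 : (2 * j + 2) * s = (2 * j' + 2) * s := by omega
      have := Nat.eq_of_mul_eq_mul_right hs1 h3
      omega
    -- both families together
    have i3 : ∑ j ∈ range (n + 1), f ((2 * j + 1) * s - 1) + ∑ j ∈ range (n + 1), f ((2 * j + 2) * s - 1)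
        ≤ ∑ x ∈ range (n + 1), f x := by
      have := sum_inj (range (2 * (n + 1))) (fun j => (j + 1) * s - 1) (by
        intro j _ j' _ h
        simp only at h
        have h1 : 1 ≤ (j + 1) * s := Nat.mul_pos (by omega) hs1
        have h2 : 1 ≤ (j' + 1) * s := Nat.mul_pos (by omega) hs1
        have h3 : (j + 1) * s = (j' + 1) * s := by omega
        have := Nat.eq_of_mul_eq_mul_right hs1 h3
        omega) n f hf0 hf1
      refine le_trans (le_of_eq ?_) this
      have h1 : ∀ M : ℕ, ∑ j ∈ range (2 * M), f ((j + 1) * s - 1) =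
          ∑ j ∈ range M, f ((2 * j + 1) * s - 1) + ∑ j ∈ range M, f ((2 * j + 2) * s - 1) := by
        intro M
        induction M with
        | zero => simp
        | succ M ih =>
          rw [show 2 * (M + 1) = 2 * M + 1 + 1 by ring, Finset.sum_range_succ,
            Finset.sum_range_succ, Finset.sum_range_succ, Finset.sum_range_succ, ih]
          ring
      rw [h1]
    have e1 : ∀ j : ℕ, a t (n - ((2 * j + 1 : ℕ) : ℤ) * ((t + 1 : ℕ) : ℤ)) = f ((2 * j + 1) * s - 1) := by
      intro j
      rw [hf, hs]
      simp only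
      congr 1
      have h1 : 1 ≤ (2 * j + 1) * s := Nat.mul_pos (by omega) hs1
      push_cast [Nat.cast_sub h1]
      ring
    have e2 : ∀ j : ℕ, a t (n - ((2 * j + 2 : ℕ) : ℤ) * ((t + 1 : ℕ) : ℤ)) = f ((2 * j + 2) * s - 1) := by
      intro j
      rw [hf, hs]
      simp only
      congr 1
      have h1 : 1 ≤ (2 * j + 2) * s := Nat.mul_pos (by omega) hs1
      push_cast [Nat.cast_sub h1]
      ring
    rw [Finset.sum_add_distrib, ← Finset.mul_sum]
    simp only [e1, e2]
    linarith
  · -- `T = 2 c + 1`, `c ≥ 2`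
    have hc2 : 2 ≤ c := by omega
    obtain ⟨T, hT⟩ : ∃ T, T = t + 1 := ⟨_, rfl⟩
    have hTc : T = 2 * c + 1 := by omega
    have hT1 : 1 ≤ T := by omega
    -- three disjoint families
    have i1 : (∑ j ∈ range (n + 1), f ((j + 1) * T - 1) + ∑ j ∈ range (n + 1), f (j * T + c - 1))
        + f 0 ≤ ∑ x ∈ range (n + 1), f x := by
      have key := sum_inj (((range (n + 1)).disjSum (range (n + 1))).disjSum ({0} : Finset ℕ))
        (fun i => Sum.elim (Sum.elim (fun j => (j + 1) * T - 1) (fun j => j * T + c - 1))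
          (fun _ => 0) i) (by
          have hdvd : ∀ j j' : ℕ, (j + 1) * T ≠ j' * T + c := by
            intro j j' h
            have h1 : T ∣ j' * T + c := by rw [← h]; exact Dvd.intro_left _ rfl
            have h2 : T ∣ c := (Nat.dvd_add_right (Dvd.intro_left _ rfl)).1 h1
            have := Nat.le_of_dvd (by omega) h2
            omega
          have hge : ∀ j : ℕ, T ≤ (j + 1) * T := fun j => Nat.le_mul_of_pos_left _ (by omega)
          intro x _ y _ h
          rcases x with (x | x) | x <;> rcases y with (y | y) | y <;>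
            simp only [Sum.elim_inl, Sum.elim_inr] at h
          · have h1 := hge x
            have h2 := hge y
            have h3 : (x + 1) * T = (y + 1) * T := by omega
            have := Nat.eq_of_mul_eq_mul_right hT1 h3
            have h5 : x = y := by omega
            rw [h5]
          · have h1 := hge x
            exact absurd (by omega) (hdvd x y)
          · have h1 := hge x
            omega
          · have h1 := hge y
            exact absurd (by omega) (hdvd y x)
          · have h3 : x * T = y * T := by omega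
            have h5 := Nat.eq_of_mul_eq_mul_right hT1 h3
            rw [h5]
          · omega
          · have h1 := hge y
            omega
          · omega
          · rename_i hx hy
            rw [Finset.mem_coe, Finset.inr_mem_disjSum, Finset.mem_singleton] at hx hy
            rw [hx, hy]) n f hf0 hf1
      rw [Finset.sum_disjSum, Finset.sum_disjSum] at key
      simpa using key
    have e1 : ∀ j : ℕ, a t (n - ((2 * j + 2 : ℕ) : ℤ) * ((t + 1 : ℕ) : ℤ)) = f ((j + 1) * T - 1) := by
      intro j
      rw [hf, ← hT]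
      simp only
      congr 1
      have h1 : 1 ≤ (j + 1) * T := Nat.mul_pos (by omega) hT1
      push_cast [Nat.cast_sub h1]
      ring
    have e2 : ∀ j : ℕ, a t (n - ((2 * j + 1 : ℕ) : ℤ) * ((t + 1 : ℕ) : ℤ)) ≤
        2 * f (j * T + c - 1) + (if n + 1 = (2 * j + 2) * T then 1 else 0) := by
      intro j
      have h := two_a t (by omega) (n - ((2 * j + 1 : ℕ) : ℤ) * ((t + 1 : ℕ) : ℤ) + 1)
      have e3 : (n : ℤ) - ((2 * j + 1 : ℕ) : ℤ) * ((t + 1 : ℕ) : ℤ) + 1 - 1 =
        n - ((2 * j + 1 : ℕ) : ℤ) * ((t + 1 : ℕ) : ℤ) := by ring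
      have e4 : f (j * T + c - 1) = a t (n - ((2 * j + 1 : ℕ) : ℤ) * ((t + 1 : ℕ) : ℤ) + 1) := by
        rw [hf, ← hT]
        simp only
        congr 1
        have h1 : 1 ≤ j * T + c := by omega
        push_cast [Nat.cast_sub h1]
        rw [hTc]
        push_cast
        ring
      rw [e3] at h
      rw [e4]
      refine h.trans ?_
      have h5 : ((n : ℤ) - ((2 * j + 1 : ℕ) : ℤ) * ((t + 1 : ℕ) : ℤ) = t) ↔
          n + 1 = (2 * j + 2) * T := by
        rw [hT]
        constructor
        · intro h6
          have h7 : (n : ℤ) + 1 = (((2 * j + 2) * (t + 1) : ℕ) : ℤ) := by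
            push_cast at h6 ⊢
            linarith
          exact_mod_cast h7
        · intro h6
          have h7 : (n : ℤ) + 1 = (((2 * j + 2) * (t + 1) : ℕ) : ℤ) := by exact_mod_cast h6
          push_cast at h7 ⊢
          linarith
      simp only [h5]
      exact le_rfl
    have e5 : ∑ j ∈ range (n + 1), (if n + 1 = (2 * j + 2) * T then (1 : ℤ) else 0) ≤ 2 * f 0 := by
      by_cases hex : ∃ j, n + 1 = (2 * j + 2) * T
      · obtain ⟨j, hj⟩ := hex
        have h1 : ∑ j ∈ range (n + 1), (if n + 1 = (2 * j + 2) * T then (1 : ℤ) else 0) ≤ 1 := by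
          have h2 : ∀ i ∈ range (n + 1), (if n + 1 = (2 * i + 2) * T then (1 : ℤ) else 0) =
              if i = j then 1 else 0 := by
            intro i _
            by_cases hij : i = j
            · rw [hij, if_pos hj, if_pos rfl]
            · rw [if_neg hij, if_neg]
              intro h3
              rw [hj] at h3
              have := Nat.eq_of_mul_eq_mul_right hT1 h3
              omega
          rw [Finset.sum_congr rfl h2, Finset.sum_ite_eq']
          split_ifs <;> norm_num
        have h2 : 1 ≤ f 0 := by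
          rw [hf]
          apply a_pos t (by omega)
          have h3 : 2 * T ≤ n + 1 := by
            rw [hj]
            exact Nat.mul_le_mul_right T (by omega)
          push_cast
          omega
        linarith
      · push Not at hex
        have h2 : ∀ i ∈ range (n + 1), (if n + 1 = (2 * i + 2) * T then (1 : ℤ) else 0) = 0 :=
          fun i _ => if_neg (hex i)
        rw [Finset.sum_congr rfl h2]
        have := hf0 0
        simp
        linarith
    rw [Finset.sum_add_distrib, ← Finset.mul_sum]
    simp only [e1]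
    have e6 : ∑ j ∈ range (n + 1), a t (n - ((2 * j + 1 : ℕ) : ℤ) * ((t + 1 : ℕ) : ℤ)) ≤
        2 * ∑ j ∈ range (n + 1), f (j * T + c - 1) +
          ∑ j ∈ range (n + 1), (if n + 1 = (2 * j + 2) * T then (1 : ℤ) else 0) := by
      rw [Finset.mul_sum, ← Finset.sum_add_distrib]
      exact Finset.sum_le_sum (fun j _ => e2 j)
    linarith

/-- **Main inequality.** -/
theorem b_mono (t n : ℕ) (ht : 3 ≤ t) : b t n ≤ b (t + 1) n := by
  have h1 := b_eq2 t n (by omega)
  have h2 := b_eq2 (t + 1) n (by omega)
  have h3 := Phi_diff t n ht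
  have h4 := main_a t n ht
  have h5 : Phi (t + 1) n (a t) = Phi (t + 1) n (r (t + 1)) - Phi (t + 1) n (r t) :=
    Phi_add (t + 1) n (r (t + 1)) (r t)
  have h6 : ∑ j ∈ range (n + 1), a t (n - (2 * j + 2)) =
      ∑ j ∈ range (n + 1), r (t + 1) (n - (2 * j + 2)) - ∑ j ∈ range (n + 1), r t (n - (2 * j + 2)) := by
    rw [← Finset.sum_sub_distrib]
    rfl
  have : (b t n : ℤ) ≤ b (t + 1) n := by linarith
  exact_mod_cast this

end Pool.Agent.W2helper85.HookT
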