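import Pool.Agent.W2helper85.Lonc11

set_option autoImplicit false

namespace Pool.Agent.W2helper85.Lonc

open Nat in
theorem large1 (r K : ℕ) (hr : 2 ≤ r) : ∃ f0, ∀ f, f0 ≤ f → (f + 1) * K ≤ (f / 2).choose r := by
  refine ⟨2 * (2 * r + 4 * r ! * K + 1), fun f hf => ?_⟩
  obtain ⟨n, hn⟩ : ∃ n, n = f / 2 := ⟨_, rfl⟩
  rw [← hn]
  have h1 : 2 * r + 4 * r ! * K + 1 ≤ n := by omega
  have h2 : f ≤ 2 * n + 1 := by omega
  obtain ⟨m, hm⟩ : ∃ m, m = n + 1 - r := ⟨_, rfl⟩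
  have h3 : f + 1 ≤ 4 * m := by omega
  have h4 : 4 * r ! * K ≤ m := by omega
  have h5 : 1 ≤ m := by omega
  have h6 : m ^ r ≤ r ! * n.choose r := by
    rw [← Nat.descFactorial_eq_factorial_mul_choose, hm]
    exact n.pow_sub_le_descFactorial r
  have h7 : m ^ 2 ≤ m ^ r := Nat.pow_le_pow_right h5 hr
  have h8 : r ! * ((f + 1) * K) ≤ r ! * n.choose r := by
    calc r ! * ((f + 1) * K) = (f + 1) * (r ! * K) := by ring
      _ ≤ (4 * m) * (r ! * K) := Nat.mul_le_mul_right _ h3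
      _ = m * (4 * r ! * K) := by ring
      _ ≤ m * m := Nat.mul_le_mul_left _ h4
      _ = m ^ 2 := by ring
      _ ≤ _ := h7.trans h6
  exact Nat.le_of_mul_le_mul_left h8 (Nat.factorial_pos r)

theorem large2 (s C : ℕ) (hs : 2 ≤ s) : ∃ f0, ∀ f, f0 ≤ f → ∀ j ∈ Finset.range 4,
    (f + 1) * C ^ (s + j + 2) ≤ (f / 2).choose (s + j) := by
  have h : ∀ j, ∃ f0, ∀ f, f0 ≤ f → (f + 1) * C ^ (s + j + 2) ≤ (f / 2).choose (s + j) :=
    fun j => large1 (s + j) _ (by omega)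
  choose F hF using h
  refine ⟨(Finset.range 4).sup F, fun f hf j hj => hF j f ((Finset.le_sup hj).trans hf)⟩

theorem E_add (p a b : ℕ) (h : 2 ^ (a + 1) ≡ 2 [MOD p]) :
    (2 ^ (a + b + 1) ≡ 2 [MOD p]) ↔ (2 ^ (b + 1) ≡ 2 [MOD p]) := by
  have h1 : 2 ^ (a + b + 1) ≡ 2 ^ (b + 1) [MOD p] := by
    have e1 : 2 ^ (a + b + 1) = 2 ^ (a + 1) * 2 ^ b := by ring
    have e2 : 2 ^ (b + 1) = 2 * 2 ^ b := by ring
    rw [e1, e2]
    exact h.mul_right _
  constructor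
  · intro h2; exact h1.symm.trans h2
  · intro h2; exact h1.trans h2

theorem E_mul (p a b : ℕ) (h : 2 ^ (a + 1) ≡ 2 [MOD p]) : 2 ^ (a * b + 1) ≡ 2 [MOD p] := by
  induction b with
  | zero => simp; exact Nat.ModEq.refl _
  | succ b ih =>
    rw [Nat.mul_succ, Nat.add_comm (a * b) a, E_add p a _ h]
    exact ih

theorem E_dvd (p t : ℕ) : p ∣ 2 ^ (t + 1) - 2 ↔ 2 ^ (t + 1) ≡ 2 [MOD p] := by
  have h : 2 ≤ 2 ^ (t + 1) := by
    rw [pow_succ]; have := Nat.one_le_two_pow (n := t); omega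
  rw [← Nat.modEq_iff_dvd' h]
  exact Nat.ModEq.comm

theorem card_VV (P : Type) [Fintype P] (r : ℕ) :
    Fintype.card (VV P r) = Fintype.card (VV P 0) + r := by
  simp only [VV, Fintype.card_sum, Fintype.card_fin]
  ring

theorem CT_main (P : Type) [PartialOrder P] [Fintype P] [Nonempty P] :
    ∃ N : ℕ, ∀ n : ℕ, N ≤ n → Fintype.card P ∣ 2 ^ n - 2 → CT P (Fin n) := by
  classical
  by_cases hd : ∃ t, 1 ≤ t ∧ 2 ^ (t + 1) ≡ 2 [MOD Fintype.card P]
  swap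
  · refine ⟨2, fun n hn hp => ?_⟩
    exfalso
    apply hd
    refine ⟨n - 1, by omega, ?_⟩
    rw [← E_dvd]
    rw [show n - 1 + 1 = n by omega]
    exact hp
  obtain ⟨d, ⟨hd1, hd2⟩, hdmin⟩ : ∃ d, (1 ≤ d ∧ 2 ^ (d + 1) ≡ 2 [MOD Fintype.card P]) ∧
      ∀ t, t < d → ¬ (1 ≤ t ∧ 2 ^ (t + 1) ≡ 2 [MOD Fintype.card P]) :=
    ⟨Nat.find hd, Nat.find_spec hd, fun t ht => Nat.find_min hd ht⟩
  have hdvd : ∀ t, 2 ^ (t + 1) ≡ 2 [MOD Fintype.card P] → d ∣ t := by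
    intro t ht
    have h1 := Nat.div_add_mod t d
    have h2 : t % d < d := Nat.mod_lt _ (by omega)
    rw [← h1, E_add _ _ _ (E_mul _ d (t / d) hd2)] at ht
    have h3 := hdmin _ h2
    have h4 : t % d = 0 := by
      by_contra h4
      exact h3 ⟨by omega, ht⟩
    exact Nat.dvd_of_mod_eq_zero h4
  obtain ⟨κ, hκ⟩ : ∃ κ, κ = Fintype.card (VV P 0) + 1 := ⟨_, rfl⟩
  obtain ⟨r1, hr1⟩ : ∃ r, Fintype.card (VV P r) = d * κ := by
    refine ⟨d * κ - Fintype.card (VV P 0), ?_⟩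
    rw [card_VV]
    have : 1 * κ ≤ d * κ := Nat.mul_le_mul_right _ hd1
    omega
  obtain ⟨r2, hr2⟩ : ∃ r, Fintype.card (VV P r) = d * (κ + 1) := by
    refine ⟨d * (κ + 1) - Fintype.card (VV P 0), ?_⟩
    rw [card_VV]
    have : 1 * (κ + 1) ≤ d * (κ + 1) := Nat.mul_le_mul_right _ hd1
    omega
  obtain ⟨s, hs⟩ : ∃ s, s = 2 * Fintype.card P + 1 := ⟨_, rfl⟩
  have hP : 0 < Fintype.card P := Fintype.card_pos
  have hbl : ∀ r b, Fintype.card (VV P r) = d * b → ∃ F0, ∀ F, F0 ≤ F →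
      CT P (Unit ⊕ (Fin F × VV P r)) := by
    intro r b hr
    obtain ⟨f0, hf0⟩ := large2 s (2 ^ Fintype.card (VV P r)) (by omega)
    refine ⟨f0 + 1, fun F hF => ?_⟩
    obtain ⟨f, rfl⟩ : ∃ f, F = f + 1 := ⟨F - 1, by omega⟩
    refine CT_block r f s (f / 2) ?_ hs.ge (by omega) (hf0 f (by omega))
    rw [hr, E_dvd]
    exact E_mul _ d b hd2
  obtain ⟨F1, hF1⟩ := hbl r1 _ hr1
  obtain ⟨F2, hF2⟩ := hbl r2 _ hr2
  obtain ⟨F0, hF01, hF02⟩ : ∃ F0, F1 ≤ F0 ∧ F2 ≤ F0 := ⟨max F1 F2, le_max_left _ _, le_max_right _ _⟩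
  refine ⟨d * (κ * (2 * F0 + κ) + F0) + 2, fun n hn hp => ?_⟩
  obtain ⟨t, rfl⟩ : ∃ t, n = t + 1 := ⟨n - 1, by omega⟩
  rw [E_dvd] at hp
  obtain ⟨N', rfl⟩ := hdvd t hp
  have hN' : κ * (2 * F0 + κ) + F0 ≤ N' := by
    have : d * (κ * (2 * F0 + κ) + F0) ≤ d * N' := by omega
    exact Nat.le_of_mul_le_mul_left this hd1
  obtain ⟨w, hw⟩ : ∃ w, N' = w + F0 := ⟨N' - F0, by omega⟩
  have hw' : κ * (2 * F0 + κ) ≤ w := by omega
  have hκ0 : 0 < κ := by omega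
  have h5 : 2 * F0 + κ ≤ w / κ := by
    rw [Nat.le_div_iff_mul_le hκ0, mul_comm]; exact hw'
  have h6 : w % κ < κ := Nat.mod_lt _ hκ0
  have h7 := Nat.div_add_mod w κ
  obtain ⟨y, hy⟩ : ∃ y, y = F0 + w % κ := ⟨_, rfl⟩
  obtain ⟨x, hx⟩ : ∃ x, w / κ = x + y := ⟨w / κ - y, by omega⟩
  have key := CT.add (hF1 x (by omega)) (hF2 y (by omega))
  refine key.congr (Fintype.equivFinOfCardEq ?_)
  simp only [Fintype.card_sum, Fintype.card_unit, Fintype.card_prod, Fintype.card_fin]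
  simp only [VV, Fintype.card_sum, Fintype.card_fin] at hr1 hr2
  rw [hr1, hr2]
  have h8 : N' = κ * (x + y) + y := by
    rw [hw, ← hx]; omega
  rw [h8]
  ring

theorem finset_form (P : Type) [PartialOrder P] [Fintype P] [Nonempty P] (n : ℕ)
    (h : CT P (Fin n)) :
    ∃ (k : ℕ) (e : Fin k → P → Finset (Fin n)),
      (∀ (i : Fin k) (a b : P), e i a ≤ e i b ↔ a ≤ b) ∧
      (∀ (i : Fin k) (a : P), e i a ≠ ∅ ∧ e i a ≠ Finset.univ) ∧
      (∀ s : Finset (Fin n), s ≠ ∅ → s ≠ Finset.univ →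
        ∃! p : Fin k × P, e p.1 p.2 = s) := by
  classical
  obtain ⟨κ, t, h1, h2, h3⟩ := h
  have hfin : Finite κ := by
    refine Finite.of_injective (fun i => t i (Classical.arbitrary P)) ?_
    intro i j hij
    obtain ⟨q, -, hu⟩ := h3 _ (h2 i (Classical.arbitrary P))
    have e1 := hu (i, Classical.arbitrary P) rfl
    have e2 := hu (j, Classical.arbitrary P) hij.symm
    have := e1.trans e2.symm
    exact congrArg Prod.fst this
  obtain ⟨k, ⟨φ⟩⟩ := hfin.exists_equiv_fin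
  set S : (Fin n → Bool) → Finset (Fin n) := fun x => Finset.univ.filter fun i => x i = true with hS
  have hSle : ∀ x y, S x ≤ S y ↔ rV x y := by
    intro x y
    constructor
    · intro h v hv
      have : v ∈ S x := by simpa [hS] using hv
      have := h this
      simpa [hS] using this
    · intro h v hv
      have : x v = true := by simpa [hS] using hv
      have := h v this
      simpa [hS] using this
  have hSinj : Function.Injective S := by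
    intro x y h
    exact rV_anti x y ((hSle x y).1 h.le) ((hSle y x).1 h.ge)
  have hS0 : S (fun _ => false) = ∅ := by simp [hS]
  have hS1 : S (fun _ => true) = Finset.univ := by simp [hS]
  refine ⟨k, fun i a => S (t (φ.symm i) a), ?_, ?_, ?_⟩
  · intro i a b
    rw [hSle]; exact h1 _ a b
  · intro i a
    obtain ⟨e1, e2⟩ := h2 (φ.symm i) a
    refine ⟨fun h => e1 (hSinj (h.trans hS0.symm)), fun h => e2 (hSinj (h.trans hS1.symm))⟩
  · intro s hs0 hs1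
    have hsx : S (fun i => decide (i ∈ s)) = s := by
      ext i; simp [hS]
    obtain ⟨⟨i, a⟩, hq, hu⟩ := h3 (fun i => decide (i ∈ s))
      ⟨fun h => hs0 (by rw [← hsx, h, hS0]), fun h => hs1 (by rw [← hsx, h, hS1])⟩
    refine ⟨(φ i, a), ?_, ?_⟩
    · simp only [Equiv.symm_apply_apply]
      dsimp only at hq
      rw [hq, hsx]
    · rintro ⟨j, b⟩ hjb
      dsimp only at hjb
      rw [← hsx] at hjb
      have := hu (φ.symm j, b) (hSinj hjb)
      obtain ⟨e1, e2⟩ := Prod.mk.inj this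
      rw [← e1, ← e2, Equiv.apply_symm_apply]

theorem main (P : Type) [Fintype P] [PartialOrder P] :
      ∃ N : ℕ, ∀ n : ℕ, N ≤ n → Fintype.card P ∣ 2 ^ n - 2 →
        ∃ (k : ℕ) (e : Fin k → P → Finset (Fin n)),
          (∀ (i : Fin k) (a b : P), e i a ≤ e i b ↔ a ≤ b) ∧
          (∀ (i : Fin k) (a : P), e i a ≠ ∅ ∧ e i a ≠ Finset.univ) ∧
          (∀ s : Finset (Fin n), s ≠ ∅ → s ≠ Finset.univ →
            ∃! p : Fin k × P, e p.1 p.2 = s) := by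
  rcases isEmpty_or_nonempty P with hP | hP
  · refine ⟨2, fun n hn hp => ?_⟩
    exfalso
    rw [Fintype.card_eq_zero, zero_dvd_iff] at hp
    have : 2 ^ 2 ≤ 2 ^ n := Nat.pow_le_pow_right (by norm_num) hn
    omega
  · obtain ⟨N, hN⟩ := CT_main P
    exact ⟨N, fun n hn hp => finset_form P n (hN n hn hp)⟩

end Pool.Agent.W2helper85.Lonc
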