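import Mathlib
import Pool.Agent.R153.Hook2

set_option autoImplicit false

/-! Cells of hook length two in `t`-regular partitions: `b (t + 1) n ≥ b t n` for `t ≥ 3`. -/

namespace Pool.Agent.W2helper85.HookT

open Finset Pool.Agent.R153.Hook2

/-- The partitions of `n` none of whose parts is divisible by `t`. -/
def Reg (t n : ℕ) : Finset n.Partition := Nat.Partition.restricted n (¬ t ∣ ·)

/-- The number of cells of hook length two in all `t`-regular partitions of `n`. -/
noncomputable def b (t n : ℕ) : ℕ := ∑ p ∈ Reg t n, hooks2 p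

theorem mem_Reg {t n : ℕ} {p : n.Partition} : p ∈ Reg t n ↔ ∀ x ∈ p.parts, ¬ t ∣ x := by
  unfold Reg Nat.Partition.restricted
  rw [Finset.mem_filter]
  simp

/-- number of `t`-regular partitions of the integer `m` -/
def r (t : ℕ) (m : ℤ) : ℤ := if m < 0 then 0 else ((Reg t m.toNat).card : ℤ)

theorem r_neg {t : ℕ} {m : ℤ} (h : m < 0) : r t m = 0 := if_pos h

theorem r_nat (t n : ℕ) : r t (n : ℤ) = (Reg t n).card := by
  unfold r
  rw [if_neg (by omega)]
  simp

theorem r_nonneg (t : ℕ) (m : ℤ) : 0 ≤ r t m := by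
  unfold r
  split_ifs
  · exact le_rfl
  · positivity

/-- the `t`-regular partitions which contain a given multiset of parts -/
theorem contain (t n : ℕ) (s : Multiset ℕ) (hs : ∀ x ∈ s, 0 < x ∧ ¬ t ∣ x) :
    (((Reg t n).filter (fun p => s ≤ p.parts)).card : ℤ) = r t ((n : ℤ) - s.sum) := by
  rcases Nat.lt_or_ge n s.sum with h | h
  · rw [r_neg (by omega)]
    have : (Reg t n).filter (fun p => s ≤ p.parts) = ∅ := by
      apply Finset.filter_false_of_mem
      intro p _ hp
      obtain ⟨u, hu⟩ := Multiset.le_iff_exists_add.1 hp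
      have h1 := p.parts_sum
      rw [hu, Multiset.sum_add] at h1
      omega
    rw [this]; rfl
  · have e : ((n : ℤ) - s.sum) = ((n - s.sum : ℕ) : ℤ) := by omega
    rw [e, r_nat]
    norm_cast
    symm
    refine Finset.card_bij (fun (q : (n - s.sum).Partition) _ =>
        (⟨q.parts + s, by
          intro x hx
          rw [Multiset.mem_add] at hx
          rcases hx with hx | hx
          · exact q.parts_pos hx
          · exact (hs x hx).1, by
          rw [Multiset.sum_add, q.parts_sum]; omega⟩ : n.Partition)) ?_ ?_ ?_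
    · intro q hq
      rw [mem_Reg] at hq
      rw [Finset.mem_filter, mem_Reg]
      constructor
      · intro x hx
        rw [Multiset.mem_add] at hx
        rcases hx with hx | hx
        · exact hq x hx
        · exact (hs x hx).2
      · exact Multiset.le_add_left _ _
    · intro q _ q' _ h
      have h1 := congrArg Nat.Partition.parts h
      simp only at h1
      exact Nat.Partition.ext (Multiset.add_left_inj.1 h1)
    · intro p hp
      rw [Finset.mem_filter, mem_Reg] at hp
      obtain ⟨hp1, hp2⟩ := hp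
      have h1 : p.parts - s + s = p.parts := tsub_add_cancel_of_le hp2
      refine ⟨⟨p.parts - s, ?_, ?_⟩, ?_, ?_⟩
      · intro x hx
        exact p.parts_pos (Multiset.mem_of_le (Multiset.sub_le_self _ _) hx)
      · have h2 := congrArg Multiset.sum h1
        rw [Multiset.sum_add, p.parts_sum] at h2
        omega
      · rw [mem_Reg]
        intro x hx
        exact hp1 x (Multiset.mem_of_le (Multiset.sub_le_self _ _) hx)
      · exact Nat.Partition.ext h1

/-- partitions containing a part divisible by `t` are not `t`-regular -/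
theorem contain_dvd (t n : ℕ) (s : Multiset ℕ) (x : ℕ) (hx : x ∈ s) (hd : t ∣ x) :
    ((Reg t n).filter (fun p => s ≤ p.parts)).card = 0 := by
  rw [Finset.card_eq_zero]
  apply Finset.filter_false_of_mem
  intro p hp hsp
  exact mem_Reg.1 hp x (Multiset.mem_of_le hsp hx) hd

theorem hooks2_int {n : ℕ} (p : n.Partition) : (hooks2 p : ℤ) =
    ∑ y ∈ range (n + 1), ((if 1 ≤ y ∧ ({y + 1} : Multiset ℕ) ≤ p.parts then (1 : ℤ) else 0)
      - (if 1 ≤ y ∧ ({y + 1, y} : Multiset ℕ) ≤ p.parts then (1 : ℤ) else 0)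
      + (if ({y + 1, y + 1} : Multiset ℕ) ≤ p.parts then (1 : ℤ) else 0)) := by
  have hle : ∀ x ∈ p.parts, x ≤ n := fun x hx => p.le_of_mem_parts hx
  have hpos : ∀ x ∈ p.parts, 0 < x := fun x hx => p.parts_pos hx
  have key1 : ((p.parts.toFinset.filter (fun x => 2 ≤ x ∧ x - 1 ∉ p.parts)).card : ℤ) =
      ∑ y ∈ range (n + 1), ((if 1 ≤ y ∧ ({y + 1} : Multiset ℕ) ≤ p.parts then (1 : ℤ) else 0)
      - (if 1 ≤ y ∧ ({y + 1, y} : Multiset ℕ) ≤ p.parts then (1 : ℤ) else 0)) := by
    have h1 : (p.parts.toFinset.filter (fun x => 2 ≤ x ∧ x - 1 ∉ p.parts)) =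
        ((range (n + 1)).filter (fun y => 1 ≤ y ∧ y + 1 ∈ p.parts ∧ y ∉ p.parts)).image
          (fun y => y + 1) := by
      ext x
      simp only [Finset.mem_filter, Multiset.mem_toFinset, Finset.mem_image, Finset.mem_range]
      constructor
      · rintro ⟨h1, h2, h3⟩
        have := hle x h1
        refine ⟨x - 1, ⟨by omega, by omega, ?_, h3⟩, by omega⟩
        rw [show x - 1 + 1 = x by omega]; exact h1
      · rintro ⟨y, ⟨_, h2, h3, h4⟩, rfl⟩
        refine ⟨h3, by omega, ?_⟩
        rw [Nat.add_sub_cancel]; exact h4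
    rw [h1, Finset.card_image_of_injective _ (fun a b h => by simpa using h), Finset.card_filter]
    push_cast
    apply Finset.sum_congr rfl
    intro y _
    have e1 : ({y + 1} : Multiset ℕ) ≤ p.parts ↔ y + 1 ∈ p.parts := Multiset.singleton_le
    have e2 : ({y + 1, y} : Multiset ℕ) ≤ p.parts ↔ y + 1 ∈ p.parts ∧ y ∈ p.parts := by
      rw [Multiset.le_iff_subset (by simp)]
      simp [Multiset.insert_eq_cons, Multiset.cons_subset]
    simp only [e1, e2]
    by_cases h1 : 1 ≤ y <;> by_cases h2 : y + 1 ∈ p.parts <;> by_cases h3 : y ∈ p.parts <;>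
      simp [h1, h2, h3]
  have key2 : ((p.parts.toFinset.filter (fun x => 2 ≤ p.parts.count x)).card : ℤ) =
      ∑ y ∈ range (n + 1), (if ({y + 1, y + 1} : Multiset ℕ) ≤ p.parts then (1 : ℤ) else 0) := by
    have h1 : (p.parts.toFinset.filter (fun x => 2 ≤ p.parts.count x)) =
        ((range (n + 1)).filter (fun y => 2 ≤ p.parts.count (y + 1))).image
          (fun y => y + 1) := by
      ext x
      simp only [Finset.mem_filter, Multiset.mem_toFinset, Finset.mem_image, Finset.mem_range]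
      constructor
      · rintro ⟨h1, h2⟩
        have := hle x h1
        have := hpos x h1
        refine ⟨x - 1, ⟨by omega, ?_⟩, by omega⟩
        rw [show x - 1 + 1 = x by omega]; exact h2
      · rintro ⟨y, ⟨_, h2⟩, rfl⟩
        refine ⟨?_, h2⟩
        rw [← Multiset.one_le_count_iff_mem]; omega
    rw [h1, Finset.card_image_of_injective _ (fun a b h => by simpa using h), Finset.card_filter]
    push_cast
    apply Finset.sum_congr rfl
    intro y _
    have e1 : ({y + 1, y + 1} : Multiset ℕ) ≤ p.parts ↔ 2 ≤ p.parts.count (y + 1) := by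
      rw [Multiset.le_count_iff_replicate_le]
      rfl
    simp only [e1]
  rw [hooks2_eq]
  push_cast
  rw [key1, key2, ← Finset.sum_add_distrib]

theorem sum_ind {α : Type*} (S : Finset α) (P : α → Prop) [DecidablePred P] :
    (∑ p ∈ S, (if P p then (1 : ℤ) else 0)) = ((S.filter P).card : ℤ) := by
  rw [Finset.card_filter]; push_cast; rfl

/-- first formula for `b t n` -/
theorem b_eq1 (t n : ℕ) : (b t n : ℤ) =
    ∑ y ∈ range (n + 1), ((if 1 ≤ y ∧ ¬ t ∣ y + 1 then r t (n - (y + 1)) else 0)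
      - (if 1 ≤ y ∧ ¬ t ∣ y + 1 ∧ ¬ t ∣ y then r t (n - (2 * y + 1)) else 0)
      + (if ¬ t ∣ y + 1 then r t (n - (2 * y + 2)) else 0)) := by
  unfold b
  push_cast
  rw [Finset.sum_congr rfl (fun p _ => hooks2_int p), Finset.sum_comm]
  apply Finset.sum_congr rfl
  intro y _
  rw [Finset.sum_add_distrib, Finset.sum_sub_distrib, sum_ind, sum_ind, sum_ind]
  congr 1
  · congr 1
    · by_cases h1 : 1 ≤ y
      · simp only [h1, true_and]
        by_cases h2 : t ∣ y + 1
        · rw [contain_dvd t n {y + 1} (y + 1) (by simp) h2]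
          simp [h2]
        · rw [contain t n {y + 1} (by simp [h2]), if_pos h2]
          simp
      · simp [h1]
    · by_cases h1 : 1 ≤ y
      · simp only [h1, true_and]
        by_cases h2 : t ∣ y + 1
        · rw [contain_dvd t n {y + 1, y} (y + 1) (by simp) h2]
          simp [h2]
        · by_cases h3 : t ∣ y
          · rw [contain_dvd t n {y + 1, y} y (by simp) h3]
            simp [h3]
          · rw [contain t n {y + 1, y} (by simp [h2, h3]; omega), if_pos ⟨h2, h3⟩]
            congr 1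
            simp
            ring
      · simp [h1]
  · by_cases h2 : t ∣ y + 1
    · rw [contain_dvd t n {y + 1, y + 1} (y + 1) (by simp) h2]
      simp [h2]
    · rw [contain t n {y + 1, y + 1} (by simp [h2]), if_pos h2]
      congr 1
      simp
      ring

/-- sums over multiples -/
theorem sum_mult (t n : ℕ) (ht : 1 ≤ t) (f : ℕ → ℤ) (hf : ∀ x, n < x → f x = 0) :
    (∑ y ∈ range (n + 1), if t ∣ y + 1 then f (y + 1) else 0) =
      ∑ j ∈ range (n + 1), f ((j + 1) * t) := by
  rw [← Finset.sum_filter]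
  have h1 : ∑ j ∈ range (n + 1), f ((j + 1) * t) =
      ∑ j ∈ (range (n + 1)).filter (fun j => (j + 1) * t ≤ n + 1), f ((j + 1) * t) := by
    symm
    apply Finset.sum_filter_of_ne
    intro j _ hne
    by_contra hcon
    exact hne (hf _ (by omega))
  rw [h1]
  symm
  refine Finset.sum_nbij (fun j => (j + 1) * t - 1) ?_ ?_ ?_ ?_
  · intro j hj
    rw [Finset.mem_filter, Finset.mem_range] at hj
    rw [Finset.mem_filter, Finset.mem_range]
    have h2 : 1 ≤ (j + 1) * t := Nat.mul_pos (by omega) ht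
    refine ⟨by omega, ?_⟩
    rw [show (j + 1) * t - 1 + 1 = (j + 1) * t by omega]
    exact Dvd.intro_left _ rfl
  · intro j hj j' hj' h
    simp only at h
    have h2 : 1 ≤ (j + 1) * t := Nat.mul_pos (by omega) ht
    have h3 : 1 ≤ (j' + 1) * t := Nat.mul_pos (by omega) ht
    have h4 : (j + 1) * t = (j' + 1) * t := by omega
    have h5 := Nat.eq_of_mul_eq_mul_right ht h4
    omega
  · intro y hy
    rw [Finset.mem_coe, Finset.mem_filter, Finset.mem_range] at hy
    obtain ⟨hy1, k, hk⟩ := hy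
    rw [Set.mem_image]
    have hk0 : 1 ≤ k := by
      rcases Nat.eq_zero_or_pos k with h | h
      · rw [h] at hk; omega
      · exact h
    have hkk : k ≤ t * k := Nat.le_mul_of_pos_left _ ht
    have e1 : (k - 1 + 1) * t = y + 1 := by
      rw [show k - 1 + 1 = k by omega, mul_comm, ← hk]
    refine ⟨k - 1, ?_, ?_⟩
    · rw [Finset.mem_coe, Finset.mem_filter, Finset.mem_range, e1]
      omega
    · simp only [e1]; omega
  · intro j hj
    have h2 : 1 ≤ (j + 1) * t := Nat.mul_pos (by omega) ht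
    rw [show (j + 1) * t - 1 + 1 = (j + 1) * t by omega]

/-- splitting by parity -/
theorem sum_parity (n : ℕ) (f : ℕ → ℤ) (hf : ∀ x, n < x → f x = 0) :
    ∑ j ∈ range (n + 1), f (j + 1) =
      ∑ j ∈ range (n + 1), f (2 * j + 1) + ∑ j ∈ range (n + 1), f (2 * j + 2) := by
  have h1 : ∀ M : ℕ, ∑ j ∈ range (2 * M), f (j + 1) =
      ∑ j ∈ range M, f (2 * j + 1) + ∑ j ∈ range M, f (2 * j + 2) := by
    intro M
    induction M with
    | zero => simp
    | succ M ih =>
      rw [show 2 * (M + 1) = 2 * M + 1 + 1 by ring, Finset.sum_range_succ, Finset.sum_range_succ,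
        Finset.sum_range_succ, Finset.sum_range_succ, ih]
      ring
  rw [← h1 (n + 1)]
  apply Finset.sum_subset
  · intro x hx
    rw [Finset.mem_range] at hx ⊢
    omega
  · intro x _ hx
    rw [Finset.mem_range] at hx
    exact hf _ (by omega)

/-- the second difference -/
def dd (g : ℤ → ℤ) (m : ℤ) : ℤ := g m - 2 * g (m - 1) + g (m - 2)

/-- the correction term -/
def Phi (t n : ℕ) (g : ℤ → ℤ) : ℤ :=
  ∑ j ∈ range (n + 1), (g (n - ((2 * j + 1 : ℕ) : ℤ) * t) -
    dd g (n - ((2 * j + 2 : ℕ) : ℤ) * t + 1))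

/-- second formula for `b t n` -/
theorem b_eq2 (t n : ℕ) (ht : 2 ≤ t) : (b t n : ℤ) =
    2 * ∑ j ∈ range (n + 1), r t (n - (2 * j + 2)) - Phi t n (r t) := by
  rw [b_eq1 t n]
  have h0 : ¬ t ∣ 1 := by
    intro h
    have := Nat.le_of_dvd one_pos h
    omega
  have hz : ∀ m : ℤ, m < 0 → r t m = 0 := fun m hm => r_neg hm
  -- the three sums
  have s1 : ∑ y ∈ range (n + 1), (if 1 ≤ y ∧ ¬ t ∣ y + 1 then r t (n - (y + 1)) else 0) =
      ∑ j ∈ range (n + 1), r t (n - (2 * j + 1)) + ∑ j ∈ range (n + 1), r t (n - (2 * j + 2))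
        - r t (n - 1) - ∑ j ∈ range (n + 1), r t (n - (((j + 1) * t : ℕ) : ℤ)) := by
    have e1 : ∀ y ∈ range (n + 1), (if 1 ≤ y ∧ ¬ t ∣ y + 1 then r t (n - (y + 1)) else 0) =
        r t ((n : ℤ) - ((y + 1 : ℕ) : ℤ)) - (if y = 0 then r t (n - 1) else 0)
          - (if t ∣ y + 1 then r t ((n : ℤ) - ((y + 1 : ℕ) : ℤ)) else 0) := by
      intro y _
      rcases Nat.eq_zero_or_pos y with rfl | hy
      · simp [h0]
      · by_cases h : t ∣ y + 1
        · simp [h, hy.ne']
        · simp [h, hy.ne', Nat.one_le_iff_ne_zero.2 hy.ne']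
    rw [Finset.sum_congr rfl e1, Finset.sum_sub_distrib, Finset.sum_sub_distrib,
      sum_mult t n (by omega) (fun x => r t ((n : ℤ) - (x : ℤ))) (fun x hx => hz _ (by omega)),
      sum_parity n (fun x => r t ((n : ℤ) - (x : ℤ))) (fun x hx => hz _ (by omega))]
    rw [Finset.sum_ite_eq' (range (n + 1)) 0 (fun _ => r t (n - 1)), if_pos (by simp)]
    push_cast
    ring
  have s2 : ∑ y ∈ range (n + 1), (if 1 ≤ y ∧ ¬ t ∣ y + 1 ∧ ¬ t ∣ y then r t (n - (2 * y + 1)) else 0)
      = ∑ j ∈ range (n + 1), r t (n - (2 * j + 1)) - r t (n - 1)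
        - ∑ j ∈ range (n + 1), r t (n - 2 * (((j + 1) * t : ℕ) : ℤ) + 1)
        - ∑ j ∈ range (n + 1), r t (n - 2 * (((j + 1) * t : ℕ) : ℤ) - 1) := by
    have e1 : ∀ y ∈ range (n + 1),
        (if 1 ≤ y ∧ ¬ t ∣ y + 1 ∧ ¬ t ∣ y then r t (n - (2 * y + 1)) else 0) =
        r t (n - (2 * y + 1)) - (if y = 0 then r t (n - 1) else 0)
          - (if t ∣ y + 1 then r t ((n : ℤ) - 2 * ((y + 1 : ℕ) : ℤ) + 1) else 0)
          - (if 1 ≤ y ∧ t ∣ y then r t (n - 2 * y - 1) else 0) := by
      intro y _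
      rcases Nat.eq_zero_or_pos y with rfl | hy
      · simp [h0]
      · have e2 : ((n : ℤ) - 2 * ((y + 1 : ℕ) : ℤ) + 1) = n - (2 * y + 1) := by push_cast; ring
        have e3 : ((n : ℤ) - 2 * y - 1) = n - (2 * y + 1) := by ring
        rw [e2, e3]
        by_cases h : t ∣ y + 1
        · have h' : ¬ t ∣ y := by
            intro h'
            exact h0 ((Nat.dvd_add_right h').1 h)
          simp [h, h', hy.ne']
        · by_cases h' : t ∣ y
          · simp [h, h', hy.ne', Nat.one_le_iff_ne_zero.2 hy.ne']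
          · simp [h, h', hy.ne', Nat.one_le_iff_ne_zero.2 hy.ne']
    have e4 : ∑ y ∈ range (n + 1), (if 1 ≤ y ∧ t ∣ y then r t ((n : ℤ) - 2 * y - 1) else 0) =
        ∑ y ∈ range (n + 1), (if t ∣ y + 1 then r t ((n : ℤ) - 2 * ((y + 1 : ℕ) : ℤ) - 1) else 0) := by
      rw [Finset.sum_range_succ', Finset.sum_range_succ (n := n)]
      have e5 : (if t ∣ n + 1 then r t ((n : ℤ) - 2 * ((n + 1 : ℕ) : ℤ) - 1) else 0) = 0 := by
        rw [hz _ (by push_cast; omega)]
        simp
      rw [e5]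
      simp
    rw [Finset.sum_congr rfl e1, Finset.sum_sub_distrib, Finset.sum_sub_distrib,
      Finset.sum_sub_distrib, e4,
      sum_mult t n (by omega) (fun x => r t ((n : ℤ) - 2 * (x : ℤ) + 1))
        (fun x hx => hz _ (by omega)),
      sum_mult t n (by omega) (fun x => r t ((n : ℤ) - 2 * (x : ℤ) - 1))
        (fun x hx => hz _ (by omega))]
    rw [Finset.sum_ite_eq' (range (n + 1)) 0 (fun _ => r t (n - 1)), if_pos (by simp)]
  have s3 : ∑ y ∈ range (n + 1), (if ¬ t ∣ y + 1 then r t (n - (2 * y + 2)) else 0)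
      = ∑ j ∈ range (n + 1), r t (n - (2 * j + 2))
        - ∑ j ∈ range (n + 1), r t (n - 2 * (((j + 1) * t : ℕ) : ℤ)) := by
    have e1 : ∀ y ∈ range (n + 1), (if ¬ t ∣ y + 1 then r t (n - (2 * y + 2)) else 0) =
        r t (n - (2 * y + 2)) - (if t ∣ y + 1 then r t ((n : ℤ) - 2 * ((y + 1 : ℕ) : ℤ)) else 0) := by
      intro y _
      have e2 : ((n : ℤ) - 2 * ((y + 1 : ℕ) : ℤ)) = n - (2 * y + 2) := by push_cast; ring
      rw [e2]
      by_cases h : t ∣ y + 1 <;> simp [h]
    rw [Finset.sum_congr rfl e1, Finset.sum_sub_distrib,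
      sum_mult t n (by omega) (fun x => r t ((n : ℤ) - 2 * (x : ℤ)))
        (fun x hx => hz _ (by omega))]
  have s4 : ∑ j ∈ range (n + 1), r t (n - (((j + 1) * t : ℕ) : ℤ)) =
      ∑ j ∈ range (n + 1), r t (n - ((2 * j + 1 : ℕ) : ℤ) * t) +
      ∑ j ∈ range (n + 1), r t (n - ((2 * j + 2 : ℕ) : ℤ) * t) := by
    have := sum_parity n (fun x => r t ((n : ℤ) - (x : ℤ) * t)) (fun x hx => hz _ (by
      have : (n : ℤ) < x := by exact_mod_cast hx
      have h2 : (x : ℤ) * 1 ≤ x * t := by
        apply mul_le_mul_of_nonneg_left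
        · exact_mod_cast (by omega : 1 ≤ t)
        · positivity
      omega))
    rw [← this]
    apply Finset.sum_congr rfl
    intro j _
    push_cast
    rfl
  rw [Finset.sum_add_distrib, Finset.sum_sub_distrib, s1, s2, s3, s4]
  unfold Phi dd
  rw [Finset.sum_sub_distrib, Finset.sum_add_distrib, Finset.sum_sub_distrib]
  have g3 : ∀ j : ℕ, (n : ℤ) - 2 * (((j + 1) * t : ℕ) : ℤ) =
      n - ((2 * j + 2 : ℕ) : ℤ) * t + 1 - 1 := by intro j; push_cast; ring
  have g4 : ∀ j : ℕ, (n : ℤ) - ((2 * j + 2 : ℕ) : ℤ) * t =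
      n - ((2 * j + 2 : ℕ) : ℤ) * t + 1 - 1 := by intro j; push_cast; ring
  simp only [g3]
  have g5 : ∑ j ∈ range (n + 1), r t (n - ((2 * j + 2 : ℕ) : ℤ) * t) =
      ∑ j ∈ range (n + 1), r t (n - ((2 * j + 2 : ℕ) : ℤ) * t + 1 - 1) := by
    apply Finset.sum_congr rfl
    intro j _
    rw [← g4 j]
  rw [g5, ← Finset.mul_sum]
  have g6 : ∑ j ∈ range (n + 1), r t ((n : ℤ) - ((2 * j + 2 : ℕ) : ℤ) * t + 1 - 1 + 1) =
      ∑ j ∈ range (n + 1), r t (n - ((2 * j + 2 : ℕ) : ℤ) * t + 1) := by
    apply Finset.sum_congr rfl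
    intro j _
    congr 1
    ring
  have g7 : ∑ j ∈ range (n + 1), r t ((n : ℤ) - ((2 * j + 2 : ℕ) : ℤ) * t + 1 - 1 - 1) =
      ∑ j ∈ range (n + 1), r t (n - ((2 * j + 2 : ℕ) : ℤ) * t + 1 - 2) := by
    apply Finset.sum_congr rfl
    intro j _
    congr 1
    ring
  linarith

end Pool.Agent.W2helper85.HookT
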