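import Mathlib

set_option autoImplicit false

namespace Pool.Agent.W2helper85.Lonc

/-- `S` is a disjoint union of copies of `(P, rP)` in `(Z, r)`. -/
def Tile {P Z : Type} (rP : P → P → Prop) (r : Z → Z → Prop) (S : Set Z) : Prop :=
  ∃ (κ : Type) (t : κ → P → Z), (∀ i a b, r (t i a) (t i b) ↔ rP a b) ∧
    (∀ i a, t i a ∈ S) ∧ ∀ z ∈ S, ∃! q : κ × P, t q.1 q.2 = z

theorem Tile.iUnion {P Z J : Type} {rP : P → P → Prop} {r : Z → Z → Prop} (S : J → Set Z)
    (hd : ∀ j j' z, z ∈ S j → z ∈ S j' → j = j') (h : ∀ j, Tile rP r (S j)) :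
    Tile rP r (⋃ j, S j) := by
  choose κ t h1 h2 h3 using h
  refine ⟨Σ j, κ j, fun q a => t q.1 q.2 a, fun q a b => h1 _ _ _ _, ?_, ?_⟩
  · intro q a
    exact Set.mem_iUnion.2 ⟨q.1, h2 _ _ _⟩
  · intro z hz
    obtain ⟨j, hj⟩ := Set.mem_iUnion.1 hz
    obtain ⟨⟨i, a⟩, hia, huniq⟩ := h3 j z hj
    refine ⟨(⟨j, i⟩, a), hia, ?_⟩
    rintro ⟨⟨j', i'⟩, a'⟩ h'
    dsimp only at h'
    have hj' : j' = j := hd j' j z (h' ▸ h2 j' i' a') hj
    subst hj'
    have := huniq (i', a') h'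
    rw [Prod.mk.injEq] at this
    obtain ⟨rfl, rfl⟩ := this
    rfl

theorem Tile.union {P Z : Type} {rP : P → P → Prop} {r : Z → Z → Prop} {S S' : Set Z}
    (hd : ∀ z, z ∈ S → z ∈ S' → False) (h : Tile rP r S) (h' : Tile rP r S') :
    Tile rP r (S ∪ S') := by
  have := Tile.iUnion (J := Bool) (rP := rP) (r := r) (fun b => if b then S else S') ?_ ?_
  · convert this using 1
    ext z
    simp [or_comm]
  · rintro (_ | _) (_ | _) z hz hz'
    · rfl
    · exact absurd (hd z hz' hz) id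
    · exact absurd (hd z hz hz') id
    · rfl
  · rintro (_ | _)
    · simpa using h'
    · simpa using h

theorem Tile.dual {P Z : Type} {rP : P → P → Prop} {r : Z → Z → Prop} {S : Set Z}
    (h : Tile (fun a b => rP b a) (fun a b => r b a) S) : Tile rP r S := by
  obtain ⟨κ, t, h1, h2, h3⟩ := h
  exact ⟨κ, t, fun i a b => h1 i b a, h2, h3⟩

theorem Tile.single {P Z : Type} {rP : P → P → Prop} {r : Z → Z → Prop} (t : P → Z)
    (h : ∀ a b, r (t a) (t b) ↔ rP a b) (hinj : Function.Injective t) :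
    Tile rP r (Set.range t) := by
  refine ⟨Unit, fun _ => t, fun _ => h, fun _ a => ⟨a, rfl⟩, ?_⟩
  rintro z ⟨a, rfl⟩
  refine ⟨((), a), rfl, ?_⟩
  rintro ⟨_, b⟩ hb
  simp only [Prod.mk.injEq, true_and]
  exact hinj hb

/-- transport along an order isomorphism-like map -/
theorem Tile.map {P Z W : Type} {rP : P → P → Prop} {r : Z → Z → Prop} {s : W → W → Prop}
    {S : Set Z} {S' : Set W} (g : Z ≃ W) (hg : ∀ a b, s (g a) (g b) ↔ r a b)
    (hS : ∀ z, g z ∈ S' ↔ z ∈ S) (h : Tile rP r S) : Tile rP s S' := by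
  obtain ⟨κ, t, h1, h2, h3⟩ := h
  refine ⟨κ, fun i a => g (t i a), fun i a b => (hg _ _).trans (h1 i a b),
    fun i a => (hS _).2 (h2 i a), ?_⟩
  intro w hw
  obtain ⟨q, hq, hu⟩ := h3 (g.symm w) ((hS _).1 (by simpa using hw))
  refine ⟨q, by simp only [hq, Equiv.apply_symm_apply], fun q' hq' => hu q' ?_⟩
  dsimp only at hq' ⊢
  rw [← hq', Equiv.symm_apply_apply]

/-- The cube gadget: a cube `Ψ : P³ → Z` together with a `P`-indexed family of holes. -/
theorem tile_gadget {P Z : Type} {rP : P → P → Prop} {r : Z → Z → Prop}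
    (Ψ : P → P → P → Z) (h : P → Z) (c0 j0 : P)
    (hΨ : ∀ c a j c' a' j', r (Ψ c a j) (Ψ c' a' j') ↔ rP c c' ∧ rP a a' ∧ rP j j')
    (hrefl : ∀ a, rP a a) (hanti : ∀ a b, rP a b → rP b a → a = b)
    (hmin : ∀ j, rP j j0 → j = j0)
    (hrr : ∀ a, r (h a) (h a))
    (h1 : ∀ a j, j ≠ j0 → (r (h a) (Ψ c0 a j) ↔ rP j0 j))
    (h2 : ∀ a j, ¬ r (Ψ c0 a j) (h a))
    (hinj : Function.Injective h) (hne : ∀ a c b j, h a ≠ Ψ c b j) :
    Tile rP r ({z | ∃ c a j, Ψ c a j = z} ∪ {z | ∃ a, h a = z}) := by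
  classical
  have hΨinj : ∀ c a j c' a' j', Ψ c a j = Ψ c' a' j' → c = c' ∧ a = a' ∧ j = j' := by
    intro c a j c' a' j' he
    have e1 := (hΨ c a j c' a' j').1 (he ▸ (hΨ c a j c a j).2 ⟨hrefl _, hrefl _, hrefl _⟩)
    have e2 := (hΨ c' a' j' c a j).1 (he ▸ (hΨ c' a' j' c' a' j').2 ⟨hrefl _, hrefl _, hrefl _⟩)
    exact ⟨hanti _ _ e1.1 e2.1, hanti _ _ e1.2.1 e2.2.1, hanti _ _ e1.2.2 e2.2.2⟩
  refine ⟨({c : P // c ≠ c0} × P) ⊕ (P ⊕ Unit), fun i x => match i with
    | Sum.inl (c, a) => Ψ c.1 a x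
    | Sum.inr (Sum.inl a) => if x = j0 then h a else Ψ c0 a x
    | Sum.inr (Sum.inr _) => Ψ c0 x j0, ?_, ?_, ?_⟩
  · rintro (⟨c, a⟩ | a | u) x y
    · dsimp only
      rw [hΨ]
      simp [hrefl]
    · dsimp only
      by_cases hx : x = j0
      · by_cases hy : y = j0
        · rw [if_pos hx, if_pos hy, hx, hy]
          simp [hrefl, hrr]
        · rw [if_pos hx, if_neg hy, hx]
          exact h1 a y hy
      · by_cases hy : y = j0
        · rw [if_neg hx, if_pos hy, hy]
          constructor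
          · intro h'; exact absurd h' (h2 a x)
          · intro h'; exact absurd (hmin x h') hx
        · rw [if_neg hx, if_neg hy, hΨ]
          simp [hrefl]
    · dsimp only
      rw [hΨ]
      simp [hrefl]
  · rintro (⟨c, a⟩ | a | u) x
    · exact Or.inl ⟨_, _, _, rfl⟩
    · dsimp only
      by_cases hx : x = j0
      · rw [if_pos hx]; exact Or.inr ⟨_, rfl⟩
      · rw [if_neg hx]; exact Or.inl ⟨_, _, _, rfl⟩
    · exact Or.inl ⟨_, _, _, rfl⟩
  · rintro z (⟨c, a, j, rfl⟩ | ⟨a, rfl⟩)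
    · by_cases hc : c = c0
      · subst hc
        by_cases hj : j = j0
        · subst hj
          refine ⟨(Sum.inr (Sum.inr ()), a), rfl, ?_⟩
          rintro ⟨⟨c', a'⟩ | a' | u, x⟩ hx
          · dsimp only at hx
            obtain ⟨e1, -, -⟩ := hΨinj _ _ _ _ _ _ hx
            exact absurd e1 c'.2
          · dsimp only at hx
            by_cases hxj : x = j
            · rw [if_pos hxj] at hx; exact absurd hx (hne _ _ _ _)
            · rw [if_neg hxj] at hx
              obtain ⟨-, -, e3⟩ := hΨinj _ _ _ _ _ _ hx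
              exact absurd e3 hxj
          · dsimp only at hx
            obtain ⟨-, e2, -⟩ := hΨinj _ _ _ _ _ _ hx
            rw [e2]
        · refine ⟨(Sum.inr (Sum.inl a), j), by dsimp only; rw [if_neg hj], ?_⟩
          rintro ⟨⟨c', a'⟩ | a' | u, x⟩ hx
          · dsimp only at hx
            obtain ⟨e1, -, -⟩ := hΨinj _ _ _ _ _ _ hx
            exact absurd e1 c'.2
          · dsimp only at hx
            by_cases hxj : x = j0
            · rw [if_pos hxj] at hx; exact absurd hx (hne _ _ _ _)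
            · rw [if_neg hxj] at hx
              obtain ⟨-, e2, e3⟩ := hΨinj _ _ _ _ _ _ hx
              rw [e2, e3]
          · dsimp only at hx
            obtain ⟨-, -, e3⟩ := hΨinj _ _ _ _ _ _ hx
            exact absurd e3.symm hj
      · refine ⟨(Sum.inl (⟨c, hc⟩, a), j), rfl, ?_⟩
        rintro ⟨⟨c', a'⟩ | a' | u, x⟩ hx
        · dsimp only at hx
          obtain ⟨e1, e2, e3⟩ := hΨinj _ _ _ _ _ _ hx
          have : c' = ⟨c, hc⟩ := Subtype.ext e1
          rw [this, e2, e3]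
        · dsimp only at hx
          by_cases hxj : x = j0
          · rw [if_pos hxj] at hx; exact absurd hx (hne _ _ _ _)
          · rw [if_neg hxj] at hx
            obtain ⟨e1, -, -⟩ := hΨinj _ _ _ _ _ _ hx
            exact absurd e1.symm hc
        · dsimp only at hx
          obtain ⟨e1, -, -⟩ := hΨinj _ _ _ _ _ _ hx
          exact absurd e1.symm hc
    · refine ⟨(Sum.inr (Sum.inl a), j0), by simp, ?_⟩
      rintro ⟨⟨c', a'⟩ | a' | u, x⟩ hx
      · dsimp only at hx
        exact absurd hx.symm (hne _ _ _ _)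
      · dsimp only at hx
        by_cases hxj : x = j0
        · rw [if_pos hxj] at hx
          rw [hinj hx, hxj]
        · rw [if_neg hxj] at hx
          exact absurd hx.symm (hne _ _ _ _)
      · dsimp only at hx
        exact absurd hx.symm (hne _ _ _ _)

end Pool.Agent.W2helper85.Lonc
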