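import Pool.Agent.W2helper85.Lonc9

set_option autoImplicit false

namespace Pool.Agent.W2helper85.Lonc

theorem exists_downset {P : Type} [Fintype P] [PartialOrder P] (m : ℕ)
    (hm : m ≤ Fintype.card P) :
    ∃ I : Finset P, I.card = m ∧ ∀ a b, a ≤ b → b ∈ I → a ∈ I := by
  classical
  induction m with
  | zero => exact ⟨∅, by simp⟩
  | succ m ih =>
    obtain ⟨I, hI, hd⟩ := ih (by omega)
    have hne : (Finset.univ \ I).Nonempty := by
      rw [Finset.nonempty_iff_ne_empty]
      intro h
      have h1 : Finset.univ ⊆ I := Finset.sdiff_eq_empty_iff_subset.1 h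
      have h2 := Finset.card_le_card h1
      rw [Finset.card_univ] at h2
      omega
    obtain ⟨x, hx⟩ := (Finset.univ \ I).exists_minimal hne
    have hxI : x ∉ I := by
      have := hx.1
      simpa using this
    refine ⟨insert x I, by rw [Finset.card_insert_of_notMem hxI, hI], ?_⟩
    intro a b hab hb
    rw [Finset.mem_insert] at hb ⊢
    rcases hb with rfl | hb
    · by_cases ha : a ∈ I
      · exact Or.inr ha
      · left
        have : a ∈ (Finset.univ \ I) := by simpa using ha
        exact le_antisymm hab (hx.2 this hab)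
    · exact Or.inr (hd a b hab hb)

open Classical in
theorem cnt1 {P B : Type} [Fintype P] [Fintype B] (Q : B → Prop) (c : B) (hc : Q c) (y : P → B)
    (hy : Function.Injective y) (hyQ : ∀ a, Q (y a)) (hyc : ∀ a, y a ≠ c) (I : P → Prop) :
    (Finset.univ.filter fun b : B => Q b ∧ b ≠ c ∧ ¬ ∃ a, I a ∧ y a = b).card + 1 +
      (Finset.univ.filter I).card = (Finset.univ.filter Q).card := by
  have h : Finset.univ.filter Q = insert c
      ((Finset.univ.filter fun b : B => Q b ∧ b ≠ c ∧ ¬ ∃ a, I a ∧ y a = b) ∪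
        (Finset.univ.filter I).image y) := by
    ext b
    simp only [Finset.mem_filter, Finset.mem_univ, true_and, Finset.mem_insert, Finset.mem_union,
      Finset.mem_image]
    constructor
    · intro hb
      by_cases h1 : b = c
      · exact Or.inl h1
      · by_cases h2 : ∃ a, I a ∧ y a = b
        · exact Or.inr (Or.inr h2)
        · exact Or.inr (Or.inl ⟨hb, h1, h2⟩)
    · rintro (rfl | ⟨h, -, -⟩ | ⟨a, -, rfl⟩)
      · exact hc
      · exact h
      · exact hyQ a
  rw [h, Finset.card_insert_of_notMem, Finset.card_union_of_disjoint,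
    Finset.card_image_of_injective _ hy]
  · ring
  · rw [Finset.disjoint_left]
    intro b hb hb'
    simp only [Finset.mem_filter, Finset.mem_univ, true_and] at hb
    obtain ⟨a, ha, rfl⟩ := Finset.mem_image.1 hb'
    exact hb.2.2 ⟨a, by simpa using ha, rfl⟩
  · intro hb
    rw [Finset.mem_union] at hb
    rcases hb with hb | hb
    · simp at hb
    · obtain ⟨a, ha, h⟩ := Finset.mem_image.1 hb
      exact hyc a h

open Classical in
theorem cnt2 {B : Type} [Fintype B] (Q : B → Prop) (c : B) (hc : Q c) (q : ℕ)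
    (hq : (Finset.univ.filter Q).card = q + 1) :
    (Finset.univ.filter fun x : B × B => Q x.1 ∧ x.1 ≠ c ∧ Q x.2).card = q * (q + 1) := by
  have h : (Finset.univ.filter fun x : B × B => Q x.1 ∧ x.1 ≠ c ∧ Q x.2) =
      ((Finset.univ.filter Q).erase c) ×ˢ (Finset.univ.filter Q) := by
    ext ⟨a, b⟩
    simp only [Finset.mem_filter, Finset.mem_univ, true_and, Finset.mem_product,
      Finset.mem_erase]
    tauto
  rw [h, Finset.card_product, Finset.card_erase_of_mem (by simpa using hc), hq]
  simp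

open Classical in
theorem cnt3 {P B ι : Type} [Fintype P] [Fintype B] [Fintype ι] (W : World P B ι) :
    (Finset.univ.filter W.Q).card + Fintype.card ι * Fintype.card P = Fintype.card B := by
  have h1 : (Finset.univ.image fun q : ι × P => W.T q.1 q.2).card =
      Fintype.card ι * Fintype.card P := by
    rw [Finset.card_image_of_injective, Finset.card_univ, Fintype.card_prod]
    rintro ⟨i, a⟩ ⟨j, b⟩ h
    obtain ⟨rfl, rfl⟩ := W.T_inj i a j b h
    rfl
  have h2 : (Finset.univ.filter W.Q)ᶜ = Finset.univ.image fun q : ι × P => W.T q.1 q.2 := by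
    ext b
    simp only [Finset.mem_compl, Finset.mem_filter, Finset.mem_univ, true_and, Finset.mem_image,
      World.Q, Prod.exists]
    push Not
    rfl
  rw [← h1, ← h2, Finset.card_add_card_compl]

open Classical in
theorem cnt1' {P B : Type} [Fintype P] [Fintype B] (Q : B → Prop) (c : B) (hc : Q c) (y : P → B)
    (hy : Function.Injective y) (hyQ : ∀ a, Q (y a)) (hyc : ∀ a, y a ≠ c) (I : P → Prop)
    (p q1 ni : ℕ) (hq1 : (Finset.univ.filter Q).card = q1 + 1)
    (hni : (Finset.univ.filter I).card = ni) (h : ∀ x, x + ni = q1 → p ∣ x) :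
    p ∣ (Finset.univ.filter fun b : B => Q b ∧ b ≠ c ∧ ¬ ∃ a, I a ∧ y a = b).card := by
  apply h
  have := cnt1 Q c hc y hy hyQ hyc I
  omega

open Classical in
theorem cnt2' {B : Type} [Fintype B] (Q : B → Prop) (c : B) (hc : Q c) (p q : ℕ)
    (hq : (Finset.univ.filter Q).card = q + 1) (h : p ∣ q * (q + 1)) :
    p ∣ (Finset.univ.filter fun x : B × B => Q x.1 ∧ x.1 ≠ c ∧ Q x.2).card := by
  rw [cnt2 Q c hc q hq]; exact h

open Classical in
/-- The tiling for a general world over a block with `2 ^ k` elements. -/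
theorem inst0 {P B ι : Type} [Fintype P] [PartialOrder P] [Fintype B] [Fintype ι] [Nonempty P]
    (W : World P B ι) (hW : W.rP = fun a b => a ≤ b) (f s n0 k m : ℕ)
    (hk : 0 < k) (hB : Fintype.card B = 2 ^ k) (hι : Fintype.card ι = 2 * m)
    (hp : Fintype.card P ∣ 2 ^ (k + 1) - 2)
    (hs : 2 * Fintype.card P + 1 ≤ s) (hn0 : 2 * n0 ≤ f)
    (hD : ∀ j ∈ Finset.range 4, (f + 1) * (2 ^ k) ^ (s + j + 2) ≤ n0.choose (s + j))
    (y : P → B) (hy : ∀ a b, W.rB (y a) (y b) ↔ W.rP a b) (hyQ : ∀ a, W.Q (y a))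
    (hyb : ∀ a, y a ≠ W.bot) (hyt : ∀ a, y a ≠ W.top) :
    Tile W.rP W.rZ {z : Bool × (Fin (f + 1) → B) | z ≠ (W.el, fun _ => W.bot) ∧
      z ≠ (W.eh, fun _ => W.top)} := by
  have h3 := cnt3 W
  rw [hB, hι] at h3
  have hq1 : 1 ≤ (Finset.univ.filter W.Q).card :=
    Finset.card_pos.2 ⟨W.bot, by simpa using W.Q_bot⟩
  obtain ⟨q1, hq1'⟩ : ∃ q1, (Finset.univ.filter W.Q).card = q1 + 1 :=
    ⟨(Finset.univ.filter W.Q).card - 1, by omega⟩
  rw [hq1'] at h3
  have hp0 : 0 < Fintype.card P := Fintype.card_pos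
  have hpow : 2 ^ (k + 1) = 2 * 2 ^ k := by ring
  have h5 : Fintype.card P ∣ 2 * q1 := by
    rw [hpow, ← h3] at hp
    have h6 : 2 * (q1 + 1 + 2 * m * Fintype.card P) - 2 = 2 * q1 + 4 * m * Fintype.card P := by
      have : 2 * (q1 + 1 + 2 * m * Fintype.card P) = 2 * q1 + 4 * m * Fintype.card P + 2 := by
        ring
      rw [this]; rfl
    rw [h6] at hp
    exact (Nat.dvd_add_left (Dvd.intro_left _ rfl)).1 hp
  have hr0 : q1 % Fintype.card P < Fintype.card P := Nat.mod_lt _ hp0
  obtain ⟨I, hI, hId⟩ := exists_downset (P := P) (q1 % Fintype.card P) hr0.le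
  have hIc : (Finset.univ.filter fun a => a ∈ I).card = q1 % Fintype.card P := by
    rw [← hI]; congr 1; ext; simp
  have hIc' : (Finset.univ.filter fun a => ¬ a ∈ I).card = Fintype.card P - q1 % Fintype.card P := by
    have : (Finset.univ.filter fun a => a ∈ I).card + (Finset.univ.filter fun a => ¬ a ∈ I).card
        = Fintype.card P := by
      rw [Finset.card_filter_add_card_filter_not, Finset.card_univ]
    omega
  have hyinj : Function.Injective y := by
    intro a b h
    have e1 := (hy a b).1 (h ▸ W.B_refl _)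
    have e2 := (hy b a).1 (h ▸ W.B_refl _)
    exact W.P_anti _ _ e1 e2
  have hmul : Fintype.card P ∣ q1 * (q1 + 1) := by
    rcases Nat.even_or_odd (Fintype.card P) with hpe | hpo
    · have hqe : Even (q1 + 1) := by
        have h7 : Even (q1 + 1 + 2 * m * Fintype.card P) := by
          rw [h3]
          exact (Nat.even_pow.2 ⟨by decide, hk.ne'⟩)
        rw [Nat.even_add] at h7
        rw [h7]
        exact ⟨m * Fintype.card P, by ring⟩
      obtain ⟨w, hw⟩ := hqe
      rw [hw]
      have : q1 * (w + w) = (2 * q1) * w := by ring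
      rw [this]
      exact h5.mul_right _
    · have hcop : Nat.Coprime (Fintype.card P) 2 := Nat.coprime_two_right.2 hpo
      exact (hcop.dvd_of_dvd_mul_left h5).mul_right _
  have hdm := Nat.div_add_mod q1 (Fintype.card P)
  refine full (f := f) W s n0 hs hn0
    (by rw [hB]; simpa using hD 0 (by simp))
    (by rw [hB]; exact hD 1 (by simp))
    (by rw [hB]; exact hD 2 (by simp))
    (by rw [hB]; exact hD 3 (by simp))
    y hy hyQ hyb hyt (fun a => a ∈ I) (fun a b h h' => hId a b (by rw [hW] at h; exact h) h')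
    ?_ ?_ ?_ ?_
  · refine cnt1' W.Q W.bot W.Q_bot y hyinj hyQ hyb (fun a => a ∈ I) _ q1 _ hq1' 
      (by convert hIc) ?_
    intro x hx
    have : x = Fintype.card P * (q1 / Fintype.card P) := by omega
    rw [this]; exact Dvd.intro _ rfl
  · have key := cnt1' W.Q W.top W.Q_top y hyinj hyQ hyt (fun a => ¬ a ∈ I) (Fintype.card P) q1
      (Fintype.card P - q1 % Fintype.card P) hq1' (by convert hIc') ?_
    · convert key
    intro x hx
    have h10 : Fintype.card P ∣ q1 + q1 % Fintype.card P := by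
      have h11 : q1 + q1 % Fintype.card P + Fintype.card P * (q1 / Fintype.card P) = 2 * q1 := by
        omega
      rw [← h11] at h5
      exact (Nat.dvd_add_left (Dvd.intro _ rfl)).1 h5
    have h9 : x + Fintype.card P = q1 + q1 % Fintype.card P := by
      omega
    rw [← h9] at h10
    exact (Nat.dvd_add_left (dvd_refl _)).1 h10
  · exact cnt2' W.Q W.bot W.Q_bot _ q1 hq1' hmul
  · exact cnt2' W.Q W.top W.Q_top _ q1 hq1' hmul


theorem cardI : Fintype.card (Bool × SS) = 2 * Fintype.card SS := by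
    rw [Fintype.card_prod, Fintype.card_bool]

theorem Ty_ne_bot {P : Type} [PartialOrder P] (r : ℕ) (j0 j1 : P) (hj0 : ∀ j, j ≤ j0 → j = j0) (hj1 : ∀ j, j1 ≤ j → j = j1) (a : P) : Ty r a ≠ (theWorld r j0 j1 hj0 hj1).bot := by
  intro h
  have h1 := congrFun h (.inr (.inr (.inl none)))
  have h2 : (Ty r a : VV P r → Bool) (.inr (.inr (.inl none))) = true := by simp [Ty]
  rw [h2] at h1
  exact absurd h1 (by simp [theWorld])

theorem Ty_ne_top {P : Type} [PartialOrder P] (r : ℕ) (j0 j1 : P) (hj0 : ∀ j, j ≤ j0 → j = j0) (hj1 : ∀ j, j1 ≤ j → j = j1) (a : P) : Ty r a ≠ (theWorld r j0 j1 hj0 hj1).top := by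
  intro h
  have h1 := congrFun h (.inl 0)
  have h2 : (Ty r a : VV P r → Bool) (.inl 0) = false := by simp [Ty]
  rw [h2] at h1
  exact absurd h1 (by simp [theWorld])

open Classical in
/-- The tiling for one block type and `f + 1` blocks. -/
theorem inst {P : Type} [Fintype P] [PartialOrder P] [Nonempty P] (r f s n0 : ℕ)
    (j0 j1 : P) (hj0 : ∀ j, j ≤ j0 → j = j0) (hj1 : ∀ j, j1 ≤ j → j = j1)
    (hp : Fintype.card P ∣ 2 ^ (Fintype.card (VV P r) + 1) - 2)
    (hs : 2 * Fintype.card P + 1 ≤ s) (hn0 : 2 * n0 ≤ f)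
    (hD : ∀ j ∈ Finset.range 4, (f + 1) * (2 ^ Fintype.card (VV P r)) ^ (s + j + 2) ≤
      n0.choose (s + j)) :
    Tile (theWorld r j0 j1 hj0 hj1).rP (theWorld r j0 j1 hj0 hj1).rZ
      {z : Bool × (Fin (f + 1) → VV P r → Bool) | z ≠ ((theWorld r j0 j1 hj0 hj1).el,
        fun _ => (theWorld r j0 j1 hj0 hj1).bot) ∧
        z ≠ ((theWorld r j0 j1 hj0 hj1).eh, fun _ => (theWorld r j0 j1 hj0 hj1).top)} := by
  have hB : Fintype.card (VV P r → Bool) = 2 ^ Fintype.card (VV P r) := by
    rw [Fintype.card_fun, Fintype.card_bool]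
  have hk : 0 < Fintype.card (VV P r) := Fintype.card_pos_iff.2 ⟨.inl 0⟩
  generalize Fintype.card (VV P r) = k at hp hD hB hk
  have := inst0 (theWorld r j0 j1 hj0 hj1) rfl f s n0 k (Fintype.card SS) hk hB cardI hp hs hn0 hD (Ty r) 
    (fun a b => Ty_le a b) (fun a q b => Ty_ne_TT j0 j1 q b a)
    (fun a => Ty_ne_bot r j0 j1 hj0 hj1 a) (fun a => Ty_ne_top r j0 j1 hj0 hj1 a)
  exact this

end Pool.Agent.W2helper85.Lonc
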