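import Pool.Agent.W2helper85.Lonc10

set_option autoImplicit false

namespace Pool.Agent.W2helper85.Lonc

theorem Tile.emb {P Z W : Type} {rP : P → P → Prop} {r : Z → Z → Prop} {s : W → W → Prop}
    {S : Set Z} (g : Z → W) (hg : ∀ a b, s (g a) (g b) ↔ r a b) (hinj : Function.Injective g)
    (h : Tile rP r S) : Tile rP s (g '' S) := by
  obtain ⟨κ, t, h1, h2, h3⟩ := h
  refine ⟨κ, fun i a => g (t i a), fun i a b => (hg _ _).trans (h1 i a b),
    fun i a => ⟨_, h2 i a, rfl⟩, ?_⟩
  rintro _ ⟨z, hz, rfl⟩
  obtain ⟨q, hq, hu⟩ := h3 z hz
  exact ⟨q, by simp only [hq], fun q' hq' => hu q' (hinj hq')⟩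

/-- The cube `V → Bool` without its bottom and its top is a disjoint union of copies of `P`. -/
def CT (P : Type) [PartialOrder P] (V : Type) : Prop :=
  Tile (fun a b : P => a ≤ b) (rV (V := V)) {x | x ≠ (fun _ => false) ∧ x ≠ fun _ => true}

variable {P : Type} [PartialOrder P]

theorem CT.congr {V V' : Type} (e : V ≃ V') (h : CT P V) : CT P V' := by
  refine Tile.map (g := (Equiv.arrowCongr e (Equiv.refl Bool))) ?_ ?_ h
  · intro a b
    simp only [rV, Equiv.arrowCongr_apply, Equiv.coe_refl, Function.comp_apply, id_eq]
    constructor
    · intro h v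
      have := h (e v)
      simpa using this
    · intro h v
      exact h (e.symm v)
  · intro x
    simp only [Set.mem_ofPred_eq, ne_eq]
    constructor
    · rintro ⟨h1, h2⟩
      refine ⟨fun h => h1 ?_, fun h => h2 ?_⟩
      · rw [h]; rfl
      · rw [h]; rfl
    · rintro ⟨h1, h2⟩
      refine ⟨fun h => h1 ?_, fun h => h2 ?_⟩
      · funext v
        have := congrFun h (e v)
        simpa using this
      · funext v
        have := congrFun h (e v)
        simpa using this

/-- the change of coordinates -/
def gEquiv (I V : Type) : Bool × (I → V → Bool) ≃ (Unit ⊕ (I × V) → Bool) where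
  toFun z := Sum.elim (fun _ => z.1) (fun q => z.2 q.1 q.2)
  invFun w := (w (.inl ()), fun i v => w (.inr (i, v)))
  left_inv z := rfl
  right_inv w := by
    funext v
    rcases v with v | v <;> rfl

theorem CT_block [Fintype P] [Nonempty P] (r f s n0 : ℕ)
    (hp : Fintype.card P ∣ 2 ^ (Fintype.card (VV P r) + 1) - 2)
    (hs : 2 * Fintype.card P + 1 ≤ s) (hn0 : 2 * n0 ≤ f)
    (hD : ∀ j ∈ Finset.range 4, (f + 1) * (2 ^ Fintype.card (VV P r)) ^ (s + j + 2) ≤
      n0.choose (s + j)) :
    CT P (Unit ⊕ (Fin (f + 1) × VV P r)) := by
  obtain ⟨j0, hj0⟩ := (Finset.univ : Finset P).exists_minimal ⟨Classical.arbitrary P, Finset.mem_univ _⟩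
  obtain ⟨j1, hj1⟩ := (Finset.univ : Finset P).exists_maximal ⟨Classical.arbitrary P, Finset.mem_univ _⟩
  have hj0' : ∀ j, j ≤ j0 → j = j0 := fun j h => le_antisymm h (hj0.2 (Finset.mem_univ _) h)
  have hj1' : ∀ j, j1 ≤ j → j = j1 := fun j h => le_antisymm (hj1.2 (Finset.mem_univ _) h) h
  have key := inst r f s n0 j0 j1 hj0' hj1' hp hs hn0 hD
  refine Tile.map (g := gEquiv (Fin (f + 1)) (VV P r)) ?_ ?_ key
  · rintro ⟨a, x⟩ ⟨b, y⟩
    constructor
    · intro h
      exact ⟨h (.inl ()), fun i v => h (.inr (i, v))⟩
    · rintro ⟨h1, h2⟩ (v | ⟨i, v⟩)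
      · exact h1
      · exact h2 i v
  · rintro ⟨a, x⟩
    constructor
    · rintro ⟨h1, h2⟩
      refine ⟨fun h => h1 ?_, fun h => h2 ?_⟩
      · rw [h]; funext v; rcases v with v | v <;> rfl
      · rw [h]; funext v; rcases v with v | v <;> rfl
    · rintro ⟨h1, h2⟩
      refine ⟨fun h => h1 ?_, fun h => h2 ?_⟩
      · have e1 : a = false := congrFun h (.inl ())
        have e2 : x = fun _ _ => false := by
          funext i v; exact congrFun h (.inr (i, v))
        rw [e1, e2]; rfl
      · have e1 : a = true := congrFun h (.inl ())
        have e2 : x = fun _ _ => true := by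
          funext i v; exact congrFun h (.inr (i, v))
        rw [e1, e2]; rfl

theorem CT.add {A C : Type} (hA : CT P (Unit ⊕ A)) (hC : CT P (Unit ⊕ C)) :
    CT P (Unit ⊕ (A ⊕ C)) := by
  set g1 : (C → Bool) → (Unit ⊕ A → Bool) → (Unit ⊕ (A ⊕ C) → Bool) := fun w x =>
    Sum.elim (fun u => x (.inl u)) (Sum.elim (fun a => x (.inr a)) w) with hg1
  set g2 : (Unit ⊕ C → Bool) → (Unit ⊕ (A ⊕ C) → Bool) := fun y =>
    Sum.elim (fun u => y (.inl u)) (Sum.elim (fun _ => y (.inl ())) (fun c => y (.inr c))) with hg2
  have h1 : ∀ w, Tile (fun a b : P => a ≤ b) (rV (V := Unit ⊕ (A ⊕ C)))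
      (g1 w '' {x | x ≠ (fun _ => false) ∧ x ≠ fun _ => true}) := by
    intro w
    refine Tile.emb (g1 w) ?_ ?_ hA
    · intro x y
      constructor
      · rintro h (v | v)
        · exact h (.inl v)
        · exact h (.inr (.inl v))
      · rintro h (v | v | v)
        · exact h (.inl v)
        · exact h (.inr v)
        · exact id
    · intro x y h
      funext v
      rcases v with v | v
      · exact congrFun h (.inl v)
      · exact congrFun h (.inr (.inl v))
  have h2 : Tile (fun a b : P => a ≤ b) (rV (V := Unit ⊕ (A ⊕ C)))
      (g2 '' {x | x ≠ (fun _ => false) ∧ x ≠ fun _ => true}) := by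
    refine Tile.emb g2 ?_ ?_ hC
    · intro x y
      constructor
      · rintro h (v | v)
        · exact h (.inl v)
        · exact h (.inr (.inr v))
      · rintro h (v | v | v)
        · exact h (.inl v)
        · exact h (.inl ())
        · exact h (.inr v)
    · intro x y h
      funext v
      rcases v with v | v
      · exact congrFun h (.inl v)
      · exact congrFun h (.inr (.inr v))
  have h3 := Tile.iUnion (rP := fun a b : P => a ≤ b) (r := rV (V := Unit ⊕ (A ⊕ C)))
    (fun w => g1 w '' {x | x ≠ (fun _ => false) ∧ x ≠ fun _ => true}) ?_ h1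
  · have h4 := Tile.union ?_ h3 h2
    · unfold CT
      convert h4 using 1
      ext z
      simp only [Set.mem_ofPred_eq, Set.mem_union, Set.mem_iUnion, Set.mem_image]
      constructor
      · rintro ⟨hz1, hz2⟩
        by_cases hc : (∀ a, z (.inr (.inl a)) = z (.inl ()))
        · right
          refine ⟨Sum.elim (fun u => z (.inl u)) (fun c => z (.inr (.inr c))), ⟨?_, ?_⟩, ?_⟩
          · intro h
            apply hz1
            have e0 : z (.inl ()) = false := congrFun h (.inl ())
            funext v
            rcases v with v | v | v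
            · exact e0
            · rw [hc, e0]
            · exact congrFun h (.inr v)
          · intro h
            apply hz2
            have e0 : z (.inl ()) = true := congrFun h (.inl ())
            funext v
            rcases v with v | v | v
            · exact e0
            · rw [hc, e0]
            · exact congrFun h (.inr v)
          · funext v
            rcases v with v | v | v
            · rfl
            · exact (hc v).symm
            · rfl
        · left
          push Not at hc
          obtain ⟨a, ha⟩ := hc
          refine ⟨fun c => z (.inr (.inr c)),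
            Sum.elim (fun u => z (.inl u)) (fun a => z (.inr (.inl a))), ⟨?_, ?_⟩, ?_⟩
          · intro h
            apply ha
            have e0 : z (.inl ()) = false := congrFun h (.inl ())
            have e1 : z (.inr (.inl a)) = false := congrFun h (.inr a)
            rw [e0, e1]
          · intro h
            apply ha
            have e0 : z (.inl ()) = true := congrFun h (.inl ())
            have e1 : z (.inr (.inl a)) = true := congrFun h (.inr a)
            rw [e0, e1]
          · funext v
            rcases v with v | v | v <;> rfl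
      · rintro (⟨w, x, ⟨hx1, hx2⟩, rfl⟩ | ⟨y, ⟨hy1, hy2⟩, rfl⟩)
        · refine ⟨fun h => hx1 ?_, fun h => hx2 ?_⟩
          · funext v
            rcases v with v | v
            · exact congrFun h (.inl v)
            · exact congrFun h (.inr (.inl v))
          · funext v
            rcases v with v | v
            · exact congrFun h (.inl v)
            · exact congrFun h (.inr (.inl v))
        · refine ⟨fun h => hy1 ?_, fun h => hy2 ?_⟩
          · funext v
            rcases v with v | v
            · exact congrFun h (.inl v)
            · exact congrFun h (.inr (.inr v))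
          · funext v
            rcases v with v | v
            · exact congrFun h (.inl v)
            · exact congrFun h (.inr (.inr v))
    · rintro z hz ⟨y, ⟨hy1, hy2⟩, rfl⟩
      obtain ⟨w, x, ⟨hx1, hx2⟩, he⟩ := Set.mem_iUnion.1 hz
      have e1 : x (.inl ()) = y (.inl ()) := congrFun he (.inl ())
      have e2 : ∀ a, x (.inr a) = y (.inl ()) := fun a => congrFun he (.inr (.inl a))
      cases hb : y (.inl ())
      · apply hx1
        funext v
        rcases v with v | v
        · rw [show v = () from rfl, e1, hb]
        · rw [e2, hb]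
      · apply hx2
        funext v
        rcases v with v | v
        · rw [show v = () from rfl, e1, hb]
        · rw [e2, hb]
  · rintro w w' z ⟨x, -, rfl⟩ ⟨x', -, h⟩
    funext c
    exact (congrFun h (.inr (.inr c))).symm

end Pool.Agent.W2helper85.Lonc
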