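import Pool.Agent.W2helper85.Lonc1

set_option autoImplicit false

namespace Pool.Agent.W2helper85.Lonc

/-- The data of one block: a bounded poset `B` with a family `T` of disjoint copies of `P`, such
that every element lies below or above a two-chain of covered elements. Everything is stated with
explicit relations, so that the dual is immediate. -/
structure World (P B ι : Type) where
  rP : P → P → Prop
  rB : B → B → Prop
  rE : Bool → Bool → Prop
  el : Bool
  eh : Bool
  bot : B
  top : B
  T : ι → P → B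
  P_refl : ∀ a, rP a a
  P_trans : ∀ a b c, rP a b → rP b c → rP a c
  P_anti : ∀ a b, rP a b → rP b a → a = b
  B_refl : ∀ a, rB a a
  B_trans : ∀ a b c, rB a b → rB b c → rB a c
  B_anti : ∀ a b, rB a b → rB b a → a = b
  E_refl : ∀ e, rE e e
  E_lh : rE el eh
  E_hl : ¬ rE eh el
  T_le : ∀ i a b, rB (T i a) (T i b) ↔ rP a b
  T_inj : ∀ i a j b, T i a = T j b → i = j ∧ a = b
  bot_le : ∀ b, rB bot b
  le_top : ∀ b, rB b top
  bot_ne : ∀ i a, T i a ≠ bot
  top_ne : ∀ i a, T i a ≠ top
  bt : bot ≠ top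
  good : ∀ u, (∃ i a j b, rB u (T i a) ∧ rB (T i a) (T j b) ∧ ¬ rB (T j b) (T i a)) ∨
     (∃ i a j b, rB (T i a) u ∧ rB (T j b) (T i a) ∧ ¬ rB (T i a) (T j b))

namespace World

variable {P B ι : Type}

/-- the dual world -/
def dual (W : World P B ι) : World P B ι where
  rP := fun a b => W.rP b a
  rB := fun a b => W.rB b a
  rE := fun a b => W.rE b a
  el := W.eh
  eh := W.el
  bot := W.top
  top := W.bot
  T := W.T
  P_refl := W.P_refl
  P_trans := fun a b c h h' => W.P_trans c b a h' h
  P_anti := fun a b h h' => W.P_anti a b h' h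
  B_refl := W.B_refl
  B_trans := fun a b c h h' => W.B_trans c b a h' h
  B_anti := fun a b h h' => W.B_anti a b h' h
  E_refl := W.E_refl
  E_lh := W.E_lh
  E_hl := W.E_hl
  T_le := fun i a b => W.T_le i b a
  T_inj := W.T_inj
  bot_le := W.le_top
  le_top := W.bot_le
  bot_ne := W.top_ne
  top_ne := W.bot_ne
  bt := W.bt.symm
  good := fun u => (W.good u).symm

/-- `u` lies below a two-chain of covered elements -/
def Up (W : World P B ι) (u : B) : Prop :=
  ∃ i a j b, W.rB u (W.T i a) ∧ W.rB (W.T i a) (W.T j b) ∧ ¬ W.rB (W.T j b) (W.T i a)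

theorem up_or (W : World P B ι) (u : B) : W.Up u ∨ W.dual.Up u := W.good u

/-- `b` is uncovered -/
def Q (W : World P B ι) (b : B) : Prop := ∀ i a, W.T i a ≠ b

theorem Q_bot (W : World P B ι) : W.Q W.bot := W.bot_ne

theorem Q_top (W : World P B ι) : W.Q W.top := W.top_ne

theorem el_ne_eh (W : World P B ι) : W.el ≠ W.eh := fun h => W.E_hl (h ▸ W.E_refl _)

theorem E_cases (W : World P B ι) (e : Bool) : e = W.el ∨ e = W.eh := by
  have := W.el_ne_eh
  revert this
  cases e <;> cases W.el <;> cases W.eh <;> simp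

/-- the product relation on `Bool × (I → B)` -/
def rZ {I : Type} (W : World P B ι) (z w : Bool × (I → B)) : Prop :=
  W.rE z.1 w.1 ∧ ∀ i, W.rB (z.2 i) (w.2 i)

theorem rZ_refl {I : Type} (W : World P B ι) (z : Bool × (I → B)) : W.rZ z z :=
  ⟨W.E_refl _, fun _ => W.B_refl _⟩

theorem tile_of_dual {I : Type} (W : World P B ι) {S : Set (Bool × (I → B))}
    (h : Tile W.dual.rP W.dual.rZ S) : Tile W.rP W.rZ S :=
  Tile.dual h

end World

section Col

variable {P B ι I : Type} [Fintype I] [DecidableEq I] [Inhabited I]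

open Classical in
/-- the set of covered blocks -/
noncomputable def Xs (T : ι → P → B) (x : I → B) : Finset I :=
  Finset.univ.filter (fun i => ∃ q : ι × P, T q.1 q.2 = x i)

omit [DecidableEq I] [Inhabited I] in
theorem mem_Xs {T : ι → P → B} {x : I → B} {i : I} :
    i ∈ Xs T x ↔ ∃ q : ι × P, T q.1 q.2 = x i := by
  simp [Xs]

open Classical in
/-- a choice of a block -/
noncomputable def dl (F : Finset I) : I := if h : F.Nonempty then h.choose else default

omit [Fintype I] [DecidableEq I] in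
theorem dl_mem {F : Finset I} (h : F.Nonempty) : dl F ∈ F := by
  rw [dl, dif_pos h]; exact h.choose_spec

/-- a set which is a union of main columns -/
def ColClosed (T : ι → P → B) (M : Set (Bool × (I → B))) : Prop :=
  ∀ z ∈ M, (Xs T z.2).Nonempty ∧ ∀ l c c', z.2 (dl (Xs T z.2)) = T l c →
    (z.1, Function.update z.2 (dl (Xs T z.2)) (T l c')) ∈ M

omit [Inhabited I] in
theorem Xs_update {T : ι → P → B} {x : I → B} {i : I} (hi : i ∈ Xs T x) (l : ι) (c : P) :
    Xs T (Function.update x i (T l c)) = Xs T x := by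
  ext j
  rw [mem_Xs, mem_Xs]
  by_cases h : j = i
  · subst h
    rw [Function.update_self]
    constructor
    · intro _; exact mem_Xs.1 hi
    · intro _; exact ⟨(l, c), rfl⟩
  · rw [Function.update_of_ne h]

theorem ColClosed.tile (W : World P B ι) [Nonempty P] {M : Set (Bool × (I → B))}
    (hM : ColClosed W.T M) : Tile W.rP W.rZ M := by
  obtain ⟨c0⟩ := ‹Nonempty P›
  refine ⟨{q : (Bool × (I → B)) × ι // q.1 ∈ M ∧ q.1.2 (dl (Xs W.T q.1.2)) = W.T q.2 c0},
    fun q a => (q.1.1.1, Function.update q.1.1.2 (dl (Xs W.T q.1.1.2)) (W.T q.1.2 a)),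
    ?_, ?_, ?_⟩
  · rintro ⟨⟨⟨e, x⟩, l⟩, hq, hl⟩ a b
    simp only [World.rZ]
    constructor
    · rintro ⟨-, h⟩
      have := h (dl (Xs W.T x))
      rw [Function.update_self, Function.update_self, W.T_le] at this
      exact this
    · intro h
      refine ⟨W.E_refl _, fun i => ?_⟩
      by_cases hi : i = dl (Xs W.T x)
      · rw [hi, Function.update_self, Function.update_self, W.T_le]; exact h
      · rw [Function.update_of_ne hi, Function.update_of_ne hi]; exact W.B_refl _
  · rintro ⟨⟨⟨e, x⟩, l⟩, hq, hl⟩ a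
    exact (hM _ hq).2 l c0 a hl
  · rintro ⟨e, x⟩ hz
    obtain ⟨hne, hcl⟩ := hM _ hz
    dsimp only at hne hcl
    obtain ⟨⟨l, c⟩, hlc⟩ := mem_Xs.1 (dl_mem hne)
    dsimp only at hlc
    have hmem := hcl l c c0 hlc.symm
    have hX : Xs W.T (Function.update x (dl (Xs W.T x)) (W.T l c0)) = Xs W.T x :=
      Xs_update (dl_mem hne) l c0
    refine ⟨(⟨((e, Function.update x (dl (Xs W.T x)) (W.T l c0)), l), hmem, ?_⟩, c), ?_, ?_⟩
    · dsimp only
      rw [hX, Function.update_self]
    · dsimp only
      rw [hX]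
      simp [hlc]
    · rintro ⟨⟨⟨⟨e', x'⟩, l'⟩, hz', hl'⟩, c'⟩ h
      dsimp only at h hl' hz'
      rw [Prod.mk.injEq] at h
      obtain ⟨rfl, h⟩ := h
      have hne' := (hM _ hz').1
      dsimp only at hne'
      have hX' : Xs W.T x = Xs W.T x' := by
        rw [← h]; exact Xs_update (dl_mem hne') l' c'
      have h1 : W.T l' c' = W.T l c := by
        rw [hlc, hX', ← h, Function.update_self]
      obtain ⟨rfl, rfl⟩ := W.T_inj _ _ _ _ h1
      have h2 : Function.update x (dl (Xs W.T x)) (W.T l' c0) = x' := by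
        funext i
        by_cases hi : i = dl (Xs W.T x)
        · rw [hi, Function.update_self, hX', hl']
        · rw [Function.update_of_ne hi, ← h, ← hX', Function.update_of_ne hi]
      subst h2
      rfl

theorem ColClosed.compl {T : ι → P → B} {M : Set (Bool × (I → B))} (hM : ColClosed T M) :
    ColClosed T {z | (Xs T z.2).Nonempty ∧ z ∉ M} := by
  rintro ⟨e, x⟩ ⟨hne, hz⟩
  dsimp only at hne
  refine ⟨hne, fun l c c' hlc => ?_⟩
  dsimp only at hlc ⊢
  have hX := Xs_update (T := T) (dl_mem hne) l c'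
  refine ⟨by dsimp only; rw [hX]; exact hne, fun hmem => hz ?_⟩
  have := (hM _ hmem).2 l c' c (by dsimp only; rw [hX, Function.update_self])
  dsimp only at this
  rw [hX, Function.update_idem, ← hlc, Function.update_eq_self] at this
  exact this

theorem ColClosed.union {T : ι → P → B} {M M' : Set (Bool × (I → B))} (hM : ColClosed T M)
    (hM' : ColClosed T M') : ColClosed T (M ∪ M') := by
  rintro z (hz | hz)
  · exact ⟨(hM z hz).1, fun l c c' h => Or.inl ((hM z hz).2 l c c' h)⟩
  · exact ⟨(hM' z hz).1, fun l c c' h => Or.inr ((hM' z hz).2 l c c' h)⟩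

theorem ColClosed.iUnion {J : Type} {T : ι → P → B} {M : J → Set (Bool × (I → B))}
    (hM : ∀ j, ColClosed T (M j)) : ColClosed T (⋃ j, M j) := by
  intro z hz
  obtain ⟨j, hj⟩ := Set.mem_iUnion.1 hz
  exact ⟨(hM j z hj).1, fun l c c' h => Set.mem_iUnion.2 ⟨j, (hM j z hj).2 l c c' h⟩⟩

end Col

end Pool.Agent.W2helper85.Lonc
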