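import Pool.Agent.W2helper85.Lonc2

set_option autoImplicit false

namespace Pool.Agent.W2helper85.Lonc

variable {P B ι I : Type}

/-- active pattern coordinates -/
def act (W : World P B ι) (a j : P) : P ⊕ P → Prop
  | Sum.inl a' => W.rP a' a
  | Sum.inr j' => W.rP j' j

def high (W : World P B ι) (j0 j : P) : Prop := j ≠ j0 ∧ W.rP j0 j

/-- the data of a cube gadget -/
structure Cube (P B ι I : Type) where
  F : Finset I
  dir : I
  l0 : ι
  c0 : P
  j0 : P
  lo : I → B
  hi : I → B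
  κl : I → B
  κh : I → B
  ψ : P ⊕ P → I

structure Cube.Valid (W : World P B ι) (C : Cube P B ι I) : Prop where
  dirF : C.dir ∈ C.F
  ψF : ∀ w, C.ψ w ∈ C.F
  ψd : ∀ w, C.ψ w ≠ C.dir
  ψi : Function.Injective C.ψ
  j0min : ∀ j, W.rP j C.j0 → j = C.j0
  lohi : ∀ i ∈ C.F, W.rB (C.lo i) (C.hi i)
  hilo : ∀ i ∈ C.F, ¬ W.rB (C.hi i) (C.lo i)
  loT : ∀ i ∈ C.F, ∃ q : ι × P, W.T q.1 q.2 = C.lo i
  hiT : ∀ i ∈ C.F, ∃ q : ι × P, W.T q.1 q.2 = C.hi i
  lodir : C.lo C.dir = W.T C.l0 C.c0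
  κQl : ∀ i, W.Q (C.κl i)
  κQh : ∀ i, W.Q (C.κh i)
  κlh : ∀ i, W.rB (C.κl i) (C.κh i)

open Classical in
noncomputable def Cube.Psi (W : World P B ι) (C : Cube P B ι I) (c a j : P) : Bool × (I → B) :=
  (if high W C.j0 j then W.eh else W.el,
   fun i => if i ∈ C.F then
      (if i = C.dir then W.T C.l0 c else
        if ∃ w, C.ψ w = i ∧ act W a j w then C.hi i else C.lo i)
    else if high W C.j0 j then C.κh i else C.κl i)

theorem high_mono {W : World P B ι} {j0 j j' : P} (hmin : ∀ j, W.rP j j0 → j = j0)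
    (h : high W j0 j) (hj : W.rP j j') : high W j0 j' := by
  refine ⟨?_, W.P_trans _ _ _ h.2 hj⟩
  rintro rfl
  exact h.1 (hmin _ hj)

theorem act_mono {W : World P B ι} {a j a' j' : P} {w : P ⊕ P} (ha : W.rP a a') (hj : W.rP j j')
    (h : act W a j w) : act W a' j' w := by
  cases w with
  | inl x => exact W.P_trans _ _ _ h ha
  | inr x => exact W.P_trans _ _ _ h hj

theorem Cube.Psi_act {W : World P B ι} {C : Cube P B ι I} (hC : C.Valid W) (c a j : P)
    (w : P ⊕ P) (h : act W a j w) : (C.Psi W c a j).2 (C.ψ w) = C.hi (C.ψ w) := by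
  simp only [Cube.Psi]
  rw [if_pos (hC.ψF w), if_neg (hC.ψd w), if_pos ⟨w, rfl, h⟩]

theorem Cube.Psi_nact {W : World P B ι} {C : Cube P B ι I} (hC : C.Valid W) (c a j : P)
    (w : P ⊕ P) (h : ¬ act W a j w) : (C.Psi W c a j).2 (C.ψ w) = C.lo (C.ψ w) := by
  simp only [Cube.Psi]
  rw [if_pos (hC.ψF w), if_neg (hC.ψd w), if_neg]
  rintro ⟨w', hw', h'⟩
  rw [hC.ψi hw'] at h'
  exact h h'

theorem Cube.Psi_dir {W : World P B ι} {C : Cube P B ι I} (hC : C.Valid W) (c a j : P) :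
    (C.Psi W c a j).2 C.dir = W.T C.l0 c := by
  simp only [Cube.Psi]
  rw [if_pos hC.dirF, if_true]

theorem Cube.Psi_le {W : World P B ι} {C : Cube P B ι I} (hC : C.Valid W)
    (c a j c' a' j' : P) : W.rZ (C.Psi W c a j) (C.Psi W c' a' j') ↔
      W.rP c c' ∧ W.rP a a' ∧ W.rP j j' := by
  constructor
  · rintro ⟨-, h⟩
    refine ⟨?_, ?_, ?_⟩
    · have := h C.dir
      rwa [Cube.Psi_dir hC, Cube.Psi_dir hC, W.T_le] at this
    · by_contra hn
      have := h (C.ψ (Sum.inl a))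
      rw [Cube.Psi_act hC _ _ _ _ (show act W a j (Sum.inl a) from W.P_refl a),
        Cube.Psi_nact hC _ _ _ _ (show ¬ act W a' j' (Sum.inl a) from hn)] at this
      exact hC.hilo _ (hC.ψF _) this
    · by_contra hn
      have := h (C.ψ (Sum.inr j))
      rw [Cube.Psi_act hC _ _ _ _ (show act W a j (Sum.inr j) from W.P_refl j),
        Cube.Psi_nact hC _ _ _ _ (show ¬ act W a' j' (Sum.inr j) from hn)] at this
      exact hC.hilo _ (hC.ψF _) this
  · rintro ⟨hc, ha, hj⟩
    refine ⟨?_, fun i => ?_⟩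
    · simp only [Cube.Psi]
      by_cases h : high W C.j0 j
      · rw [if_pos h, if_pos (high_mono hC.j0min h hj)]; exact W.E_refl _
      · rw [if_neg h]
        split_ifs
        · exact W.E_lh
        · exact W.E_refl _
    · simp only [Cube.Psi]
      by_cases hi : i ∈ C.F
      · rw [if_pos hi, if_pos hi]
        by_cases hd : i = C.dir
        · rw [if_pos hd, if_pos hd, W.T_le]; exact hc
        · rw [if_neg hd, if_neg hd]
          by_cases hw : ∃ w, C.ψ w = i ∧ act W a j w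
          · have hw' : ∃ w, C.ψ w = i ∧ act W a' j' w := by
              obtain ⟨w, h1, h2⟩ := hw
              exact ⟨w, h1, act_mono ha hj h2⟩
            rw [if_pos hw, if_pos hw']; exact W.B_refl _
          · rw [if_neg hw]
            split_ifs
            · exact hC.lohi i hi
            · exact W.B_refl _
      · rw [if_neg hi, if_neg hi]
        by_cases h : high W C.j0 j
        · rw [if_pos h, if_pos (high_mono hC.j0min h hj)]; exact W.B_refl _
        · rw [if_neg h]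
          split_ifs
          · exact hC.κlh i
          · exact W.B_refl _

/-- compatibility of a hole with a cube -/
structure Cube.Hole (W : World P B ι) (C : Cube P B ι I) (x : Bool × (I → B)) : Prop where
  hQ : ∀ i, W.Q (x.2 i)
  hu : ∀ i ∈ C.F, W.rB (x.2 i) (C.lo i)
  hh : ∀ i, i ∉ C.F → W.rB (x.2 i) (C.κh i)
  hE : W.rE x.1 W.eh
  hl : ¬ W.rE x.1 W.el ∨ ∃ i, i ∉ C.F ∧ ¬ W.rB (x.2 i) (C.κl i)

theorem Cube.hole_le {W : World P B ι} {C : Cube P B ι I} (hC : C.Valid W)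
    {x : Bool × (I → B)} (hx : C.Hole W x) (a j : P) (hj : j ≠ C.j0) :
    W.rZ x (C.Psi W C.c0 a j) ↔ W.rP C.j0 j := by
  by_cases hh : high W C.j0 j
  · refine ⟨fun _ => hh.2, fun _ => ⟨?_, fun i => ?_⟩⟩
    · simp only [Cube.Psi]; rw [if_pos hh]; exact hx.hE
    · simp only [Cube.Psi]
      by_cases hi : i ∈ C.F
      · rw [if_pos hi]
        by_cases hd : i = C.dir
        · rw [if_pos hd, ← hC.lodir, ← hd]; exact hx.hu i hi
        · rw [if_neg hd]
          split_ifs
          · exact W.B_trans _ _ _ (hx.hu i hi) (hC.lohi i hi)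
          · exact hx.hu i hi
      · rw [if_neg hi, if_pos hh]; exact hx.hh i hi
  · constructor
    · rintro ⟨h1, h2⟩
      exfalso
      simp only [Cube.Psi] at h1 h2
      rw [if_neg hh] at h1
      rcases hx.hl with h | ⟨i, hi, h⟩
      · exact h h1
      · have := h2 i
        rw [if_neg hi, if_neg hh] at this
        exact h this
    · intro h
      exact absurd ⟨hj, h⟩ hh

theorem Cube.not_le_hole {W : World P B ι} {C : Cube P B ι I} (hC : C.Valid W)
    {x : Bool × (I → B)} (hx : C.Hole W x) (a j : P) : ¬ W.rZ (C.Psi W C.c0 a j) x := by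
  rintro ⟨-, h⟩
  have h1 := h C.dir
  rw [Cube.Psi_dir hC, ← hC.lodir] at h1
  have h2 := hx.hu _ hC.dirF
  have := W.B_anti _ _ h1 h2
  rw [hC.lodir] at this
  exact hx.hQ _ _ _ this

theorem Cube.hole_ne {W : World P B ι} {C : Cube P B ι I} (hC : C.Valid W)
    {x : Bool × (I → B)} (hx : C.Hole W x) (c a j : P) : x ≠ C.Psi W c a j := by
  intro h
  have : x.2 C.dir = W.T C.l0 c := by rw [h]; exact Cube.Psi_dir hC c a j
  exact hx.hQ _ _ _ this.symm

theorem Cube.tile {W : World P B ι} {C : Cube P B ι I} (hC : C.Valid W)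
    (h : P → Bool × (I → B)) (hh : ∀ a, C.Hole W (h a)) (hinj : Function.Injective h) :
    Tile W.rP W.rZ ({z | ∃ c a j, C.Psi W c a j = z} ∪ {z | ∃ a, h a = z}) :=
  tile_gadget (C.Psi W) h C.c0 C.j0 (Cube.Psi_le hC) W.P_refl W.P_anti hC.j0min
    (fun a => W.rZ_refl _) (fun a j hj => Cube.hole_le hC (hh a) a j hj)
    (fun a j => Cube.not_le_hole hC (hh a) a j) hinj (fun a c b j => Cube.hole_ne hC (hh a) c b j)

section

variable [Fintype I] [DecidableEq I] [Inhabited I]

omit [DecidableEq I] [Inhabited I] in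
theorem Cube.Xs_Psi {W : World P B ι} {C : Cube P B ι I} (hC : C.Valid W) (c a j : P) :
    Xs W.T (C.Psi W c a j).2 = C.F := by
  ext i
  rw [mem_Xs]
  simp only [Cube.Psi]
  by_cases hi : i ∈ C.F
  · rw [if_pos hi]
    refine iff_of_true ?_ hi
    split_ifs
    · exact ⟨(C.l0, c), rfl⟩
    · exact hC.hiT i hi
    · exact hC.loT i hi
  · rw [if_neg hi]
    refine iff_of_false ?_ hi
    rintro ⟨q, hq⟩
    split_ifs at hq
    · exact hC.κQh i q.1 q.2 hq
    · exact hC.κQl i q.1 q.2 hq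

theorem Cube.colClosed {W : World P B ι} {C : Cube P B ι I} (hC : C.Valid W)
    (hdir : C.dir = dl C.F) : ColClosed W.T {z | ∃ c a j, C.Psi W c a j = z} := by
  rintro z ⟨c, a, j, rfl⟩
  have hX := Cube.Xs_Psi hC c a j
  refine ⟨by rw [hX]; exact ⟨_, hC.dirF⟩, fun l c1 c' h => ?_⟩
  rw [hX, ← hdir, Cube.Psi_dir hC] at h
  obtain ⟨rfl, rfl⟩ := W.T_inj _ _ _ _ h
  refine ⟨c', a, j, ?_⟩
  rw [hX, ← hdir]
  refine Prod.ext rfl ?_
  funext i
  by_cases hi : i = C.dir
  · subst hi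
    rw [Cube.Psi_dir hC]
    simp
  · dsimp only
    rw [Function.update_of_ne hi]
    simp only [Cube.Psi]
    rw [if_neg hi, if_neg hi]

end

end Pool.Agent.W2helper85.Lonc
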