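import Pool.Agent.W2helper85.Lonc3

set_option autoImplicit false

namespace Pool.Agent.W2helper85.Lonc

open Classical in
/-- Choice of private block sets, by Hall's theorem. -/
theorem select {𝒢 I B : Type} [Fintype I] [Fintype B]
    (s n0 : ℕ) (o : I) (U : 𝒢 → Finset I) (κl base : 𝒢 → I → B) (m : 𝒢 → I)
    (hbase : Function.Injective base)
    (hb : ∀ G i, i ≠ o → i ≠ m G → κl G i = base G i)
    (hU : ∀ G, n0 ≤ (U G).card) (b0 : B)
    (hD : Fintype.card I * Fintype.card B ^ (s + 2) ≤ n0.choose s) :
    ∃ F : 𝒢 → Finset I, (∀ G, F G ⊆ U G ∧ (F G).card = s) ∧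
      ∀ G G', F G = F G' → (∀ i, i ∉ F G → κl G i = κl G' i) → G = G' := by
  set mask : Finset I → (I → B) → (I → B) := fun F κ i => if i ∈ F then b0 else κ i with hmask
  set t : 𝒢 → Finset (Finset I × (I → B)) := fun G =>
    ((U G).powersetCard s).image (fun F => (F, mask F (κl G))) with ht
  have hall : ∀ A : Finset 𝒢, A.card ≤ (A.biUnion t).card := by
    intro A
    set D := Fintype.card I * Fintype.card B ^ (s + 2) with hDdef
    have hI : 0 < Fintype.card I := Fintype.card_pos_iff.2 ⟨o⟩
    have hBp : 0 < Fintype.card B := Fintype.card_pos_iff.2 ⟨b0⟩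
    have hDpos : 0 < D := Nat.mul_pos hI (pow_pos hBp _)
    have key : A.card * D ≤ (A.biUnion t).card * D := by
      refine Finset.card_mul_le_card_mul (fun G k => k ∈ t G) ?_ ?_
      · intro G hG
        have h1 : t G ⊆ Finset.bipartiteAbove (fun G k => k ∈ t G) (A.biUnion t) G := by
          intro k hk
          rw [Finset.mem_bipartiteAbove]
          exact ⟨Finset.mem_biUnion.2 ⟨G, hG, hk⟩, hk⟩
        refine le_trans ?_ (Finset.card_le_card h1)
        rw [ht]
        dsimp only
        rw [Finset.card_image_of_injective, Finset.card_powersetCard]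
        · exact hD.trans (Nat.choose_le_choose s (hU G))
        · intro F F' h
          exact (Prod.mk.inj h).1
      · rintro ⟨F, κ⟩ -
        set S := Finset.bipartiteBelow (fun G k => k ∈ t G) A (F, κ) with hS
        have hmem : ∀ G ∈ S, F ⊆ U G ∧ F.card = s ∧ mask F (κl G) = κ := by
          intro G hG
          rw [hS, Finset.mem_bipartiteBelow] at hG
          have h2 := hG.2
          rw [ht] at h2
          simp only [Finset.mem_image, Finset.mem_powersetCard, Prod.mk.injEq] at h2
          obtain ⟨F', ⟨h3, h4⟩, rfl, h5⟩ := h2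
          exact ⟨h3, h4, h5⟩
        rcases S.eq_empty_or_nonempty with he | ⟨G0, hG0⟩
        · rw [he]; simp
        · have hFs := (hmem G0 hG0).2.1
          have hcard : (Finset.univ : Finset (I × ({x // x ∈ F} → B) × B × B)).card = D := by
            rw [Finset.card_univ, Fintype.card_prod, Fintype.card_prod, Fintype.card_prod,
              Fintype.card_fun, Fintype.card_coe, hFs, hDdef]
            ring
          rw [← hcard]
          refine Finset.card_le_card_of_injOn
            (fun G => (m G, fun x => base G x.1, base G o, base G (m G)))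
            (fun G _ => Finset.mem_coe.2 (Finset.mem_univ _)) ?_
          intro G hG G' hG' h
          simp only [Prod.mk.injEq] at h
          obtain ⟨h1, h2, h3, h4⟩ := h
          apply hbase
          funext i
          by_cases hiF : i ∈ F
          · exact congrFun h2 ⟨i, hiF⟩
          · by_cases hio : i = o
            · rw [hio]; exact h3
            · by_cases him : i = m G
              · rw [him, h4, h1]
              · have e1 := congrFun ((hmem G hG).2.2.trans (hmem G' hG').2.2.symm) i
                simp only [hmask, if_neg hiF] at e1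
                rw [← hb G i hio him, ← hb G' i hio (h1 ▸ him), e1]
    exact Nat.le_of_mul_le_mul_right key hDpos
  obtain ⟨f, hf, hft⟩ := (Finset.all_card_le_biUnion_card_iff_exists_injective t).1 hall
  have hfm : ∀ G, (f G).1 ⊆ U G ∧ (f G).1.card = s ∧ (f G).2 = mask (f G).1 (κl G) := by
    intro G
    have h2 := hft G
    rw [ht] at h2
    simp only [Finset.mem_image, Finset.mem_powersetCard] at h2
    obtain ⟨F', ⟨h3, h4⟩, h5⟩ := h2
    rw [← h5]
    exact ⟨h3, h4, rfl⟩
  refine ⟨fun G => (f G).1, fun G => ⟨(hfm G).1, (hfm G).2.1⟩, fun G G' h1 h2 => hf ?_⟩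
  refine Prod.ext h1 ?_
  rw [(hfm G).2.2, (hfm G').2.2]
  funext i
  simp only [hmask]
  dsimp only at h1 h2
  rw [← h1]
  by_cases hi : i ∈ (f G).1
  · rw [if_pos hi, if_pos hi]
  · rw [if_neg hi, if_neg hi]; exact h2 i hi

end Pool.Agent.W2helper85.Lonc
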