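import Pool.Agent.W2helper85.Lonc4

set_option autoImplicit false

namespace Pool.Agent.W2helper85.Lonc

theorem exists_min {P : Type} [Finite P] [Nonempty P] (r : P → P → Prop)
    (htrans : ∀ a b c, r a b → r b c → r a c) (hanti : ∀ a b, r a b → r b a → a = b) :
    ∃ j0, ∀ j, r j j0 → j = j0 := by
  let r' : P → P → Prop := fun a b => r a b ∧ a ≠ b
  have : IsTrans P r' := ⟨by
    rintro a b c ⟨h1, h2⟩ ⟨h3, h4⟩
    refine ⟨htrans _ _ _ h1 h3, ?_⟩
    rintro rfl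
    exact h2 (hanti _ _ h1 h3)⟩
  have : Std.Irrefl r' := ⟨fun a h => h.2 rfl⟩
  have hwf : WellFounded r' := Finite.wellFounded_of_trans_of_irrefl r'
  refine ⟨hwf.min Set.univ Set.univ_nonempty, fun j hj => ?_⟩
  by_contra hne
  exact hwf.not_lt_min Set.univ (Set.mem_univ j) ⟨hj, hne⟩

theorem Cube.ne_of_Q {P B ι I : Type} {W : World P B ι} {C : Cube P B ι I} (hC : C.Valid W)
    {x : Bool × (I → B)} (hx : ∀ i, W.Q (x.2 i)) (c a j : P) : x ≠ C.Psi W c a j := by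
  intro h
  have : x.2 C.dir = W.T C.l0 c := by rw [h]; exact Cube.Psi_dir hC c a j
  exact hx _ _ _ this.symm

section

variable {P B ι I 𝒢 : Type} [Fintype P] [Fintype B] [Fintype I] [DecidableEq I] [Inhabited I]
  [Nonempty P]

omit [Fintype B] [Fintype I] in
open Classical in
theorem exists_cube (W : World P B ι) (F : Finset I) (hF : 2 * Fintype.card P + 1 ≤ F.card)
    (κl κh : I → B) (hκl : ∀ i, W.Q (κl i)) (hκh : ∀ i, W.Q (κh i))
    (hlh : ∀ i, W.rB (κl i) (κh i)) (hup : ∀ i ∈ F, W.Up (κl i)) :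
    ∃ C : Cube P B ι I, C.Valid W ∧ C.F = F ∧ C.dir = dl F ∧ C.κl = κl ∧ C.κh = κh ∧
      ∀ i ∈ F, W.rB (κl i) (C.lo i) := by
  have hne : F.Nonempty := Finset.card_pos.1 (by omega)
  have hdF := dl_mem hne
  obtain ⟨ia, aa, -⟩ := hup _ hdF
  have h1 : ∀ i, ∃ q q' : ι × P, i ∈ F → W.rB (κl i) (W.T q.1 q.2) ∧
      W.rB (W.T q.1 q.2) (W.T q'.1 q'.2) ∧ ¬ W.rB (W.T q'.1 q'.2) (W.T q.1 q.2) := by
    intro i
    by_cases hi : i ∈ F
    · obtain ⟨i1, a1, j1, b1, h⟩ := hup i hi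
      exact ⟨(i1, a1), (j1, b1), fun _ => h⟩
    · exact ⟨(ia, aa), (ia, aa), fun h => absurd h hi⟩
  choose q q' hqq using h1
  have hcard : Fintype.card (P ⊕ P) ≤ Fintype.card {x // x ∈ F.erase (dl F)} := by
    rw [Fintype.card_sum, Fintype.card_coe, Finset.card_erase_of_mem hdF]
    omega
  obtain ⟨ψ⟩ := Function.Embedding.nonempty_of_card_le hcard
  obtain ⟨j0, hj0⟩ := exists_min W.rP W.P_trans W.P_anti
  refine ⟨⟨F, dl F, (q (dl F)).1, (q (dl F)).2, j0, fun i => W.T (q i).1 (q i).2,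
    fun i => W.T (q' i).1 (q' i).2, κl, κh, fun w => (ψ w).1⟩, ?_, rfl, rfl, rfl, rfl,
    fun i hi => (hqq i hi).1⟩
  exact
    { dirF := hdF
      ψF := fun w => Finset.mem_of_mem_erase (ψ w).2
      ψd := fun w => Finset.ne_of_mem_erase (ψ w).2
      ψi := fun w w' h => ψ.injective (Subtype.ext h)
      j0min := hj0
      lohi := fun i hi => (hqq i hi).2.1
      hilo := fun i hi => (hqq i hi).2.2
      loT := fun i _ => ⟨q i, rfl⟩
      hiT := fun i _ => ⟨q' i, rfl⟩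
      lodir := rfl
      κQl := hκl
      κQh := hκh
      κlh := hlh }

theorem family
    (W : World P B ι) (s n0 : ℕ) (hs : 2 * Fintype.card P + 1 ≤ s)
    (hD : Fintype.card I * Fintype.card B ^ (s + 2) ≤ n0.choose s)
    (o : I) (U : 𝒢 → Finset I) (κl κh base : 𝒢 → I → B) (m : 𝒢 → I)
    (h : 𝒢 → P → Bool × (I → B))
    (hbase : Function.Injective base)
    (hb : ∀ G i, i ≠ o → i ≠ m G → κl G i = base G i)
    (hU : ∀ G, n0 ≤ (U G).card)
    (hQ : ∀ G a i, W.Q ((h G a).2 i)) (hκl : ∀ G i, W.Q (κl G i)) (hκh : ∀ G i, W.Q (κh G i))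
    (hlh : ∀ G i, W.rB (κl G i) (κh G i))
    (hag : ∀ G a, ∀ i ∈ U G, (h G a).2 i = κl G i)
    (hup : ∀ G, ∀ i ∈ U G, W.Up (κl G i))
    (hhi : ∀ G a i, i ∉ U G → W.rB ((h G a).2 i) (κh G i))
    (hE : ∀ G a, W.rE (h G a).1 W.eh)
    (hlow : ∀ G a, ¬ W.rE (h G a).1 W.el ∨ ∃ i, i ∉ U G ∧ ¬ W.rB ((h G a).2 i) (κl G i))
    (hinj : ∀ G a G' a', h G a = h G' a' → G = G' ∧ a = a')
    (hhl : ∀ G G' (F : Finset I), F ⊆ U G → F ⊆ U G' → (∀ i, i ∉ F → κh G i = κh G' i) →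
      ∀ i, i ∉ F → κl G i = κl G' i) :
    ∃ M : Set (Bool × (I → B)), ColClosed W.T M ∧ (∀ z ∈ M, (Xs W.T z.2).card = s) ∧
      Tile W.rP W.rZ (M ∪ {z | ∃ G a, h G a = z}) := by
  obtain ⟨F, hF, hFi⟩ := select s n0 o U κl base m hbase hb hU W.bot hD
  have hC : ∀ G, ∃ C : Cube P B ι I, C.Valid W ∧ C.F = F G ∧ C.dir = dl (F G) ∧ C.κl = κl G ∧
      C.κh = κh G ∧ ∀ i ∈ F G, W.rB (κl G i) (C.lo i) := by
    intro G
    exact exists_cube W (F G) (by rw [(hF G).2]; exact hs) (κl G) (κh G) (hκl G) (hκh G) (hlh G)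
      (fun i hi => hup G i ((hF G).1 hi))
  choose C hV hCF hCd hCl hCh hClo using hC
  have hhole : ∀ G a, (C G).Hole W (h G a) := by
    intro G a
    refine ⟨hQ G a, fun i hi => ?_, fun i hi => ?_, hE G a, ?_⟩
    · rw [hCF] at hi
      rw [hag G a i ((hF G).1 hi)]
      exact hClo G i hi
    · rw [hCh]
      by_cases hiU : i ∈ U G
      · rw [hag G a i hiU]; exact hlh G i
      · exact hhi G a i hiU
    · rcases hlow G a with h1 | ⟨i, h1, h2⟩
      · exact Or.inl h1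
      · refine Or.inr ⟨i, ?_, ?_⟩
        · rw [hCF]; exact fun h3 => h1 ((hF G).1 h3)
        · rw [hCl]; exact h2
  have hXs : ∀ G c a j, Xs W.T ((C G).Psi W c a j).2 = F G := by
    intro G c a j
    rw [Cube.Xs_Psi (hV G), hCF]
  refine ⟨⋃ G, {z | ∃ c a j, (C G).Psi W c a j = z}, ColClosed.iUnion fun G =>
    Cube.colClosed (hV G) (by rw [hCd, hCF]), ?_, ?_⟩
  · intro z hz
    obtain ⟨G, c, a, j, rfl⟩ := Set.mem_iUnion.1 hz
    rw [hXs]; exact (hF G).2
  · have := Tile.iUnion (J := 𝒢) (rP := W.rP) (r := W.rZ)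
      (fun G => {z | ∃ c a j, (C G).Psi W c a j = z} ∪ {z | ∃ a, h G a = z}) ?_ ?_
    · convert this using 1
      ext z
      simp only [Set.mem_union, Set.mem_iUnion, Set.mem_ofPred_eq]
      constructor
      · rintro (⟨G, h1⟩ | ⟨G, h1⟩)
        · exact ⟨G, Or.inl h1⟩
        · exact ⟨G, Or.inr h1⟩
      · rintro ⟨G, h1 | h1⟩
        · exact Or.inl ⟨G, h1⟩
        · exact Or.inr ⟨G, h1⟩
    · rintro G G' z (⟨c, a, j, rfl⟩ | ⟨a, rfl⟩) (⟨c', a', j', h'⟩ | ⟨a', h'⟩)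
      · have hFF : F G = F G' := by rw [← hXs G c a j, ← h', hXs]
        have h1 := congrArg Prod.fst h'
        have h2 := congrArg Prod.snd h'
        simp only [Cube.Psi] at h1 h2
        by_cases hj : high W (C G).j0 j
        · by_cases hj' : high W (C G').j0 j'
          · refine hFi G G' hFF (hhl G G' (F G) (hF G).1 (hFF ▸ (hF G').1) fun i hi => ?_)
            have h3 := congrFun h2 i
            rw [hCF, hCF, ← hFF, if_neg hi, if_neg hi, if_pos hj, if_pos hj', hCh, hCh] at h3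
            exact h3.symm
          · rw [if_pos hj, if_neg hj'] at h1
            exact absurd h1 W.el_ne_eh
        · by_cases hj' : high W (C G').j0 j'
          · rw [if_neg hj, if_pos hj'] at h1
            exact absurd h1.symm W.el_ne_eh
          · refine hFi G G' hFF fun i hi => ?_
            have h3 := congrFun h2 i
            rw [hCF, hCF, ← hFF, if_neg hi, if_neg hi, if_neg hj, if_neg hj', hCl, hCl] at h3
            exact h3.symm
      · exact absurd h' (Cube.ne_of_Q (hV G) (hQ G' a') _ _ _)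
      · exact absurd h'.symm (Cube.ne_of_Q (hV G') (hQ G a) _ _ _)
      · exact ((hinj _ _ _ _ h').1).symm
    · intro G
      exact Cube.tile (hV G) (h G) (hhole G) (fun a b hab => (hinj _ _ _ _ hab).2)

end

end Pool.Agent.W2helper85.Lonc
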