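import Pool.Agent.W2helper85.Lonc5

set_option autoImplicit false

namespace Pool.Agent.W2helper85.Lonc

open Classical in
theorem exists_labelling {β P : Type} [Fintype P] [Nonempty P] (A : Finset β)
    (hp : Fintype.card P ∣ A.card) :
    ∃ (lab : β → P) (rl : β → P → β), ∀ q ∈ A,
      (∀ a, rl q a ∈ A ∧ lab (rl q a) = a ∧ ∀ b, rl (rl q a) b = rl q b) ∧ rl q (lab q) = q := by
  obtain ⟨k, hk⟩ := hp
  have hc : Fintype.card {x // x ∈ A} = Fintype.card (Fin k × P) := by
    rw [Fintype.card_coe, hk, Fintype.card_prod, Fintype.card_fin, mul_comm]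
  let e := Fintype.equivOfCardEq hc
  obtain ⟨p0⟩ := ‹Nonempty P›
  refine ⟨fun q => if h : q ∈ A then (e ⟨q, h⟩).2 else p0,
    fun q a => if h : q ∈ A then (e.symm ((e ⟨q, h⟩).1, a)).1 else q, fun q hq => ⟨fun a => ?_, ?_⟩⟩
  · dsimp only
    rw [dif_pos hq]
    have hm : (e.symm ((e ⟨q, hq⟩).1, a)).1 ∈ A := (e.symm ((e ⟨q, hq⟩).1, a)).2
    refine ⟨hm, ?_, fun b => ?_⟩
    · rw [dif_pos hm]
      simp
    · rw [dif_pos hm, dif_pos hq]
      simp
  · dsimp only
    rw [dif_pos hq, dif_pos hq]
    simp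

section

variable {B : Type} {f : ℕ}

open Classical in
/-- the leading block: the least nonzero index with `x i ≠ bot`, or `0` -/
noncomputable def mI (bot : B) (x : Fin (f + 1) → B) : Fin (f + 1) :=
  if h : (Finset.univ.filter fun i : Fin (f + 1) => i ≠ 0 ∧ x i ≠ bot).Nonempty then
    (Finset.univ.filter fun i : Fin (f + 1) => i ≠ 0 ∧ x i ≠ bot).min' h else 0

theorem mI_spec {bot : B} {x : Fin (f + 1) → B} (h : mI bot x ≠ 0) :
    x (mI bot x) ≠ bot ∧ ∀ i, i ≠ 0 → i < mI bot x → x i = bot := by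
  classical
  unfold mI at h ⊢
  split_ifs at h ⊢ with h1
  · have h2 := Finset.min'_mem _ h1
    rw [Finset.mem_filter] at h2
    refine ⟨h2.2.2, fun i hi hlt => ?_⟩
    by_contra hne
    have h3 := Finset.min'_le (Finset.univ.filter fun i : Fin (f + 1) => i ≠ 0 ∧ x i ≠ bot) i
      (by rw [Finset.mem_filter]; exact ⟨Finset.mem_univ _, hi, hne⟩)
    exact absurd hlt (not_lt.2 h3)
  · exact absurd rfl h

theorem mI_zero {bot : B} {x : Fin (f + 1) → B} (h : mI bot x = 0) : ∀ i, i ≠ 0 → x i = bot := by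
  classical
  intro i hi
  by_contra hne
  unfold mI at h
  have h1 : (Finset.univ.filter fun i : Fin (f + 1) => i ≠ 0 ∧ x i ≠ bot).Nonempty :=
    ⟨i, by rw [Finset.mem_filter]; exact ⟨Finset.mem_univ _, hi, hne⟩⟩
  rw [dif_pos h1] at h
  have h2 := Finset.min'_mem _ h1
  rw [Finset.mem_filter] at h2
  exact h2.2.1 h

theorem mI_eq {bot : B} {x : Fin (f + 1) → B} {i : Fin (f + 1)} (h0 : i ≠ 0) (h1 : x i ≠ bot)
    (h2 : ∀ j, j ≠ 0 → j < i → x j = bot) : mI bot x = i := by
  have hne : mI bot x ≠ 0 := fun h => h1 (mI_zero h i h0)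
  obtain ⟨h3, h4⟩ := mI_spec hne
  rcases lt_trichotomy (mI bot x) i with h | h | h
  · exact absurd (h2 _ hne h) h3
  · exact h
  · exact absurd (h4 _ h0 h) h1

theorem mI_eq_zero {bot : B} {x : Fin (f + 1) → B} (h : ∀ i, i ≠ 0 → x i = bot) :
    mI bot x = 0 := by
  by_contra hne
  exact (mI_spec hne).1 (h _ hne)

/-- the holes of the lower half -/
def HoleP (Qp : B → Prop) (bot : B) (Ex : B → Prop) (x : Fin (f + 1) → B) : Prop :=
  (∀ i, Qp (x i)) ∧ (mI bot x = 0 → x 0 ≠ bot ∧ ¬ Ex (x 0))

open Classical in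
theorem exists_rel {P : Type} [Fintype B] [Fintype P] [Nonempty P] (Qp : B → Prop) (bot : B)
    (Ex : B → Prop)
    (h1 : Fintype.card P ∣ (Finset.univ.filter fun b : B => Qp b ∧ b ≠ bot ∧ ¬ Ex b).card)
    (h2 : Fintype.card P ∣
      (Finset.univ.filter fun q : B × B => Qp q.1 ∧ q.1 ≠ bot ∧ Qp q.2).card) :
    ∃ (lab : (Fin (f + 1) → B) → P) (rel : (Fin (f + 1) → B) → P → (Fin (f + 1) → B)),
      ∀ x, HoleP Qp bot Ex x →
        (∀ a, HoleP Qp bot Ex (rel x a) ∧ mI bot (rel x a) = mI bot x ∧ lab (rel x a) = a ∧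
          (∀ b, rel (rel x a) b = rel x b) ∧ ∀ i, i ≠ 0 → i ≠ mI bot x → rel x a i = x i) ∧
        rel x (lab x) = x := by
  obtain ⟨lab1, rl1, hl1⟩ := exists_labelling _ h1
  obtain ⟨lab2, rl2, hl2⟩ := exists_labelling _ h2
  simp only [Finset.mem_filter, Finset.mem_univ, true_and] at hl1 hl2
  refine ⟨fun x => if mI bot x = 0 then lab1 (x 0) else lab2 (x (mI bot x), x 0),
    fun x a => if mI bot x = 0 then Function.update x 0 (rl1 (x 0) a) else
      Function.update (Function.update x (mI bot x) (rl2 (x (mI bot x), x 0) a).1) 0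
        (rl2 (x (mI bot x), x 0) a).2, ?_⟩
  rintro x ⟨hQ, hx0⟩
  dsimp only
  by_cases hm : mI bot x = 0
  · have hz := mI_zero hm
    obtain ⟨e1, e2⟩ := hx0 hm
    obtain ⟨h3, h4⟩ := hl1 (x 0) ⟨hQ 0, e1, e2⟩
    simp only [if_pos hm]
    refine ⟨fun a => ?_, ?_⟩
    · obtain ⟨⟨g1, g2, g3⟩, g4, g5⟩ := h3 a
      have hm' : mI bot (Function.update x 0 (rl1 (x 0) a)) = 0 :=
        mI_eq_zero fun i hi => by rw [Function.update_of_ne hi]; exact hz i hi
      simp only [if_pos hm', Function.update_self]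
      refine ⟨⟨fun i => ?_, fun _ => ?_⟩, hm'.trans hm.symm, g4, fun b => ?_, fun i hi _ => ?_⟩
      · by_cases hi : i = 0
        · rw [hi, Function.update_self]; exact g1
        · rw [Function.update_of_ne hi]; exact hQ i
      · rw [Function.update_self]; exact ⟨g2, g3⟩
      · rw [g5, Function.update_idem]
      · rw [Function.update_of_ne hi]
    · rw [h4, Function.update_eq_self]
  · obtain ⟨e1, e2⟩ := mI_spec hm
    obtain ⟨h3, h4⟩ := hl2 (x (mI bot x), x 0) ⟨hQ _, e1, hQ 0⟩
    simp only [if_neg hm]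
    refine ⟨fun a => ?_, ?_⟩
    · obtain ⟨⟨g1, g2, g3⟩, g4, g5⟩ := h3 a
      set q := rl2 (x (mI bot x), x 0) a with hq
      have hval : ∀ i, Function.update (Function.update x (mI bot x) q.1) 0 q.2 i =
          if i = 0 then q.2 else if i = mI bot x then q.1 else x i := by
        intro i
        by_cases h0 : i = 0
        · rw [if_pos h0, h0, Function.update_self]
        · rw [if_neg h0, Function.update_of_ne h0]
          by_cases h0' : i = mI bot x
          · rw [if_pos h0', h0', Function.update_self]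
          · rw [if_neg h0', Function.update_of_ne h0']
      have hm' : mI bot (Function.update (Function.update x (mI bot x) q.1) 0 q.2) = mI bot x := by
        refine mI_eq hm ?_ ?_
        · rw [hval, if_neg hm, if_pos rfl]; exact g2
        · intro j hj hlt
          rw [hval, if_neg hj, if_neg (ne_of_lt hlt)]; exact e2 j hj hlt
      rw [hm']
      simp only [if_neg hm]
      refine ⟨⟨fun i => ?_, fun h => absurd (hm'.symm.trans h) hm⟩, trivial, ?_, fun b => ?_,
        fun i hi hi' => ?_⟩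
      · rw [hval]
        split_ifs
        · exact g3
        · exact g1
        · exact hQ i
      · rw [hval, if_neg hm, if_pos rfl, hval, if_pos rfl]; exact g4
      · rw [hval (mI bot x), if_neg hm, if_pos rfl, hval 0, if_pos rfl]
        have g6 : rl2 (q.1, q.2) b = rl2 (x (mI bot x), x 0) b := g5 b
        rw [g6]
        funext i
        by_cases h0 : i = 0
        · rw [h0, Function.update_self, Function.update_self]
        · rw [Function.update_of_ne h0, Function.update_of_ne h0]
          by_cases h0' : i = mI bot x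
          · rw [h0', Function.update_self, Function.update_self]
          · rw [Function.update_of_ne h0', Function.update_of_ne h0', Function.update_of_ne h0,
              Function.update_of_ne h0']
      · rw [hval, if_neg hi, if_neg hi']
    · rw [h4]
      simp

end

end Pool.Agent.W2helper85.Lonc
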