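import Pool.Agent.W2helper85.Lonc6

set_option autoImplicit false

namespace Pool.Agent.W2helper85.Lonc

open Classical in
/-- All holes of the lower half can be absorbed. -/
theorem half {P B ι : Type} [Fintype P] [Fintype B] [Nonempty P] {f : ℕ} (W : World P B ι)
    (s n0 : ℕ) (hs : 2 * Fintype.card P + 1 ≤ s) (hn0 : 2 * n0 ≤ f)
    (hD : (f + 1) * Fintype.card B ^ (s + 2) ≤ n0.choose s)
    (hD' : (f + 1) * Fintype.card B ^ (s + 1 + 2) ≤ n0.choose (s + 1))
    (Ex : B → Prop)
    (h1 : Fintype.card P ∣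
      (Finset.univ.filter fun b : B => W.Q b ∧ b ≠ W.bot ∧ ¬ Ex b).card)
    (h2 : Fintype.card P ∣
      (Finset.univ.filter fun q : B × B => W.Q q.1 ∧ q.1 ≠ W.bot ∧ W.Q q.2).card) :
    ∃ M : Set (Bool × (Fin (f + 1) → B)), ColClosed W.T M ∧
      (∀ z ∈ M, (Xs W.T z.2).card = s ∨ (Xs W.T z.2).card = s + 1) ∧
      Tile W.rP W.rZ (M ∪ {z | z.1 = W.el ∧ HoleP W.Q W.bot Ex z.2}) := by
  obtain ⟨lab, rel, hrel⟩ := exists_rel (f := f) W.Q W.bot Ex h1 h2
  obtain ⟨a0⟩ := id ‹Nonempty P›
  set m : (Fin (f + 1) → B) → Fin (f + 1) := mI W.bot with hm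
  obtain ⟨Uu, hUu⟩ : ∃ U : (Fin (f + 1) → B) → Finset (Fin (f + 1)), ∀ x i,
      i ∈ U x ↔ i ≠ 0 ∧ i ≠ m x ∧ W.Up (x i) :=
    ⟨fun x => Finset.univ.filter fun i => i ≠ 0 ∧ i ≠ m x ∧ W.Up (x i), fun x i => by simp⟩
  obtain ⟨Ud, hUd⟩ : ∃ U : (Fin (f + 1) → B) → Finset (Fin (f + 1)), ∀ x i,
      i ∈ U x ↔ i ≠ 0 ∧ i ≠ m x ∧ W.dual.Up (x i) :=
    ⟨fun x => Finset.univ.filter fun i => i ≠ 0 ∧ i ≠ m x ∧ W.dual.Up (x i), fun x i => by simp⟩
  have hcount : ∀ x, ¬ n0 ≤ (Uu x).card → n0 ≤ (Ud x).card := by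
    intro x hx
    by_contra hx'
    have hsub : (Finset.univ \ {0, m x} : Finset (Fin (f + 1))) ⊆ Uu x ∪ Ud x := by
      intro i hi
      simp only [Finset.mem_sdiff, Finset.mem_univ, true_and, Finset.mem_insert,
        Finset.mem_singleton, not_or] at hi
      rw [Finset.mem_union, hUu, hUd]
      rcases W.up_or (x i) with h | h
      · exact Or.inl ⟨hi.1, hi.2, h⟩
      · exact Or.inr ⟨hi.1, hi.2, h⟩
    have h3 := Finset.card_le_card hsub
    have h4 := Finset.card_union_le (Uu x) (Ud x)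
    have h5 : (Finset.univ \ {0, m x} : Finset (Fin (f + 1))).card + 2 ≥ f + 1 := by
      have h6 := Finset.le_card_sdiff ({0, m x} : Finset (Fin (f + 1))) Finset.univ
      have h7 : ({0, m x} : Finset (Fin (f + 1))).card ≤ 2 := Finset.card_le_two
      rw [Finset.card_univ, Fintype.card_fin] at h6
      omega
    omega
  -- common facts on groups
  have hr_inj : ∀ x y : Fin (f + 1) → B, HoleP W.Q W.bot Ex x → HoleP W.Q W.bot Ex y →
      lab x = a0 → lab y = a0 → ∀ a b, rel x a = rel y b → x = y ∧ a = b := by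
    intro x y hx hy hlx hly a b hab
    obtain ⟨hx1, hx2⟩ := hrel x hx
    obtain ⟨hy1, hy2⟩ := hrel y hy
    obtain ⟨-, -, g1, g2, -⟩ := hx1 a
    obtain ⟨-, -, g3, g4, -⟩ := hy1 b
    have hab' : a = b := by rw [← g1, ← g3, hab]
    refine ⟨?_, hab'⟩
    have e1 := g2 a0
    have e2 := g4 a0
    rw [hab, e2] at e1
    rw [hlx] at hx2
    rw [hly] at hy2
    rw [hx2, hy2] at e1
    exact e1.symm
  -- up groups
  obtain ⟨M1, hM1, hM1c, hM1t⟩ := family
    (𝒢 := {x : Fin (f + 1) → B // HoleP W.Q W.bot Ex x ∧ lab x = a0 ∧ n0 ≤ (Uu x).card})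
    W s n0 hs (by rw [Fintype.card_fin]; exact hD) 0 (fun G => Uu G.1)
    (fun G i => if i = 0 ∨ i = m G.1 then W.bot else G.1 i)
    (fun G i => if i = 0 ∨ i = m G.1 then W.top else G.1 i)
    (fun G => G.1) (fun G => m G.1) (fun G a => (W.el, rel G.1 a))
    Subtype.val_injective
    (fun G i hi hi' => by
      try dsimp only
      rw [if_neg]
      rintro (h | h)
      · exact hi h
      · exact hi' h)
    (fun G => G.2.2.2)
    (fun G a => ((hrel G.1 G.2.1).1 a).1.1)
    (fun G i => by
      try dsimp only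
      split_ifs
      · exact W.Q_bot
      · exact G.2.1.1 i)
    (fun G i => by
      try dsimp only
      split_ifs
      · exact W.Q_top
      · exact G.2.1.1 i)
    (fun G i => by
      try dsimp only
      split_ifs
      · exact W.bot_le _
      · exact W.B_refl _)
    (fun G a i hi => by
      rw [hUu] at hi
      try dsimp only
      rw [if_neg (by rintro (h | h); exacts [hi.1 h, hi.2.1 h])]
      exact ((hrel G.1 G.2.1).1 a).2.2.2.2 i hi.1 hi.2.1)
    (fun G i hi => by
      rw [hUu] at hi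
      try dsimp only
      rw [if_neg (by rintro (h | h); exacts [hi.1 h, hi.2.1 h])]
      exact hi.2.2)
    (fun G a i _ => by
      try dsimp only
      split_ifs with h
      · exact W.le_top _
      · rw [not_or] at h
        rw [((hrel G.1 G.2.1).1 a).2.2.2.2 i h.1 h.2]
        exact W.B_refl _)
    (fun G a => W.E_lh)
    (fun G a => by
      right
      obtain ⟨⟨g1, g2⟩, g3, -, -, -⟩ := (hrel G.1 G.2.1).1 a
      by_cases h0 : m G.1 = 0
      · refine ⟨0, by rw [hUu]; simp, ?_⟩
        try dsimp only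
        rw [if_pos (Or.inl rfl)]
        intro h
        exact (g2 (g3.trans h0)).1 (W.B_anti _ _ h (W.bot_le _))
      · refine ⟨m G.1, by rw [hUu]; simp, ?_⟩
        try dsimp only
        rw [if_pos (Or.inr rfl)]
        intro h
        have h3 : m (rel G.1 a) ≠ 0 := by rw [g3]; exact h0
        have h4 : rel G.1 a (m (rel G.1 a)) ≠ W.bot := (mI_spec h3).1
        rw [g3] at h4
        exact h4 (W.B_anti _ _ h (W.bot_le _)))
    (fun G a G' a' h => by
      obtain ⟨e1, e2⟩ := hr_inj G.1 G'.1 G.2.1 G'.2.1 G.2.2.1 G'.2.2.1 a a' (Prod.mk.inj h).2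
      exact ⟨Subtype.ext e1, e2⟩)
    (fun G G' F hF hF' hh => by
      have hmm : m G.1 = m G'.1 := by
        by_contra hne
        have hmF : ∀ G : {x : Fin (f + 1) → B // HoleP W.Q W.bot Ex x ∧ lab x = a0 ∧
            n0 ≤ (Uu x).card}, F ⊆ Uu G.1 → m G.1 ∉ F := by
          intro G hF h
          have := hF h
          rw [hUu] at this
          exact this.2.1 rfl
        by_cases h0 : m G.1 = 0
        · have h0' : m G'.1 ≠ 0 := fun h => hne (h0.trans h.symm)
          have := hh _ (hmF G' hF')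
          try dsimp only at this
          rw [if_pos (Or.inr rfl), if_neg (by rintro (h | h); exacts [h0' h, hne h.symm]),
            mI_zero h0 _ h0'] at this
          exact W.bt this
        · by_cases h0' : m G'.1 = 0
          · have := hh _ (hmF G hF)
            try dsimp only at this
            rw [if_pos (Or.inr rfl), if_neg (by rintro (h | h); exacts [h0 h, hne h]),
              mI_zero h0' _ h0] at this
            exact W.bt this.symm
          · rcases lt_or_gt_of_ne hne with hlt | hlt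
            · have := hh _ (hmF G hF)
              try dsimp only at this
              rw [if_pos (Or.inr rfl), if_neg (by rintro (h | h); exacts [h0 h, hne h]),
                (mI_spec h0').2 _ h0 hlt] at this
              exact W.bt this.symm
            · have := hh _ (hmF G' hF')
              try dsimp only at this
              rw [if_pos (Or.inr rfl), if_neg (by rintro (h | h); exacts [h0' h, hne h.symm]),
                (mI_spec h0).2 _ h0' hlt] at this
              exact W.bt this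
      intro i hi
      have := hh i hi
      try dsimp only at this ⊢
      rw [← hmm] at this ⊢
      by_cases h : i = 0 ∨ i = m G.1
      · rw [if_pos h, if_pos h]
      · rw [if_neg h, if_neg h] at this ⊢
        exact this)
  -- down groups
  obtain ⟨M2, hM2, hM2c, hM2t⟩ := family
    (𝒢 := {x : Fin (f + 1) → B // HoleP W.Q W.bot Ex x ∧ lab x = a0 ∧ ¬ n0 ≤ (Uu x).card})
    W.dual (s + 1) n0 (by omega) (by rw [Fintype.card_fin]; exact hD') 0 (fun G => Ud G.1)
    (fun G i => if i = 0 ∨ i = m G.1 then W.bot else G.1 i)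
    (fun G i => if i = 0 ∨ i = m G.1 then W.bot else G.1 i)
    (fun G => G.1) (fun G => m G.1) (fun G a => (W.el, rel G.1 a))
    Subtype.val_injective
    (fun G i hi hi' => by
      try dsimp only
      rw [if_neg]
      rintro (h | h)
      · exact hi h
      · exact hi' h)
    (fun G => hcount _ G.2.2.2)
    (fun G a => ((hrel G.1 G.2.1).1 a).1.1)
    (fun G i => by
      try dsimp only
      split_ifs
      · exact W.Q_bot
      · exact G.2.1.1 i)
    (fun G i => by
      try dsimp only
      split_ifs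
      · exact W.Q_bot
      · exact G.2.1.1 i)
    (fun G i => W.dual.B_refl _)
    (fun G a i hi => by
      rw [hUd] at hi
      try dsimp only
      rw [if_neg (by rintro (h | h); exacts [hi.1 h, hi.2.1 h])]
      exact ((hrel G.1 G.2.1).1 a).2.2.2.2 i hi.1 hi.2.1)
    (fun G i hi => by
      rw [hUd] at hi
      try dsimp only
      rw [if_neg (by rintro (h | h); exacts [hi.1 h, hi.2.1 h])]
      exact hi.2.2)
    (fun G a i _ => by
      try dsimp only
      split_ifs with h
      · exact W.bot_le _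
      · rw [not_or] at h
        rw [((hrel G.1 G.2.1).1 a).2.2.2.2 i h.1 h.2]
        exact W.B_refl _)
    (fun G a => W.E_refl _)
    (fun G a => Or.inl W.E_hl)
    (fun G a G' a' h => by
      obtain ⟨e1, e2⟩ := hr_inj G.1 G'.1 G.2.1 G'.2.1 G.2.2.1 G'.2.2.1 a a' (Prod.mk.inj h).2
      exact ⟨Subtype.ext e1, e2⟩)
    (fun G G' F hF hF' hh => hh)
  have hM2t' := W.tile_of_dual hM2t
  have hQX : ∀ x : Fin (f + 1) → B, (∀ i, W.Q (x i)) → (Xs W.T x).card = 0 := by
    intro x hx
    rw [Finset.card_eq_zero, Finset.eq_empty_iff_forall_notMem]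
    intro i hi
    obtain ⟨q, hq⟩ := mem_Xs.1 hi
    exact hx i _ _ hq
  refine ⟨M1 ∪ M2, hM1.union hM2, ?_, ?_⟩
  · rintro z (hz | hz)
    · exact Or.inl (hM1c z hz)
    · exact Or.inr (hM2c z hz)
  · have := Tile.union ?_ hM1t hM2t'
    · convert this using 1
      ext ⟨e, y⟩
      simp only [Set.mem_union, Set.mem_ofPred_eq]
      constructor
      · rintro ((h | h) | ⟨h, hy⟩)
        · exact Or.inl (Or.inl h)
        · exact Or.inr (Or.inl h)
        · obtain ⟨g1, g2⟩ := hrel y hy
          obtain ⟨e1, e2, e3, e4, e5⟩ := g1 a0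
          by_cases hc : n0 ≤ (Uu (rel y a0)).card
          · refine Or.inl (Or.inr ⟨⟨rel y a0, e1, e3, hc⟩, lab y, ?_⟩)
            rw [h, e4, g2]
          · refine Or.inr (Or.inr ⟨⟨rel y a0, e1, e3, hc⟩, lab y, ?_⟩)
            rw [h, e4, g2]
      · rintro ((h | ⟨G, a, h⟩) | (h | ⟨G, a, h⟩))
        · exact Or.inl (Or.inl h)
        · obtain ⟨e1, e2⟩ := Prod.mk.inj h
          rw [← e1, ← e2]
          exact Or.inr ⟨rfl, ((hrel G.1 G.2.1).1 a).1⟩
        · exact Or.inl (Or.inr h)
        · obtain ⟨e1, e2⟩ := Prod.mk.inj h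
          rw [← e1, ← e2]
          exact Or.inr ⟨rfl, ((hrel G.1 G.2.1).1 a).1⟩
    · rintro z (hz | ⟨G, a, hz⟩) (hz' | ⟨G', a', hz'⟩)
      · have e1 := hM1c z hz
        have e2 := hM2c z hz'
        have e3 : (Xs W.T z.2).card = s + 1 := e2
        omega
      · have e1 := hM1c z hz
        rw [← hz', hQX _ ((hrel G'.1 G'.2.1).1 a').1.1] at e1
        omega
      · have e2 : (Xs W.T z.2).card = s + 1 := hM2c z hz'
        rw [← hz, hQX _ ((hrel G.1 G.2.1).1 a).1.1] at e2
        omega
      · have h := hz.trans hz'.symm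
        obtain ⟨e1, e2⟩ := hr_inj G.1 G'.1 G.2.1 G'.2.1 G.2.2.1 G'.2.2.1 a a' (Prod.mk.inj h).2
        exact G'.2.2.2 (e1 ▸ G.2.2.2)

end Pool.Agent.W2helper85.Lonc
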