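import Pool.Agent.W2helper85.Lonc7

set_option autoImplicit false

namespace Pool.Agent.W2helper85.Lonc

open Classical in
theorem full {P B ι : Type} [Fintype P] [Fintype B] [Nonempty P] {f : ℕ} (W : World P B ι)
    (s n0 : ℕ) (hs : 2 * Fintype.card P + 1 ≤ s) (hn0 : 2 * n0 ≤ f)
    (hD0 : (f + 1) * Fintype.card B ^ (s + 2) ≤ n0.choose s)
    (hD1 : (f + 1) * Fintype.card B ^ (s + 1 + 2) ≤ n0.choose (s + 1))
    (hD2 : (f + 1) * Fintype.card B ^ (s + 2 + 2) ≤ n0.choose (s + 2))
    (hD3 : (f + 1) * Fintype.card B ^ (s + 2 + 1 + 2) ≤ n0.choose (s + 2 + 1))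
    (y : P → B) (hy : ∀ a b, W.rB (y a) (y b) ↔ W.rP a b) (hyQ : ∀ a, W.Q (y a))
    (hyb : ∀ a, y a ≠ W.bot) (hyt : ∀ a, y a ≠ W.top)
    (Idn : P → Prop) (hIdn : ∀ a b, W.rP a b → Idn b → Idn a)
    (h1 : Fintype.card P ∣
      (Finset.univ.filter fun b : B => W.Q b ∧ b ≠ W.bot ∧ ¬ ∃ a, Idn a ∧ y a = b).card)
    (h1' : Fintype.card P ∣
      (Finset.univ.filter fun b : B => W.Q b ∧ b ≠ W.top ∧ ¬ ∃ a, ¬ Idn a ∧ y a = b).card)
    (h2 : Fintype.card P ∣
      (Finset.univ.filter fun q : B × B => W.Q q.1 ∧ q.1 ≠ W.bot ∧ W.Q q.2).card)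
    (h2' : Fintype.card P ∣
      (Finset.univ.filter fun q : B × B => W.Q q.1 ∧ q.1 ≠ W.top ∧ W.Q q.2).card) :
    Tile W.rP W.rZ {z : Bool × (Fin (f + 1) → B) | z ≠ (W.el, fun _ => W.bot) ∧
      z ≠ (W.eh, fun _ => W.top)} := by
  obtain ⟨M, hM, hMc, hMt⟩ := half (f := f) W s n0 hs hn0 hD0 hD1
    (fun b => ∃ a, Idn a ∧ y a = b) (by convert h1) (by convert h2)
  have h1'' : Fintype.card P ∣ (Finset.univ.filter fun b : B => W.dual.Q b ∧ b ≠ W.dual.bot ∧
      ¬ (fun b => ∃ a, ¬ Idn a ∧ y a = b) b).card := by
    have e : (Finset.univ.filter fun b : B => W.dual.Q b ∧ b ≠ W.dual.bot ∧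
      ¬ (fun b => ∃ a, ¬ Idn a ∧ y a = b) b) = 
      (Finset.univ.filter fun b : B => W.Q b ∧ b ≠ W.top ∧ ¬ ∃ a, ¬ Idn a ∧ y a = b) := by
      ext b; simp only [Finset.mem_filter]; exact Iff.rfl
    rw [e]; exact h1'
  have h2'' : Fintype.card P ∣ (Finset.univ.filter fun q : B × B => W.dual.Q q.1 ∧ 
      q.1 ≠ W.dual.bot ∧ W.dual.Q q.2).card := by
    have e : (Finset.univ.filter fun q : B × B => W.dual.Q q.1 ∧ 
      q.1 ≠ W.dual.bot ∧ W.dual.Q q.2) = 
      (Finset.univ.filter fun q : B × B => W.Q q.1 ∧ q.1 ≠ W.top ∧ W.Q q.2) := by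
      ext b; simp only [Finset.mem_filter]; exact Iff.rfl
    rw [e]; exact h2'
  obtain ⟨N, hN, hNc, hNt⟩ := half (f := f) W.dual (s + 2) n0 (by omega) hn0 hD2 hD3
    (fun b => ∃ a, ¬ Idn a ∧ y a = b) (by convert h1'') (by convert h2'')
  have hNt' := W.tile_of_dual hNt
  have hNc' : ∀ z ∈ N, (Xs W.T z.2).card = s + 2 ∨ (Xs W.T z.2).card = s + 2 + 1 := hNc
  have hNn : ColClosed W.T N := hN
  set Ex : B → Prop := fun b => ∃ a, Idn a ∧ y a = b with hEx
  set Ex' : B → Prop := fun b => ∃ a, ¬ Idn a ∧ y a = b with hEx'
  set Y : P → Bool × (Fin (f + 1) → B) := fun a =>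
    if Idn a then (W.el, Function.update (fun _ => W.bot) 0 (y a))
    else (W.eh, Function.update (fun _ => W.top) 0 (y a)) with hY
  have hQX : ∀ x : Fin (f + 1) → B, (∀ i, W.Q (x i)) → (Xs W.T x).card = 0 := by
    intro x hx
    rw [Finset.card_eq_zero, Finset.eq_empty_iff_forall_notMem]
    intro i hi
    obtain ⟨q, hq⟩ := mem_Xs.1 hi
    exact hx i _ _ hq
  have hYle : ∀ a b, W.rZ (Y a) (Y b) ↔ W.rP a b := by
    intro a b
    by_cases ha : Idn a
    · by_cases hb : Idn b
      · simp only [hY, if_pos ha, if_pos hb]
        constructor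
        · rintro ⟨-, h⟩
          have := h 0
          simp only [Function.update_self] at this
          exact (hy a b).1 this
        · intro h
          refine ⟨W.E_refl _, fun i => ?_⟩
          by_cases hi : i = 0
          · rw [hi]; simp only [Function.update_self]; exact (hy a b).2 h
          · simp only [Function.update_of_ne hi]; exact W.B_refl _
      · simp only [hY, if_pos ha, if_neg hb]
        constructor
        · rintro ⟨-, h⟩
          have := h 0
          simp only [Function.update_self] at this
          exact (hy a b).1 this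
        · intro h
          refine ⟨W.E_lh, fun i => ?_⟩
          by_cases hi : i = 0
          · rw [hi]; simp only [Function.update_self]; exact (hy a b).2 h
          · simp only [Function.update_of_ne hi]; exact W.bot_le _
    · by_cases hb : Idn b
      · simp only [hY, if_neg ha, if_pos hb]
        constructor
        · rintro ⟨h, -⟩
          exact absurd h W.E_hl
        · intro h
          exact absurd (hIdn _ _ h hb) ha
      · simp only [hY, if_neg ha, if_neg hb]
        constructor
        · rintro ⟨-, h⟩
          have := h 0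
          simp only [Function.update_self] at this
          exact (hy a b).1 this
        · intro h
          refine ⟨W.E_refl _, fun i => ?_⟩
          by_cases hi : i = 0
          · rw [hi]; simp only [Function.update_self]; exact (hy a b).2 h
          · simp only [Function.update_of_ne hi]; exact W.B_refl _
  have hYQ : ∀ a i, W.Q ((Y a).2 i) := by
    intro a i
    simp only [hY]
    split_ifs
    · by_cases hi : i = 0
      · rw [hi]; simp only [Function.update_self]; exact hyQ a
      · simp only [Function.update_of_ne hi]; exact W.Q_bot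
    · by_cases hi : i = 0
      · rw [hi]; simp only [Function.update_self]; exact hyQ a
      · simp only [Function.update_of_ne hi]; exact W.Q_top
  have hYinj : Function.Injective Y := by
    intro a b hab
    have e1 := (hYle a b).1 (hab ▸ W.rZ_refl _)
    have e2 := (hYle b a).1 (hab ▸ W.rZ_refl _)
    exact W.P_anti _ _ e1 e2
  have hYt : Tile W.rP W.rZ (Set.range Y) := Tile.single Y hYle hYinj
  have hR : Tile W.rP W.rZ {z : Bool × (Fin (f + 1) → B) | (Xs W.T z.2).Nonempty ∧ z ∉ M ∪ N} :=
    ColClosed.tile W (ColClosed.compl (hM.union hNn))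
  have hXb : ∀ x : Fin (f + 1) → B, (Xs W.T x).Nonempty → (Xs W.T x).card ≠ 0 :=
    fun x h h' => absurd (Finset.card_eq_zero.1 h') h.ne_empty
  have hD : W.dual.bot = W.top := rfl
  have key := Tile.union ?_ (Tile.union ?_ hMt hNt') (Tile.union ?_ hYt hR)
  · convert key using 1
    ext ⟨e, x⟩
    simp only [Set.mem_union, Set.mem_ofPred_eq, Set.mem_range]
    constructor
    · rintro ⟨hz1, hz2⟩
      by_cases hX : (Xs W.T x).Nonempty
      · by_cases hMz : (e, x) ∈ M
        · exact Or.inl (Or.inl (Or.inl hMz))
        · by_cases hNz : (e, x) ∈ N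
          · exact Or.inl (Or.inr (Or.inl hNz))
          · exact Or.inr (Or.inr ⟨hX, fun h => h.elim hMz hNz⟩)
      · have hQ : ∀ i, W.Q (x i) := by
          intro i j a h
          exact hX ⟨i, mem_Xs.2 ⟨(j, a), h⟩⟩
        rcases W.E_cases e with he | he
        · by_cases hH : HoleP W.Q W.bot Ex x
          · exact Or.inl (Or.inl (Or.inr ⟨he, hH⟩))
          · have h3 : ¬ (mI W.bot x = 0 → x 0 ≠ W.bot ∧ ¬ Ex (x 0)) := fun h => hH ⟨hQ, h⟩
            rw [Classical.not_imp] at h3
            obtain ⟨h4, h5⟩ := h3
            have h6 := mI_zero h4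
            have h7 : x 0 ≠ W.bot := by
              intro h7
              apply hz1
              rw [he]
              congr 1
              funext i
              by_cases hi : i = 0
              · rw [hi, h7]
              · exact h6 i hi
            have h8 : Ex (x 0) := by
              by_contra h8
              exact h5 ⟨h7, h8⟩
            obtain ⟨a, ha, hya⟩ := h8
            refine Or.inr (Or.inl ⟨a, ?_⟩)
            simp only [hY, if_pos ha]
            rw [he]
            congr 1
            funext i
            by_cases hi : i = 0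
            · rw [hi, Function.update_self, hya]
            · rw [Function.update_of_ne hi, h6 i hi]
        · by_cases hH : HoleP W.Q W.top Ex' x
          · exact Or.inl (Or.inr (Or.inr ⟨he, hH⟩))
          · have h3 : ¬ (mI W.top x = 0 → x 0 ≠ W.top ∧ ¬ Ex' (x 0)) := fun h => hH ⟨hQ, h⟩
            rw [Classical.not_imp] at h3
            obtain ⟨h4, h5⟩ := h3
            have h6 := mI_zero h4
            have h7 : x 0 ≠ W.top := by
              intro h7
              apply hz2
              rw [he]
              congr 1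
              funext i
              by_cases hi : i = 0
              · rw [hi, h7]
              · exact h6 i hi
            have h8 : Ex' (x 0) := by
              by_contra h8
              exact h5 ⟨h7, h8⟩
            obtain ⟨a, ha, hya⟩ := h8
            refine Or.inr (Or.inl ⟨a, ?_⟩)
            simp only [hY, if_neg ha]
            rw [he]
            congr 1
            funext i
            by_cases hi : i = 0
            · rw [hi, Function.update_self, hya]
            · rw [Function.update_of_ne hi, h6 i hi]
    · intro h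
      have hne : (Xs W.T x).card ≠ 0 → ¬(e, x) = (W.el, fun _ => W.bot) ∧
          ¬(e, x) = (W.eh, fun _ => W.top) := by
        intro hc
        constructor
        · intro h
          rw [(Prod.mk.inj h).2] at hc
          exact hc (hQX _ fun _ => W.Q_bot)
        · intro h
          rw [(Prod.mk.inj h).2] at hc
          exact hc (hQX _ fun _ => W.Q_top)
      rcases h with ((h | ⟨he, hH⟩) | (h | ⟨he, hH⟩)) | (⟨a, h⟩ | ⟨h, -⟩)
      · exact hne (by have := hMc _ h; dsimp only at this; omega)
      · refine ⟨fun h => ?_, fun h => ?_⟩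
        · rw [(Prod.mk.inj h).2] at hH
          exact (hH.2 (mI_eq_zero fun _ _ => rfl)).1 rfl
        · exact W.el_ne_eh (he.symm.trans (Prod.mk.inj h).1)
      · exact hne (by have := hNc' _ h; dsimp only at this; omega)
      · refine ⟨fun h => ?_, fun h => ?_⟩
        · exact W.el_ne_eh ((Prod.mk.inj h).1.symm.trans he)
        · rw [(Prod.mk.inj h).2] at hH
          exact (hH.2 (mI_eq_zero fun _ _ => rfl)).1 rfl
      · refine ⟨fun h' => ?_, fun h' => ?_⟩
        · rw [h'] at h
          simp only [hY] at h
          split_ifs at h with hI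
          · have := congrFun (Prod.mk.inj h).2 0
            rw [Function.update_self] at this
            exact hyb a this
          · exact W.el_ne_eh (Prod.mk.inj h).1.symm
        · rw [h'] at h
          simp only [hY] at h
          split_ifs at h with hI
          · exact W.el_ne_eh (Prod.mk.inj h).1
          · have := congrFun (Prod.mk.inj h).2 0
            rw [Function.update_self] at this
            exact hyt a this
      · exact hne (hXb _ h)
  · rintro ⟨e, x⟩ hz hz'
    simp only [Set.mem_union, Set.mem_ofPred_eq, Set.mem_range] at hz hz'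
    rcases hz' with ⟨a, h⟩ | ⟨h, hMN⟩
    · have h0 : (Xs W.T x).card = 0 := by
        rw [← (show (Y a).2 = x from congrArg Prod.snd h)]; exact hQX _ (hYQ a)
      rcases hz with (h' | ⟨he, hH⟩) | (h' | ⟨he, hH⟩)
      · have := hMc _ h'; dsimp only at this; omega
      · simp only [hY] at h
        split_ifs at h with hI
        · rw [← (Prod.mk.inj h).2] at hH
          have h4 := (hH.2 (mI_eq_zero fun i hi => by rw [Function.update_of_ne hi])).2
          apply h4
          rw [Function.update_self]
          exact ⟨a, hI, rfl⟩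
        · exact W.el_ne_eh (he.symm.trans (Prod.mk.inj h).1.symm)
      · have := hNc' _ h'; dsimp only at this; omega
      · simp only [hY] at h
        split_ifs at h with hI
        · exact W.el_ne_eh ((Prod.mk.inj h).1.trans he)
        · rw [← (Prod.mk.inj h).2] at hH
          have h4 := (hH.2 (mI_eq_zero fun i hi => by rw [Function.update_of_ne hi]; rfl)).2
          apply h4
          rw [Function.update_self]
          exact ⟨a, hI, rfl⟩
    · rcases hz with (h' | ⟨he, hH⟩) | (h' | ⟨he, hH⟩)
      · exact hMN (Or.inl h')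
      · exact hXb _ h (hQX _ hH.1)
      · exact hMN (Or.inr h')
      · exact hXb _ h (hQX _ hH.1)
  · rintro ⟨e, x⟩ hz hz'
    rcases hz with h | ⟨he, hH⟩ <;> rcases hz' with h' | ⟨he', hH'⟩
    · have e1 := hMc _ h
      have e2 := hNc' _ h'
      omega
    · have e1 := hMc _ h
      have e2 : (Xs W.T x).card = 0 := hQX _ hH'.1
      dsimp only at e1
      omega
    · have e1 := hNc' _ h'
      have e2 : (Xs W.T x).card = 0 := hQX _ hH.1
      dsimp only at e1
      omega
    · exact W.el_ne_eh (he.symm.trans he')
  · rintro ⟨e, x⟩ ⟨a, h⟩ ⟨h', -⟩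
    have h0 : (Xs W.T x).card = 0 := by
      rw [← (show (Y a).2 = x from congrArg Prod.snd h)]; exact hQX _ (hYQ a)
    exact hXb _ h' h0

end Pool.Agent.W2helper85.Lonc
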