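import Pool.Agent.W2helper85.Lonc8

set_option autoImplicit false

namespace Pool.Agent.W2helper85.Lonc

/-- nonempty subsets of a three-element set -/
abbrev SS : Type := {S : Fin 3 → Bool // S ≠ fun _ => false}

/-- the coordinates of one block -/
abbrev VV (P : Type) (r : ℕ) : Type := Fin 3 ⊕ P ⊕ Option (Bool × SS) ⊕ Fin r

section Inst

variable {P : Type} [PartialOrder P] {r : ℕ}

open Classical in
/-- a copy of `P` with a maximal element near the top of the cube -/
noncomputable def Tt (r : ℕ) (j1 : P) (S : SS) (j : P) : VV P r → Bool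
  | .inl i => if j = j1 then !(S.1 i) else if j ≤ j1 then false else S.1 i
  | .inr (.inl c) => decide (j = j1 ∨ c ≤ j)
  | .inr (.inr (.inl o)) => decide (j = j1 ∨ o = some (true, S))
  | .inr (.inr (.inr _)) => decide (j = j1)

open Classical in
/-- a copy of `P` with a minimal element near the bottom of the cube -/
noncomputable def Tf (r : ℕ) (j0 : P) (S : SS) (j : P) : VV P r → Bool
  | .inl i => if j0 ≤ j then S.1 i else false
  | .inr (.inl c) => decide (j ≠ j0 ∧ c ≤ j)
  | .inr (.inr (.inl o)) => decide (j ≠ j0 ∧ o = some (false, S))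
  | .inr (.inr (.inr _)) => false

open Classical in
/-- the additional copy of `P` -/
noncomputable def Ty (r : ℕ) (j : P) : VV P r → Bool
  | .inl _ => false
  | .inr (.inl c) => decide (c ≤ j)
  | .inr (.inr (.inl o)) => decide (o = none)
  | .inr (.inr (.inr _)) => false

/-- pointwise order -/
def rV {V : Type} (x y : V → Bool) : Prop := ∀ v, x v = true → y v = true

theorem SS_ex (S : SS) : ∃ i, S.1 i = true := by
  by_contra h
  push Not at h
  apply S.2
  funext i
  have := h i
  cases hb : S.1 i
  · rfl
  · exact absurd hb this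

theorem Tt_le (j1 : P) (hj1 : ∀ j, j1 ≤ j → j = j1) (S : SS) (a b : P) :
    rV (Tt r j1 S a) (Tt r j1 S b) ↔ a ≤ b := by
  constructor
  · intro h
    by_cases ha : a = j1
    · by_cases hb : b = j1
      · rw [ha, hb]
      · have := h (.inr (.inr (.inl none)))
        simp [Tt, ha, hb] at this
    · by_cases hb : b = j1
      · by_contra hab
        obtain ⟨i, hi⟩ := SS_ex S
        have := h (.inl i)
        rw [hb] at hab
        simp [Tt, ha, hb, hab, hi] at this
      · have := h (.inr (.inl a))
        simp [Tt, ha, hb] at this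
        exact this
  · intro h v
    by_cases ha : a = j1
    · have hb : b = j1 := hj1 b (ha ▸ h)
      rw [ha, hb]; exact id
    · by_cases hb : b = j1
      · rw [hb] at h
        rcases v with i | c | o | t
        · simp [Tt, ha, hb, h]
        · simp [Tt, ha, hb]
        · simp [Tt, ha, hb]
        · simp [Tt, ha, hb]
      · rcases v with i | c | o | t
        · simp only [Tt, ha, hb, if_false]
          by_cases hb' : b ≤ j1
          · have ha' : a ≤ j1 := h.trans hb'
            simp [ha']
          · by_cases ha' : a ≤ j1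
            · simp [ha']
            · simp [ha', hb']
        · simp only [Tt, ha, hb, decide_eq_true_eq, false_or]
          exact fun h' => h'.trans h
        · simp [Tt, ha, hb]
        · simp [Tt, ha, hb]

theorem Tf_le (j0 : P) (hj0 : ∀ j, j ≤ j0 → j = j0) (S : SS) (a b : P) :
    rV (Tf r j0 S a) (Tf r j0 S b) ↔ a ≤ b := by
  constructor
  · intro h
    by_cases ha : a = j0
    · by_contra hab
      obtain ⟨i, hi⟩ := SS_ex S
      have := h (.inl i)
      rw [ha] at hab
      simp [Tf, ha, hab, hi] at this
    · by_cases hb : b = j0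
      · have := h (.inr (.inr (.inl (some (false, S)))))
        simp [Tf, ha, hb] at this
      · have := h (.inr (.inl a))
        simp [Tf, ha, hb] at this
        exact this
  · intro h v
    rcases v with i | c | o | t
    · simp only [Tf]
      by_cases ha' : j0 ≤ a
      · simp [ha', ha'.trans h]
      · simp [ha']
    · simp only [Tf, decide_eq_true_eq]
      rintro ⟨h1, h2⟩
      exact ⟨fun hb => h1 (hj0 a (hb ▸ h)), h2.trans h⟩
    · simp only [Tf, decide_eq_true_eq]
      rintro ⟨h1, h2⟩
      exact ⟨fun hb => h1 (hj0 a (hb ▸ h)), h2⟩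
    · simp [Tf]

theorem Ty_le (a b : P) : rV (Ty r a) (Ty r b) ↔ a ≤ b := by
  constructor
  · intro h
    have := h (.inr (.inl a))
    simp [Ty] at this
    exact this
  · intro h v
    rcases v with i | c | o | t
    · simp [Ty]
    · simp only [Ty, decide_eq_true_eq]
      exact fun h' => h'.trans h
    · simp [Ty]
    · simp [Ty]

/-- the family of copies -/
noncomputable def TT (r : ℕ) (j0 j1 : P) (q : Bool × SS) (j : P) : VV P r → Bool :=
  if q.1 then Tt r j1 q.2 j else Tf r j0 q.2 j

theorem rV_refl {V : Type} (x : V → Bool) : rV x x := fun _ h => h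

theorem rV_trans {V : Type} (x y z : V → Bool) (h : rV x y) (h' : rV y z) : rV x z :=
  fun v hv => h' v (h v hv)

theorem rV_anti {V : Type} (x y : V → Bool) (h : rV x y) (h' : rV y x) : x = y := by
  funext v
  have := h v
  have := h' v
  cases hx : x v <;> cases hy : y v <;> simp_all

theorem TT_le (j0 j1 : P) (hj0 : ∀ j, j ≤ j0 → j = j0) (hj1 : ∀ j, j1 ≤ j → j = j1)
    (q : Bool × SS) (a b : P) :
    rV (TT r j0 j1 q a) (TT r j0 j1 q b) ↔ a ≤ b := by
  obtain ⟨e, S⟩ := q
  cases e
  · simp only [TT, Bool.false_eq_true, if_false]; exact Tf_le j0 hj0 S a b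
  · simp only [TT, if_true]; exact Tt_le j1 hj1 S a b

theorem TT_inj (j0 j1 : P) (hj0 : ∀ j, j ≤ j0 → j = j0) (hj1 : ∀ j, j1 ≤ j → j = j1)
    (q : Bool × SS) (a : P) (q' : Bool × SS) (a' : P)
    (h : TT r j0 j1 q a = TT r j0 j1 q' a') : q = q' ∧ a = a' := by
  have key : q = q' := by
    obtain ⟨e, S⟩ := q
    obtain ⟨e', S'⟩ := q'
    have hn := congrFun h (.inr (.inr (.inl none)))
    have h1 := congrFun h (.inr (.inr (.inl (some (e, S)))))
    have h2 := congrFun h (.inr (.inr (.inl (some (e', S')))))
    have h3 : ∀ i, _ := fun i => congrFun h (.inl i)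
    cases e <;> cases e'
    · simp only [TT, Bool.false_eq_true, if_false, Tf] at hn h1 h2 h3
      by_cases ha : a = j0
      · by_cases ha' : a' = j0
        · subst ha
          subst ha'
          simp only [le_refl, if_true] at h3
          have : S = S' := Subtype.ext (funext h3)
          rw [this]
        · simp [ha, ha'] at h2
      · by_cases ha' : a' = j0
        · simp [ha, ha'] at h1
        · simp [ha, ha'] at h1
          rw [h1]
    · simp only [TT, Bool.false_eq_true, if_false, if_true, Tf, Tt] at hn h1 h2 h3
      by_cases ha' : a' = j1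
      · simp [ha'] at hn
      · simp [ha'] at h2
    · simp only [TT, Bool.false_eq_true, if_false, if_true, Tf, Tt] at hn h1 h2 h3
      by_cases ha : a = j1
      · simp [ha] at hn
      · simp [ha] at h1
    · simp only [TT, if_true, Tt] at hn h1 h2 h3
      by_cases ha : a = j1
      · by_cases ha' : a' = j1
        · subst ha
          subst ha'
          simp only [if_true] at h3
          have : S = S' := Subtype.ext (funext fun i => by
            have := h3 i
            simpa using this)
          rw [this]
        · simp [ha, ha'] at hn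
      · by_cases ha' : a' = j1
        · simp [ha, ha'] at hn
        · simp [ha, ha'] at h1
          rw [h1]
  subst key
  refine ⟨rfl, ?_⟩
  have e1 := (TT_le (r := r) j0 j1 hj0 hj1 q a a').1 (h ▸ rV_refl _)
  have e2 := (TT_le (r := r) j0 j1 hj0 hj1 q a' a).1 (h ▸ rV_refl _)
  exact le_antisymm e1 e2

theorem TT_ne_bot (j0 j1 : P) (q : Bool × SS) (a : P) :
    TT r j0 j1 q a ≠ fun _ => false := by
  intro h
  obtain ⟨e, S⟩ := q
  have h1 := congrFun h (.inr (.inr (.inl (some (e, S)))))
  obtain ⟨i, hi⟩ := SS_ex S
  have h3 := congrFun h (.inl i)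
  cases e
  · simp only [TT, Bool.false_eq_true, if_false, Tf] at h1 h3
    by_cases ha : a = j0
    · subst ha
      simp [hi] at h3
    · simp [ha] at h1
  · simp only [TT, if_true, Tt] at h1
    simp at h1

theorem TT_ne_top (j0 j1 : P) (q : Bool × SS) (a : P) :
    TT r j0 j1 q a ≠ fun _ => true := by
  intro h
  obtain ⟨e, S⟩ := q
  have h1 := congrFun h (.inr (.inr (.inl none)))
  obtain ⟨i, hi⟩ := SS_ex S
  have h3 := congrFun h (.inl i)
  cases e
  · simp only [TT, Bool.false_eq_true, if_false, Tf] at h1
    simp at h1
  · simp only [TT, if_true, Tt] at h1 h3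
    by_cases ha : a = j1
    · subst ha
      simp [hi] at h3
    · simp [ha] at h1

theorem Ty_ne_TT (j0 j1 : P) (q : Bool × SS) (a b : P) :
    TT r j0 j1 q a ≠ Ty r b := by
  intro h
  obtain ⟨e, S⟩ := q
  have hn := congrFun h (.inr (.inr (.inl none)))
  have h1 := congrFun h (.inr (.inr (.inl (some (e, S)))))
  cases e
  · simp only [TT, Bool.false_eq_true, if_false, Tf, Ty] at hn h1
    simp at hn
  · simp only [TT, if_true, Tt, Ty] at hn h1
    simp at h1

theorem good3 (u : Fin 3 → Bool) : (∃ i j, i ≠ j ∧ u i = false ∧ u j = false) ∨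
    (∃ i j, i ≠ j ∧ u i = true ∧ u j = true) := by
  revert u; decide

theorem TT_good (j0 j1 : P) (u : VV P r → Bool) :
    (∃ i a j b, rV u (TT r j0 j1 i a) ∧ rV (TT r j0 j1 i a) (TT r j0 j1 j b) ∧
      ¬ rV (TT r j0 j1 j b) (TT r j0 j1 i a)) ∨
     (∃ i a j b, rV (TT r j0 j1 i a) u ∧ rV (TT r j0 j1 j b) (TT r j0 j1 i a) ∧
      ¬ rV (TT r j0 j1 i a) (TT r j0 j1 j b)) := by
  classical
  rcases good3 (fun i => u (.inl i)) with ⟨i, j, hij, hi, hj⟩ | ⟨i, j, hij, hi, hj⟩
  · left
    have hS : (fun x : Fin 3 => decide (x = i ∨ x = j)) ≠ fun _ => false := by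
      intro h; have := congrFun h i; simp at this
    have hS' : (fun x : Fin 3 => decide (x = i)) ≠ fun _ => false := by
      intro h; have := congrFun h i; simp at this
    refine ⟨(true, ⟨_, hS⟩), j1, (true, ⟨_, hS'⟩), j1, ?_, ?_, ?_⟩
    · intro v hv
      rcases v with x | c | o | t
      · simp only [TT, if_true, Tt, Bool.not_eq_true', decide_eq_false_iff_not, not_or]
        constructor
        · rintro rfl; rw [hi] at hv; exact absurd hv (by simp)
        · rintro rfl; rw [hj] at hv; exact absurd hv (by simp)
      · simp [TT, Tt]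
      · simp [TT, Tt]
      · simp [TT, Tt]
    · intro v
      rcases v with x | c | o | t
      · simp only [TT, if_true, Tt, Bool.not_eq_true', decide_eq_false_iff_not, not_or]
        exact fun h => h.1
      · simp [TT, Tt]
      · simp [TT, Tt]
      · simp [TT, Tt]
    · intro h
      have := h (.inl j)
      simp only [TT, if_true, Tt, Bool.not_eq_true', decide_eq_false_iff_not, not_or] at this
      exact (this hij.symm).2 trivial
  · right
    have hS : (fun x : Fin 3 => decide (x = i ∨ x = j)) ≠ fun _ => false := by
      intro h; have := congrFun h i; simp at this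
    have hS' : (fun x : Fin 3 => decide (x = i)) ≠ fun _ => false := by
      intro h; have := congrFun h i; simp at this
    refine ⟨(false, ⟨_, hS⟩), j0, (false, ⟨_, hS'⟩), j0, ?_, ?_, ?_⟩
    · intro v
      rcases v with x | c | o | t
      · simp only [TT, Bool.false_eq_true, if_false, Tf, le_refl, if_true, decide_eq_true_eq]
        rintro (rfl | rfl)
        · exact hi
        · exact hj
      · simp [TT, Tf]
      · simp [TT, Tf]
      · simp [TT, Tf]
    · intro v
      rcases v with x | c | o | t
      · simp only [TT, Bool.false_eq_true, if_false, Tf, le_refl, if_true, decide_eq_true_eq]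
        exact Or.inl
      · simp [TT, Tf]
      · simp [TT, Tf]
      · simp [TT, Tf]
    · intro h
      have := h (.inl j)
      simp only [TT, Bool.false_eq_true, if_false, Tf, le_refl, if_true, decide_eq_true_eq] at this
      exact hij (this (Or.inr trivial)).symm

/-- the concrete world -/
noncomputable def theWorld (r : ℕ) (j0 j1 : P) (hj0 : ∀ j, j ≤ j0 → j = j0)
    (hj1 : ∀ j, j1 ≤ j → j = j1) : World P (VV P r → Bool) (Bool × SS) where
  rP := fun a b => a ≤ b
  rB := rV
  rE := fun a b => a = true → b = true
  el := false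
  eh := true
  bot := fun _ => false
  top := fun _ => true
  T := TT r j0 j1
  P_refl := le_refl
  P_trans := fun a b c h h' => le_trans h h'
  P_anti := fun a b h h' => le_antisymm h h'
  B_refl := rV_refl
  B_trans := rV_trans
  B_anti := rV_anti
  E_refl := fun e h => h
  E_lh := fun _ => rfl
  E_hl := fun h => by simp at h
  T_le := TT_le j0 j1 hj0 hj1
  T_inj := TT_inj j0 j1 hj0 hj1
  bot_le := fun b v h => by simp at h
  le_top := fun b v h => rfl
  bot_ne := TT_ne_bot j0 j1
  top_ne := TT_ne_top j0 j1
  bt := fun h => by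
    have := congrFun h (.inl 0)
    simp at this
  good := TT_good j0 j1

end Inst

end Pool.Agent.W2helper85.Lonc
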